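import Mathlib
import Pool.Agent.W516.Cartan

/-!
# Clifford's theorem for Lie algebras of endomorphisms

Let a group act semisimply on `V` and let `𝔥` be a space of endomorphisms which is stable under
conjugation by the group and commutes with the commutant of the group. Then `𝔥` acts semisimply.
-/

set_option linter.unusedSectionVars false

namespace Pool.Agent.Q50.FP

open Module Pool.Agent.W516.KC

noncomputable section

variable {k V : Type*} [Field k] [CharZero k] [AddCommGroup V] [Module k V] [FiniteDimensional k V]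

/-- Stable under `𝔥`. -/
def StabH (𝔥 : Submodule k (Module.End k V)) (U : Submodule k V) : Prop :=
  ∀ X ∈ 𝔥, ∀ u ∈ U, X u ∈ U

/-- A minimal nonzero stable subspace. -/
def MinH (𝔥 : Submodule k (Module.End k V)) (U : Submodule k V) : Prop :=
  StabH 𝔥 U ∧ U ≠ ⊥ ∧ ∀ U', StabH 𝔥 U' → U' ≤ U → U' ≠ ⊥ → U' = U

/-- Every nonzero stable subspace contains a minimal one. -/
theorem exists_min (𝔥 : Submodule k (Module.End k V)) :
    ∀ (n : ℕ) (U : Submodule k V), finrank k U = n → StabH 𝔥 U → U ≠ ⊥ →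
      ∃ U', MinH 𝔥 U' ∧ U' ≤ U := by
  intro n
  induction n using Nat.strong_induction_on with
  | _ n ih =>
    intro U hn hU h0
    by_cases h : ∀ U', StabH 𝔥 U' → U' ≤ U → U' ≠ ⊥ → U' = U
    · exact ⟨U, ⟨hU, h0, h⟩, le_rfl⟩
    · push Not at h
      obtain ⟨U', h1, h2, h3, h4⟩ := h
      obtain ⟨U'', h5, h6⟩ := ih (finrank k U') (by
        rw [← hn]
        exact Submodule.finrank_lt_finrank_of_lt (lt_of_le_of_ne h2 h4)) U' rfl h1 h3
      exact ⟨U'', h5, h6.trans h2⟩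

/-- The sum of all minimal subspaces. -/
def soc (𝔥 : Submodule k (Module.End k V)) : Submodule k V := sSup {U | MinH 𝔥 U}

theorem stab_sSup (𝔥 : Submodule k (Module.End k V)) (S : Set (Submodule k V))
    (hS : ∀ U ∈ S, StabH 𝔥 U) : StabH 𝔥 (sSup S) := by
  intro X hX u hu
  have h1 : sSup S ≤ (sSup S).comap X := by
    refine sSup_le fun U hU v hv => ?_
    exact (le_sSup hU) (hS U hU X hX v hv)
  exact h1 hu

/-- If the sum of the minimal subspaces is everything, the action is semisimple. -/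
theorem semi_of_soc (𝔥 : Submodule k (Module.End k V)) (hsoc : soc 𝔥 = ⊤) : Semi 𝔥 := by
  classical
  intro U hU
  -- a maximal stable subspace `U'` with `U ⊓ U' = ⊥`
  let P : ℕ → Prop := fun n => ∃ U' : Submodule k V, StabH 𝔥 U' ∧ U ⊓ U' = ⊥ ∧ finrank k U' = n
  have hP0 : ∃ n, P n := ⟨0, ⊥, fun X _ u hu => by
    rw [Submodule.mem_bot] at hu ⊢
    rw [hu, map_zero], inf_bot_eq _, finrank_bot k V⟩
  have hbound : ∀ n, P n → n ≤ finrank k V := by
    rintro n ⟨U', -, -, rfl⟩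
    exact Submodule.finrank_le U'
  let n := Nat.findGreatest P (finrank k V)
  have hn : P n := by
    obtain ⟨m, hm⟩ := hP0
    exact Nat.findGreatest_spec (hbound m hm) hm
  obtain ⟨U', hU'1, hU'2, hU'3⟩ := hn
  refine ⟨U', hU'1, ⟨disjoint_iff.2 hU'2, codisjoint_iff.2 ?_⟩⟩
  rw [eq_top_iff, ← hsoc]
  refine sSup_le fun M hM => ?_
  obtain ⟨hM1, hM2, hM3⟩ := hM
  by_contra hcon
  have hstab : StabH 𝔥 (M ⊓ (U ⊔ U')) := by
    intro X hX u hu
    refine ⟨hM1 X hX u hu.1, ?_⟩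
    obtain ⟨a, ha, b, hb, hab⟩ := Submodule.mem_sup.1 hu.2
    rw [← hab, map_add]
    exact Submodule.add_mem_sup (hU X hX a ha) (hU'1 X hX b hb)
  have h1 : M ⊓ (U ⊔ U') = ⊥ := by
    by_contra h2
    have h3 := hM3 _ hstab inf_le_left h2
    exact hcon (inf_eq_left.1 h3)
  have h2 : U ⊓ (U' ⊔ M) = ⊥ := by
    rw [eq_bot_iff]
    intro x hx
    obtain ⟨a, ha, b, hb, hab⟩ := Submodule.mem_sup.1 hx.2
    have h3 : b ∈ M ⊓ (U ⊔ U') := by
      refine ⟨hb, ?_⟩
      have h4 : b = x - a := by rw [← hab]; abel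
      rw [h4]
      exact Submodule.sub_mem _ (Submodule.mem_sup_left hx.1) (Submodule.mem_sup_right ha)
    rw [h1, Submodule.mem_bot] at h3
    rw [h3, add_zero] at hab
    rw [← hab] at hx ⊢
    rw [← hU'2]
    exact ⟨hx.1, ha⟩
  have h3 : StabH 𝔥 (U' ⊔ M) := by
    intro X hX u hu
    obtain ⟨a, ha, b, hb, hab⟩ := Submodule.mem_sup.1 hu
    rw [← hab, map_add]
    exact Submodule.add_mem_sup (hU'1 X hX a ha) (hM1 X hX b hb)
  have h4 : P (finrank k ↥(U' ⊔ M)) := ⟨_, h3, h2, rfl⟩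
  have h5 : finrank k U' < finrank k ↥(U' ⊔ M) := by
    refine Submodule.finrank_lt_finrank_of_lt (lt_of_le_of_ne le_sup_left fun h => hcon ?_)
    have h6 : M ≤ U' := by
      rw [h]
      exact le_sup_right
    exact h6.trans le_sup_right
  have h6 : finrank k ↥(U' ⊔ M) ≤ n := Nat.le_findGreatest (hbound _ h4) h4
  rw [hU'3] at h5
  omega

/-- **Clifford's theorem.** -/
theorem clifford {Γ : Type*} [Group Γ] (ρ : Γ →* Module.End k V)
    (𝔥 : Submodule k (Module.End k V)) (hconj : ∀ s, ∀ X ∈ 𝔥, ρ s * X * ρ s⁻¹ ∈ 𝔥)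
    (hss : ∀ U : Submodule k V, (∀ s, ∀ u ∈ U, ρ s u ∈ U) →
      ∃ U' : Submodule k V, (∀ s, ∀ u ∈ U', ρ s u ∈ U') ∧ IsCompl U U')
    (hcomm : ∀ P : Module.End k V, (∀ s, P * ρ s = ρ s * P) → ∀ X ∈ 𝔥, X * P = P * X) :
    Semi 𝔥 := by
  have hinv : ∀ s, ρ s * ρ s⁻¹ = 1 := fun s => by rw [← map_mul, mul_inv_cancel, map_one]
  have hinv' : ∀ s, ρ s⁻¹ * ρ s = 1 := fun s => by rw [← map_mul, inv_mul_cancel, map_one]
  have hinva : ∀ s v, ρ s (ρ s⁻¹ v) = v := fun s v => by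
    rw [← Module.End.mul_apply, hinv, Module.End.one_apply]
  have hinva' : ∀ s v, ρ s⁻¹ (ρ s v) = v := fun s v => by
    rw [← Module.End.mul_apply, hinv', Module.End.one_apply]
  -- images of stable subspaces are stable
  have hmap : ∀ s U, StabH 𝔥 U → StabH 𝔥 (U.map (ρ s)) := by
    intro s U hU X hX u hu
    obtain ⟨w, hw, rfl⟩ := Submodule.mem_map.1 hu
    have h1 := hconj s⁻¹ X hX
    rw [inv_inv] at h1
    refine Submodule.mem_map.2 ⟨(ρ s⁻¹ * X * ρ s) w, hU _ h1 w hw, ?_⟩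
    rw [Module.End.mul_apply, Module.End.mul_apply, hinva]
  have hmm : ∀ s (U : Submodule k V), (U.map (ρ s)).map (ρ s⁻¹) = U := by
    intro s U
    rw [← Submodule.map_comp]
    have h1 : (ρ s⁻¹ : Module.End k V) ∘ₗ ρ s = LinearMap.id := hinv' s
    rw [h1, Submodule.map_id]
  have hmm' : ∀ s (U : Submodule k V), (U.map (ρ s⁻¹)).map (ρ s) = U := by
    intro s U
    have h1 := hmm s⁻¹ U
    rwa [inv_inv] at h1
  have hmin : ∀ s U, MinH 𝔥 U → MinH 𝔥 (U.map (ρ s)) := by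
    rintro s U ⟨h1, h2, h3⟩
    refine ⟨hmap s U h1, fun h => h2 ?_, fun U' h4 h5 h6 => ?_⟩
    · rw [← hmm s U, h, Submodule.map_bot]
    · have h7 := h3 (U'.map (ρ s⁻¹)) (hmap _ _ h4) (by
        rw [← hmm s U]
        exact Submodule.map_mono h5) (fun h => h6 (by rw [← hmm' s U', h, Submodule.map_bot]))
      rw [← hmm' s U', h7]
  -- the socle is stable under the group
  have hsocΓ : ∀ s, ∀ u ∈ soc 𝔥, ρ s u ∈ soc 𝔥 := by
    intro s u hu
    have h1 : soc 𝔥 ≤ (soc 𝔥).comap (ρ s) := by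
      refine sSup_le fun U hU v hv => ?_
      exact (le_sSup (a := U.map (ρ s)) (hmin s U hU)) (Submodule.mem_map_of_mem hv)
    exact h1 hu
  obtain ⟨C, hC, hcompl⟩ := hss _ hsocΓ
  -- the projection to the socle
  let π : Module.End k V := (soc 𝔥).projection C hcompl
  have hπ2 : ∀ x ∈ soc 𝔥, π x = x := fun x hx =>
    Submodule.projection_apply_of_mem_left hcompl hx
  have hπ3 : ∀ x ∈ C, π x = 0 := fun x hx =>
    (Submodule.projection_apply_eq_zero_iff hcompl).2 hx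
  have hπ : ∀ s, π * ρ s = ρ s * π := by
    intro s
    refine LinearMap.ext fun v => ?_
    obtain ⟨u, hu, u', hu', rfl⟩ : ∃ u ∈ soc 𝔥, ∃ u' ∈ C, u + u' = v := by
      have h1 : v ∈ soc 𝔥 ⊔ C := by rw [hcompl.sup_eq_top]; trivial
      exact Submodule.mem_sup.1 h1
    rw [Module.End.mul_apply, Module.End.mul_apply, map_add, map_add, map_add, map_add,
      hπ2 u hu, hπ2 _ (hsocΓ s u hu), hπ3 u' hu', hπ3 _ (hC s u' hu'), map_zero]
  have h1 := hcomm π hπ
  have hCstab : StabH 𝔥 C := by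
    intro X hX u hu
    have h2 : π (X u) = 0 := by
      rw [← Module.End.mul_apply, ← h1 X hX, Module.End.mul_apply, hπ3 u hu, map_zero]
    exact (Submodule.projection_apply_eq_zero_iff hcompl).1 h2
  have hC0 : C = ⊥ := by
    by_contra h
    obtain ⟨U, hU, hle⟩ := exists_min 𝔥 _ C rfl hCstab h
    have h2 : U ≤ soc 𝔥 := le_sSup hU
    have h3 : U ≤ soc 𝔥 ⊓ C := le_inf h2 hle
    rw [hcompl.inf_eq_bot, le_bot_iff] at h3
    exact hU.2.1 h3
  refine semi_of_soc 𝔥 ?_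
  have h2 := hcompl.sup_eq_top
  rwa [hC0, sup_bot_eq] at h2

end

end Pool.Agent.Q50.FP
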