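import Mathlib
import Pool.Agent.W516.Cartan
import Pool.Agent.W516.MT.Casimir2

/-!
# The fourth power decides: the algebraic part

Let `𝔤` be a Lie algebra of endomorphisms of `V` which acts semisimply, and let `𝔰` be its derived
algebra. The trace form of `𝔰` is nondegenerate. An endomorphism `Z` which is skew for a nondegenerate
form, which kills the Casimir form of `𝔰`, and which commutes with the commutant of `𝔤`, is the sum of
an element of `𝔰` and an element of the centre of the commutant. If the traces `tr (Z e)`, for `e`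
in the centre of the commutant, are the traces `tr (θ e)` for an element `θ` of `𝔤`, then `Z` is an
element of `𝔤`.
-/

set_option linter.unusedSectionVars false

namespace Pool.Agent.Q50.FP

open Module Pool.Agent.H204R3.SP Pool.Agent.H204R3.GP Pool.Agent.W516.KC

noncomputable section

variable {k V : Type*} [Field k] [CharZero k] [AddCommGroup V] [Module k V] [FiniteDimensional k V]

/-- The derived algebra. -/
def der (𝔤 : Submodule k (Module.End k V)) : Submodule k (Module.End k V) :=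
  Submodule.span k {Z | ∃ X ∈ 𝔤, ∃ Y ∈ 𝔤, Z = X * Y - Y * X}

/-- The elements of the centre of the commutant. -/
def InCentre (𝔤 : Submodule k (Module.End k V)) (e : Module.End k V) : Prop :=
  (∀ X ∈ 𝔤, X * e = e * X) ∧ ∀ P : Module.End k V, (∀ X ∈ 𝔤, X * P = P * X) → e * P = P * e

variable (𝔤 : Submodule k (Module.End k V)) (hss : Semi 𝔤)
  (hbr : ∀ X ∈ 𝔤, ∀ Y ∈ 𝔤, X * Y - Y * X ∈ 𝔤)

/-- A nilpotent endomorphism which commutes with the commutant and with `𝔤` is zero. -/
theorem zero_of_nilpotent (hss : Semi 𝔤) {c : Module.End k V} (hc : ∀ X ∈ 𝔤, X * c = c * X)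
    (hc' : ∀ P : Module.End k V, (∀ X ∈ 𝔤, X * P = P * X) → c * P = P * c)
    (hn : IsNilpotent c) : c = 0 := by
  let U : Submodule k V := LinearMap.ker c
  obtain ⟨U', hU', hcompl⟩ := hss U (fun X hX u hu => by
    rw [LinearMap.mem_ker] at hu ⊢
    rw [← Module.End.mul_apply, ← hc X hX, Module.End.mul_apply, hu, map_zero])
  -- the projection to `U'` along `U`
  let π : Module.End k V := U'.projection U hcompl.symm
  have hπ1 : ∀ x, π x ∈ U' := fun x => by
    change U'.projection U hcompl.symm x ∈ U'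
    rw [Submodule.projection_apply]
    exact SetLike.coe_mem _
  have hπ2 : ∀ x ∈ U', π x = x := fun x hx =>
    Submodule.projection_apply_of_mem_left hcompl.symm hx
  have hπ3 : ∀ x ∈ U, π x = 0 := fun x hx =>
    (Submodule.projection_apply_eq_zero_iff hcompl.symm).2 hx
  have hπ : ∀ X ∈ 𝔤, X * π = π * X := by
    intro X hX
    refine LinearMap.ext fun v => ?_
    obtain ⟨u, hu, u', hu', rfl⟩ : ∃ u ∈ U, ∃ u' ∈ U', u + u' = v := by
      have h1 : v ∈ U ⊔ U' := by rw [hcompl.sup_eq_top]; trivial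
      exact Submodule.mem_sup.1 h1
    have h2 : X u ∈ U := by
      change c (X u) = 0
      have hu0 : c u = 0 := hu
      rw [← Module.End.mul_apply, ← hc X hX, Module.End.mul_apply, hu0, map_zero]
    rw [Module.End.mul_apply, Module.End.mul_apply, map_add, map_add, map_add, map_add, hπ3 u hu,
      hπ3 _ h2, hπ2 u' hu', hπ2 _ (hU' X hX u' hu'), map_zero]
  have h3 := hc' π hπ
  -- `c` preserves `U'`
  have h4 : ∀ u ∈ U', c u ∈ U' := by
    intro u hu
    have h5 := congrArg (fun f : Module.End k V => f u) h3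
    simp only [Module.End.mul_apply] at h5
    rw [hπ2 u hu] at h5
    rw [h5]
    exact hπ1 _
  obtain ⟨n, hn⟩ := hn
  have h5 : ∀ m, ∀ u ∈ U', (c ^ m) u = 0 → u = 0 := by
    intro m
    induction m with
    | zero => intro u _ h; simpa using h
    | succ m ih =>
      intro u hu h
      rw [pow_succ, Module.End.mul_apply] at h
      have h6 := ih (c u) (h4 u hu) h
      exact (Submodule.disjoint_def.1 hcompl.disjoint) u h6 hu
  have h6 : U' = ⊥ := by
    rw [eq_bot_iff]
    intro u hu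
    exact h5 n u hu (by rw [hn, LinearMap.zero_apply])
  have h7 : U = ⊤ := by
    have h8 := hcompl.sup_eq_top
    rwa [h6, sup_bot_eq] at h8
  exact LinearMap.ker_eq_top.1 h7

/-- A nilpotent central element is zero. -/
theorem zero_of_central (hss : Semi 𝔤) {c : Module.End k V} (hc𝔤 : c ∈ 𝔤)
    (hc : ∀ X ∈ 𝔤, X * c = c * X) (hn : IsNilpotent c) : c = 0 :=
  zero_of_nilpotent 𝔤 hss hc (fun _ hP => hP c hc𝔤) hn

/-- Polynomials in an endomorphism which commutes with `𝔤`. -/
theorem aeval_comm {c X : Module.End k V} (h : X * c = c * X) (p : Polynomial k) :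
    X * Polynomial.aeval c p = Polynomial.aeval c p * X := by
  have h1 : Commute X c := h
  induction p using Polynomial.induction_on with
  | C a =>
    rw [Polynomial.aeval_C]
    exact (Algebra.commutes a X).symm
  | add p q hp hq => rw [map_add, mul_add, add_mul, hp, hq]
  | monomial n a _ =>
    rw [map_mul, Polynomial.aeval_C, map_pow, Polynomial.aeval_X]
    have h2 : X * c ^ (n + 1) = c ^ (n + 1) * X := h1.pow_right (n + 1)
    rw [← mul_assoc, ← Algebra.commutes a X, mul_assoc, h2, mul_assoc]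

theorem der_le : der 𝔤 ≤ Submodule.span k {Z | ∃ X ∈ 𝔤, ∃ Y ∈ 𝔤, Z = X * Y - Y * X} := le_rfl

include hbr in
theorem der_sub : der 𝔤 ≤ 𝔤 := by
  rw [der, Submodule.span_le]
  rintro _ ⟨X, hX, Y, hY, rfl⟩
  exact hbr X hX Y hY

theorem mem_der {X Y : Module.End k V} (hX : X ∈ 𝔤) (hY : Y ∈ 𝔤) : X * Y - Y * X ∈ der 𝔤 :=
  Submodule.subset_span ⟨X, hX, Y, hY, rfl⟩

include hbr in
theorem der_ideal {X Y : Module.End k V} (hX : X ∈ 𝔤) (hY : Y ∈ der 𝔤) :
    X * Y - Y * X ∈ der 𝔤 := mem_der 𝔤 hX (der_sub 𝔤 hbr hY)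

include hbr in
theorem der_br : ∀ X ∈ der 𝔤, ∀ Y ∈ der 𝔤, X * Y - Y * X ∈ der 𝔤 :=
  fun _ hX _ hY => mem_der 𝔤 (der_sub 𝔤 hbr hX) (der_sub 𝔤 hbr hY)

/-- The trace of the product of an element of the derived algebra and of an element of the
commutant. -/
theorem trace_der {x e : Module.End k V} (hx : x ∈ der 𝔤) (he : ∀ X ∈ 𝔤, X * e = e * X) :
    LinearMap.trace k V (e * x) = 0 := by
  rw [der] at hx
  induction hx using Submodule.span_induction with
  | mem x h =>
    obtain ⟨X, hX, Y, hY, rfl⟩ := h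
    have h1 : e * (X * Y - Y * X) = X * (e * Y) - e * Y * X := by
      rw [mul_sub, ← mul_assoc, ← he X hX, mul_assoc, mul_assoc]
    rw [h1, map_sub, LinearMap.trace_mul_comm, sub_self]
  | zero => rw [mul_zero, map_zero]
  | add a b _ _ ha hb => rw [mul_add, map_add, ha, hb, add_zero]
  | smul c a _ ha => rw [mul_smul_comm, map_smul, ha, smul_zero]

include hss in
/-- A central element in the derived algebra is zero. -/
theorem zero_of_central_der (hsub : der 𝔤 ≤ 𝔤) {c : Module.End k V} (hc : c ∈ der 𝔤)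
    (hcc : ∀ X ∈ 𝔤, X * c = c * X) : c = 0 := by
  refine zero_of_central 𝔤 hss (hsub hc) hcc (isNilpotent_of_trace c fun p => ?_)
  exact trace_der 𝔤 hc fun X hX => aeval_comm (hcc X hX) p

include hss hbr in
/-- The trace form of the derived algebra is nondegenerate. -/
theorem der_nondeg : Pool.Agent.W516.KC2.TraceNondeg (der 𝔤) := by
  intro x hx htr
  have hsub := der_sub 𝔤 hbr
  refine zero_of_central_der 𝔤 hss hsub hx fun Y hY => ?_
  -- the bracket with `Y` is in the radical of the trace form of `𝔤`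
  have h1 : Y * x - x * Y ∈ 𝔤 := hbr Y hY x (hsub hx)
  have h2 : ∀ Z ∈ 𝔤, LinearMap.trace k V ((Y * x - x * Y) * Z) = 0 := by
    intro Z hZ
    have h3 := htr _ (mem_der 𝔤 hZ hY)
    have h4 : LinearMap.trace k V ((Y * x - x * Y) * Z) =
        LinearMap.trace k V (x * (Z * Y - Y * Z)) := by
      have h5 : LinearMap.trace k V (Y * x * Z) = LinearMap.trace k V (x * (Z * Y)) := by
        rw [mul_assoc, LinearMap.trace_mul_comm, mul_assoc]
      rw [sub_mul, mul_sub, map_sub, map_sub, h5, mul_assoc]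
    rw [h4, h3]
  have h3 := central_of_trace 𝔤 hss hbr h1 h2
  have h4 := zero_of_central_der 𝔤 hss hsub (mem_der 𝔤 hY (hsub hx)) h3
  exact sub_eq_zero.1 h4

include hss hbr in
/-- Every element of `𝔤` is the sum of an element of the derived algebra and of a central
element. -/
theorem exists_der_central {θ : Module.End k V} (hθ : θ ∈ 𝔤) :
    ∃ s ∈ der 𝔤, ∀ X ∈ 𝔤, X * (θ - s) = (θ - s) * X := by
  have hsub := der_sub 𝔤 hbr
  have hnt := der_nondeg 𝔤 hss hbr
  let f : Module.Dual k (der 𝔤) :=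
    { toFun := fun X => LinearMap.trace k V (θ * X.1)
      map_add' := fun X Y => by
        change LinearMap.trace k V (θ * (X.1 + Y.1)) = _
        rw [mul_add, map_add]
      map_smul' := fun c X => by
        change LinearMap.trace k V (θ * (c • X.1)) = _
        rw [mul_smul_comm, map_smul]
        rfl }
  let s := (Pool.Agent.W516.KC2.trE (der 𝔤) hnt).symm f
  have hs : ∀ X ∈ der 𝔤, LinearMap.trace k V (s.1 * X) = LinearMap.trace k V (θ * X) :=
    fun X hX => Pool.Agent.W516.KC2.trE_symm (der 𝔤) hnt f ⟨X, hX⟩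
  refine ⟨s.1, s.2, fun X hX => ?_⟩
  have h1 : X * (θ - s.1) - (θ - s.1) * X ∈ der 𝔤 :=
    mem_der 𝔤 hX (Submodule.sub_mem _ hθ (hsub s.2))
  have h2 := hnt _ h1 fun Y hY => by
    have h3 := hs _ (der_ideal 𝔤 hbr hX hY)
    have h4 : LinearMap.trace k V ((X * (θ - s.1) - (θ - s.1) * X) * Y) =
        -LinearMap.trace k V ((θ - s.1) * (X * Y - Y * X)) := by
      have h5 : LinearMap.trace k V (X * (θ - s.1) * Y) =
          LinearMap.trace k V ((θ - s.1) * (Y * X)) := by
        rw [mul_assoc, LinearMap.trace_mul_comm, mul_assoc]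
      rw [sub_mul, mul_sub (θ - s.1), map_sub, map_sub, h5, mul_assoc]
      ring
    rw [h4, sub_mul, map_sub, h3, sub_self, neg_zero]
  exact sub_eq_zero.1 h2

include hss in
/-- The trace form on the centre of the commutant is nondegenerate. -/
theorem centre_nondeg {c : Module.End k V} (hc : InCentre 𝔤 c)
    (htr : ∀ e, InCentre 𝔤 e → LinearMap.trace k V (c * e) = 0) : c = 0 := by
  refine zero_of_nilpotent 𝔤 hss hc.1 hc.2 (isNilpotent_of_trace c fun p => ?_)
  rw [LinearMap.trace_mul_comm]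
  refine htr _ ⟨fun X hX => aeval_comm (hc.1 X hX) p, fun P hP => ?_⟩
  exact (aeval_comm (hc.2 P hP).symm p).symm

/-- The Casimir form of the derived algebra. -/
def cas (ω : V →ₗ[k] V →ₗ[k] k) : MultilinearMap k (fun _ : Fin 2 × Fin 2 => V) k :=
  Pool.Agent.W516.KC2.casimir (der 𝔤) (der_nondeg 𝔤 hss hbr) ω

/-- The decomposition of an endomorphism which kills the Casimir form. -/
theorem decomp (ω : V →ₗ[k] V →ₗ[k] k) (hnd : ∀ u, (∀ v, ω u v = 0) → u = 0)
    {Z : Module.End k V} (hZ : IsSkew ω Z) (hk : Kills Z (cas 𝔤 hss hbr ω))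
    (hc : CommComm 𝔤 Z) : ∃ s ∈ der 𝔤, InCentre 𝔤 (Z - s) := by
  have hsub := der_sub 𝔤 hbr
  obtain ⟨s, hs, hcomm⟩ := Pool.Agent.W516.KC2.mem_of_kills_casimir (der 𝔤)
    (der_nondeg 𝔤 hss hbr) ω (der_br 𝔤 hbr) hnd hZ hk
  refine ⟨s, hs, fun X hX => ?_, fun P hP => ?_⟩
  · obtain ⟨x, hx, hxc⟩ := exists_der_central 𝔤 hss hbr hX
    have h1 := hcomm x hx
    -- `X - x` is central, so it is in the commutant
    have h2 := hc (X - x) hxc
    have h3 := hxc s (hsub hs)
    have h4 : X * (Z - s) = (X - x) * Z - (X - x) * s + x * (Z - s) := by noncomm_ring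
    have h5 : (Z - s) * X = Z * (X - x) - s * (X - x) + (Z - s) * x := by noncomm_ring
    rw [h4, h5, h1, h2, h3]
  · rw [sub_mul, mul_sub, hc P hP, hP s (hsub hs)]

/-- **The core.** -/
theorem core (ω : V →ₗ[k] V →ₗ[k] k) (hnd : ∀ u, (∀ v, ω u v = 0) → u = 0)
    {Z : Module.End k V} (hZ : IsSkew ω Z) (hk : Kills Z (cas 𝔤 hss hbr ω))
    (hc : CommComm 𝔤 Z) {θ : Module.End k V} (hθ : θ ∈ 𝔤)
    (htr : ∀ e, InCentre 𝔤 e → LinearMap.trace k V (Z * e) = LinearMap.trace k V (θ * e)) :
    Z ∈ 𝔤 := by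
  have hsub := der_sub 𝔤 hbr
  obtain ⟨s, hs, hcen⟩ := decomp 𝔤 hss hbr ω hnd hZ hk hc
  obtain ⟨x, hx, hxc⟩ := exists_der_central 𝔤 hss hbr hθ
  have hθx : InCentre 𝔤 (θ - x) := ⟨hxc, fun P hP => hP _ (Submodule.sub_mem _ hθ (hsub hx))⟩
  have h1 : InCentre 𝔤 ((Z - s) - (θ - x)) := by
    refine ⟨fun X hX => ?_, fun P hP => ?_⟩
    · rw [mul_sub, sub_mul, hcen.1 X hX, hθx.1 X hX]
    · rw [sub_mul, mul_sub, hcen.2 P hP, hθx.2 P hP]
  have h2 := centre_nondeg 𝔤 hss h1 fun e he => by
    have h3 := htr e he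
    have h4 := trace_der 𝔤 hs he.1
    have h5 := trace_der 𝔤 hx he.1
    rw [LinearMap.trace_mul_comm] at h4 h5
    rw [sub_mul, sub_mul, sub_mul, map_sub, map_sub, map_sub, h3, h4, h5]
    ring
  have h3 : Z = s + (θ - x) := by
    have h4 := sub_eq_zero.1 h2
    rw [← h4]
    abel
  rw [h3]
  exact Submodule.add_mem _ (hsub hs) (Submodule.sub_mem _ hθ (hsub hx))

end

end Pool.Agent.Q50.FP
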