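import Pool.Agent.Q50.FP.Grp
import Pool.Agent.Q50.FP.Core
import Pool.Agent.Q50.FP.Clifford
import Pool.Agent.W516.MT.Main2
import Pool.Agent.W516.MT.AllFinal

/-!
# Tate classes in four variables decide: abelian varieties
-/

set_option linter.unusedSectionVars false

namespace Pool.Agent.Q50.FP

open Module TensorProduct Filter Topology Pool.Agent.H204R3.SP Pool.Agent.H204R3.GP
  Pool.Agent.W516.KC Pool.Agent.W516.DR Pool.Agent.W516.FT

noncomputable section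

section Galois

variable {ℓ : ℕ} [hℓ : Fact ℓ.Prime] {V : Type*} [AddCommGroup V] [Module ℚ_[ℓ] V]
  [FiniteDimensional ℚ_[ℓ] V] {Γ : Type*} [Group Γ] [TopologicalSpace Γ] [IsTopologicalGroup Γ]
  [CompactSpace Γ] (ρ : Representation ℚ_[ℓ] Γ V) (χ : Γ →* ℚ_[ℓ])
  (hρ : ∀ (v : V) (f : Dual ℚ_[ℓ] V), Continuous fun s => f (ρ s v)) (hχ : Continuous χ)
  (ω : V →ₗ[ℚ_[ℓ]] V →ₗ[ℚ_[ℓ]] ℚ_[ℓ]) (hωρ : ∀ s u v, ω (ρ s u) (ρ s v) = χ s * ω u v)
  (hnd : ∀ u, (∀ v, ω u v = 0) → u = 0)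

include hρ hχ in
/-- The logarithms, corrected by scalars, are in the Lie algebra which kills all Tate forms. -/
theorem exists_logs_lieT : ∃ Δ : Subgroup Γ, Δ.FiniteIndex ∧ ∀ s ∈ Δ,
    ∃ (D : Module.End ℚ_[ℓ] V) (y : ℚ_[ℓ]), D ∈ lieT ρ χ ∧
      ∀ (m : ℕ) (φ : MultilinearMap ℚ_[ℓ] (fun _ : Fin m × Fin 2 => V) ℚ_[ℓ]),
        Kills D φ → ∀ v, φ (fun j => ρ s (v j)) = χ s ^ m * φ v := by
  obtain ⟨Δ, hΔ, h⟩ := exists_logs (ρ : Γ →* Module.End ℚ_[ℓ] V) χ hρ hχ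
  refine ⟨Δ, hΔ, fun s hs => ?_⟩
  obtain ⟨Y, y, hY⟩ := h s hs
  have key : ∀ (m : ℕ) (φ : MultilinearMap ℚ_[ℓ] (fun _ : Fin m × Fin 2 => V) ℚ_[ℓ])
      (v : Fin m × Fin 2 → V),
      ∑ j, φ (Function.update v j ((Y - (y / 2) • (1 : Module.End ℚ_[ℓ] V)) (v j))) =
        ∑ j, φ (Function.update v j (Y (v j))) - m * y * φ v := by
    intro m φ v
    have h1 : ∀ j, φ (Function.update v j ((Y - (y / 2) • (1 : Module.End ℚ_[ℓ] V)) (v j))) =
        φ (Function.update v j (Y (v j))) - (y / 2) * φ v := by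
      intro j
      rw [LinearMap.sub_apply, MultilinearMap.map_update_sub, LinearMap.smul_apply,
        MultilinearMap.map_update_smul, Module.End.one_apply, Function.update_eq_self,
        smul_eq_mul]
    rw [Finset.sum_congr rfl fun j _ => h1 j, Finset.sum_sub_distrib, Finset.sum_const,
      Finset.card_univ, Fintype.card_prod, Fintype.card_fin, Fintype.card_fin, nsmul_eq_mul]
    push_cast
    ring
  refine ⟨Y - (y / 2) • 1, y, fun m φ hφ v => ?_, fun m φ hφ v => ?_⟩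
  · obtain ⟨Δ', hΔ', hφ⟩ := hφ
    obtain ⟨N, hN, -, hNs⟩ := Subgroup.exists_pow_mem_of_index_ne_zero hΔ'.index_ne_zero s
    have h1 := (hY (Fin m × Fin 2) φ m).1 ⟨N, hN, fun v => hφ _ hNs v⟩ v
    rw [key, h1, sub_self]
  · refine (hY (Fin m × Fin 2) φ m).2 (fun w => ?_) v
    have h1 := hφ w
    rw [key] at h1
    exact sub_eq_zero.1 h1

include hρ hχ in
/-- A form which is killed by the Lie algebra is a Tate form. -/
theorem tate_of_kills {m : ℕ} (φ : MultilinearMap ℚ_[ℓ] (fun _ : Fin m × Fin 2 => V) ℚ_[ℓ])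
    (hφ : ∀ X ∈ lieT ρ χ, Kills X φ) : IsTate ρ χ m φ := by
  obtain ⟨Δ, hΔ, h⟩ := exists_logs_lieT ρ χ hρ hχ
  refine ⟨Δ, hΔ, fun s hs v => ?_⟩
  obtain ⟨D, y, hD, hD'⟩ := h s hs
  exact hD' m φ (hφ D hD) v

include hρ hχ hωρ hnd in
/-- An endomorphism which commutes with the Lie algebra commutes with a subgroup of finite
index. -/
theorem almost_of_comm {P : Module.End ℚ_[ℓ] V} (hP : ∀ X ∈ lieT ρ χ, X * P = P * X) :
    AlmostEquivariant ρ P := by
  have h1 : IsTate ρ χ 1 (one2 (ω.comp P)) := by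
    refine tate_of_kills ρ χ hρ hχ _ fun X hX => ?_
    rw [kills_one2]
    intro u v
    have h2 := lieT_sp ρ χ ω hωρ hX (P u) v
    have h3 := congrArg (fun f : Module.End ℚ_[ℓ] V => f u) (hP X hX)
    simp only [Module.End.mul_apply] at h3
    rw [LinearMap.comp_apply, LinearMap.comp_apply, ← h3]
    exact h2
  obtain ⟨Δ, hΔ, h2⟩ := h1
  refine ⟨Δ, hΔ, fun s hs u => ?_⟩
  rw [← sub_eq_zero]
  apply hnd
  intro w
  obtain ⟨v, rfl⟩ : ∃ v, ρ s v = w := ⟨ρ s⁻¹ w, rho_inv' ρ s w⟩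
  have h3 := h2 s hs (fun l => if l.2 = 0 then u else v)
  rw [one2_apply, one2_apply] at h3
  simp only [if_true, pow_one, LinearMap.comp_apply] at h3
  have h4 := hωρ s (P u) v
  rw [map_sub, LinearMap.sub_apply, h4, sub_eq_zero]
  simpa using h3

include hωρ hnd in
/-- The Lie algebra commutes with the endomorphisms which commute with a subgroup of finite
index. -/
theorem comm_of_almost {P X : Module.End ℚ_[ℓ] V} (hP : AlmostEquivariant ρ P)
    (hX : X ∈ lieT ρ χ) : X * P = P * X :=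
  LinearMap.ext fun v => (lieT_le_nrm ω ρ χ hωρ hnd hX).2.2 P hP v

include hωρ hnd in
/-- The Lie algebra acts semisimply. -/
theorem semi_lieT (hss : FiniteIndexSemisimple ρ) : Semi (lieT ρ χ) := by
  refine clifford (ρ : Γ →* Module.End ℚ_[ℓ] V) (lieT ρ χ) (fun s X hX => lieT_conj ρ χ s hX)
    (fun U hU => ?_) fun P hP X hX => ?_
  · obtain ⟨U', h1, h2⟩ := hss ⊤ inferInstance U (fun s _ => hU s)
    exact ⟨U', fun s => h1 s trivial, h2⟩
  · refine comm_of_almost ρ χ ω hωρ hnd ⟨⊤, inferInstance, fun s _ v => ?_⟩ hX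
    have h1 := congrArg (fun f : Module.End ℚ_[ℓ] V => f v) (hP s)
    exact h1

theorem lieT_br : ∀ X ∈ lieT ρ χ, ∀ Y ∈ lieT ρ χ, X * Y - Y * X ∈ lieT ρ χ :=
  fun _ hX _ hY => lieT_bracket ρ χ hX hY

theorem der_conj (s : Γ) {X : Module.End ℚ_[ℓ] V} (hX : X ∈ der (lieT ρ χ)) :
    ρ s * X * ρ s⁻¹ ∈ der (lieT ρ χ) := by
  rw [der] at hX
  induction hX using Submodule.span_induction with
  | mem x h =>
    obtain ⟨X, hX, Y, hY, rfl⟩ := h
    have h1 : ρ s⁻¹ * ρ s = 1 := by rw [← map_mul, inv_mul_cancel, map_one]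
    have h2 : ρ s * (X * Y - Y * X) * ρ s⁻¹ = (ρ s * X * ρ s⁻¹) * (ρ s * Y * ρ s⁻¹) -
        (ρ s * Y * ρ s⁻¹) * (ρ s * X * ρ s⁻¹) := by
      have h3 : ∀ A B : Module.End ℚ_[ℓ] V, (ρ s * A * ρ s⁻¹) * (ρ s * B * ρ s⁻¹) =
          ρ s * (A * B) * ρ s⁻¹ := by
        intro A B
        calc (ρ s * A * ρ s⁻¹) * (ρ s * B * ρ s⁻¹) = ρ s * A * (ρ s⁻¹ * ρ s) * B * ρ s⁻¹ := by
              noncomm_ring
          _ = ρ s * (A * B) * ρ s⁻¹ := by rw [h1]; noncomm_ring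
      rw [h3, h3]
      noncomm_ring
    rw [h2]
    exact mem_der _ (lieT_conj ρ χ s hX) (lieT_conj ρ χ s hY)
  | zero => rw [mul_zero, zero_mul]; exact Submodule.zero_mem _
  | add a b _ _ ha hb => rw [mul_add, add_mul]; exact Submodule.add_mem _ ha hb
  | smul c a _ ha => rw [mul_smul_comm, smul_mul_assoc]; exact Submodule.smul_mem _ _ ha

include hωρ in
/-- The Casimir form is a Tate form. -/
theorem cas_tate (hsemi : Semi (lieT ρ χ)) :
    IsTate ρ χ 2 (cas (lieT ρ χ) hsemi (lieT_br ρ χ) ω) := by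
  refine ⟨⊤, inferInstance, fun s _ v => ?_⟩
  refine Pool.Agent.W516.KC2.casimir_inv (der (lieT ρ χ)) _ ω (g := ρ s) (g' := ρ s⁻¹) ?_ ?_
    (hωρ s) ?_ ?_ v
  · rw [← map_mul, inv_mul_cancel, map_one]
  · rw [← map_mul, mul_inv_cancel, map_one]
  · intro X hX
    exact der_conj ρ χ s hX
  · intro X hX
    have h1 := der_conj ρ χ s⁻¹ hX
    rwa [inv_inv] at h1

end Galois

end

end Pool.Agent.Q50.FP
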