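import Pool.Agent.Q50.FP.Log

/-!
# Continuous representations of compact groups over the `ℓ`-adic numbers

Let `Γ` be a compact group which acts continuously on a finite dimensional vector space `V` over
`ℚ_ℓ`, and let `χ` be a continuous character. There is a subgroup `Δ` of finite index such that for
every `s` in `Δ` there are an endomorphism `Y` and a number `y` (the logarithms) with the following
property: a multilinear form `φ` satisfies `φ (s v) = χ(s) ^ M φ v` if and only if `Y φ = M y φ`, and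
if and only if a similar formula holds for some power of `s`.
-/

set_option linter.unusedSectionVars false

namespace Pool.Agent.Q50.FP

open Filter Topology Module

noncomputable section

variable {ℓ : ℕ} [hℓ : Fact ℓ.Prime] {n : ℕ}

lemma norm_eq_one_of_near {x : ℚ_[ℓ]} (hx : ‖x - 1‖ ≤ eps ℓ) : ‖x‖ = 1 := by
  have h1 : x = (x - 1) + 1 := by ring
  have h2 : ‖x - 1‖ < ‖(1 : ℚ_[ℓ])‖ := by
    rw [norm_one]
    exact hx.trans_lt eps_lt_one
  rw [h1, IsUltrametricDist.norm_add_eq_max_of_norm_ne_norm h2.ne, max_eq_right h2.le, norm_one]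

lemma near_inv {x : ℚ_[ℓ]} (hx : ‖x - 1‖ ≤ eps ℓ) : ‖x⁻¹ - 1‖ ≤ eps ℓ := by
  have h1 := norm_eq_one_of_near hx
  have h0 : x ≠ 0 := by
    intro h
    rw [h, norm_zero] at h1
    exact zero_ne_one h1
  have h2 : x⁻¹ - 1 = -(x⁻¹ * (x - 1)) := by
    field_simp
    ring
  rw [h2, norm_neg, norm_mul, norm_inv, h1, inv_one, one_mul]
  exact hx

lemma near_of_entry {T : Module.End ℚ_[ℓ] (Fin n → ℚ_[ℓ])}
    (h : ∀ i j : Fin n, ‖T (sb ℓ j) i - sb ℓ j i‖ ≤ eps ℓ) : NearId ℓ T := by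
  intro x
  rw [pi_norm_le_iff_of_nonneg (mul_nonneg eps_pos.le (norm_nonneg _))]
  intro i
  have h1 : (T x - x) i = ∑ j, x j * (T (sb ℓ j) i - sb ℓ j i) := by
    have h2 : T x - x = ∑ j, x j • (T (sb ℓ j) - sb ℓ j) := by
      conv_lhs => rw [sb_sum x, map_sum]
      rw [← Finset.sum_sub_distrib]
      exact Finset.sum_congr rfl fun j _ => by rw [map_smul, smul_sub]
    rw [h2, Finset.sum_apply]
    rfl
  rw [h1]
  refine IsUltrametricDist.norm_sum_le_of_forall_le_of_nonneg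
    (mul_nonneg eps_pos.le (norm_nonneg _)) fun j _ => ?_
  rw [norm_mul, mul_comm]
  exact mul_le_mul (h i j) (norm_le_pi_norm x j) (norm_nonneg _) eps_pos.le

lemma entry_of_near {T : Module.End ℚ_[ℓ] (Fin n → ℚ_[ℓ])} (hT : NearId ℓ T) (i j : Fin n) :
    ‖T (sb ℓ j) i - sb ℓ j i‖ ≤ eps ℓ := by
  have h1 := near_entry hT i j
  rwa [sb_apply]

lemma NearId.mul' {E : Type*} [NormedAddCommGroup E] [NormedSpace ℚ_[ℓ] E] [IsUltrametricDist E]
    {U V : Module.End ℚ_[ℓ] E} (hU : NearId ℓ U) (hV : NearId ℓ V) : NearId ℓ (U * V) := hU.mul hV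

/-- The main lemma in a slightly different form. -/
theorem log_forms' {T : Module.End ℚ_[ℓ] (Fin n → ℚ_[ℓ])} (hT : NearId ℓ T) {x : ℚ_[ℓ]}
    (hx : ‖x - 1‖ ≤ eps ℓ) :
    ∃ (Y : Module.End ℚ_[ℓ] (Fin n → ℚ_[ℓ])) (y : ℚ_[ℓ]),
      ∀ (κ : Type) [Fintype κ] [DecidableEq κ] (φ : Fm ℓ n κ) (M : ℕ),
        ((∃ N, 0 < N ∧ ∀ v, φ (fun j => (T ^ N) (v j)) = (x ^ M) ^ N * φ v) →
          ∀ v, ∑ j, φ (Function.update v j (Y (v j))) = M * y * φ v) ∧
        ((∀ v, ∑ j, φ (Function.update v j (Y (v j))) = M * y * φ v) →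
          ∀ v, φ (fun j => T (v j)) = x ^ M * φ v) := by
  have h0 : x ≠ 0 := by
    intro h
    have h1 := norm_eq_one_of_near hx
    rw [h, norm_zero] at h1
    exact zero_ne_one h1
  obtain ⟨Y, y, h⟩ := log_forms hT (near_inv hx)
  refine ⟨Y, -y, fun κ _ _ φ M => ⟨?_, ?_⟩⟩
  · rintro ⟨N, hN, h1⟩ v
    have h2 := (h κ φ M).1 ⟨N, hN, fun v => by
      rw [h1, inv_pow, inv_pow, ← mul_assoc, inv_mul_cancel₀ (pow_ne_zero _ (pow_ne_zero _ h0)),
        one_mul]⟩ v
    linear_combination h2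
  · intro h1 v
    have h2 := (h κ φ M).2 (fun v => by rw [h1]; ring) v
    rw [← h2, inv_pow, ← mul_assoc, mul_inv_cancel₀ (pow_ne_zero _ h0), one_mul]

variable {V : Type*} [AddCommGroup V] [Module ℚ_[ℓ] V] [FiniteDimensional ℚ_[ℓ] V]
  {Γ : Type*} [Group Γ] [TopologicalSpace Γ] [IsTopologicalGroup Γ] [CompactSpace Γ]

/-- The operator in coordinates. -/
def inCo (b : Basis (Fin n) ℚ_[ℓ] V) (T : Module.End ℚ_[ℓ] V) :
    Module.End ℚ_[ℓ] (Fin n → ℚ_[ℓ]) :=
  b.equivFun.toLinearMap ∘ₗ T ∘ₗ b.equivFun.symm.toLinearMap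

lemma inCo_mul (b : Basis (Fin n) ℚ_[ℓ] V) (T U : Module.End ℚ_[ℓ] V) :
    inCo b (T * U) = inCo b T * inCo b U := by
  refine LinearMap.ext fun x => ?_
  change b.equivFun (T (U (b.equivFun.symm x))) =
    b.equivFun (T (b.equivFun.symm (b.equivFun (U (b.equivFun.symm x)))))
  rw [LinearEquiv.symm_apply_apply]

lemma inCo_one (b : Basis (Fin n) ℚ_[ℓ] V) : inCo b (1 : Module.End ℚ_[ℓ] V) = 1 := by
  refine LinearMap.ext fun x => ?_
  exact LinearEquiv.apply_symm_apply b.equivFun x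

lemma inCo_pow (b : Basis (Fin n) ℚ_[ℓ] V) (T : Module.End ℚ_[ℓ] V) (k : ℕ) :
    inCo b (T ^ k) = inCo b T ^ k := by
  induction k with
  | zero => rw [pow_zero, pow_zero, inCo_one]
  | succ k ih => rw [pow_succ, pow_succ, inCo_mul, ih]

/-- The set of the elements which are close to the identity is open. -/
lemma isOpen_near (b : Basis (Fin n) ℚ_[ℓ] V) (ρ : Γ →* Module.End ℚ_[ℓ] V)
    (hρ : ∀ (v : V) (f : Dual ℚ_[ℓ] V), Continuous fun s => f (ρ s v)) :
    IsOpen {s | NearId ℓ (inCo b (ρ s))} := by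
  have h1 : {s | NearId ℓ (inCo b (ρ s))} =
      ⋂ i : Fin n, ⋂ j : Fin n, {s | ‖(inCo b (ρ s)) (sb ℓ j) i - sb ℓ j i‖ ≤ eps ℓ} := by
    ext s
    simp only [Set.mem_ofPred_eq, Set.mem_iInter]
    exact ⟨fun h i j => entry_of_near h i j, near_of_entry⟩
  rw [h1]
  refine isOpen_iInter_of_finite fun i => isOpen_iInter_of_finite fun j => ?_
  have h2 : Continuous fun s => (inCo b (ρ s)) (sb ℓ j) i - sb ℓ j i :=
    (hρ (b.equivFun.symm (sb ℓ j)) (b.coord i)).sub continuous_const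
  have h3 : IsOpen (Metric.closedBall (0 : ℚ_[ℓ]) (eps ℓ)) :=
    IsUltrametricDist.isOpen_closedBall _ eps_pos.ne'
  have h4 := h3.preimage h2
  convert! h4 using 1
  ext s
  simp

/-- **Logarithms.** -/
theorem exists_logs (ρ : Γ →* Module.End ℚ_[ℓ] V) (χ : Γ →* ℚ_[ℓ])
    (hρ : ∀ (v : V) (f : Dual ℚ_[ℓ] V), Continuous fun s => f (ρ s v)) (hχ : Continuous χ) :
    ∃ Δ : Subgroup Γ, Δ.FiniteIndex ∧ ∀ s ∈ Δ,
      ∃ (Y : Module.End ℚ_[ℓ] V) (y : ℚ_[ℓ]),
        ∀ (κ : Type) [Fintype κ] [DecidableEq κ]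
          (φ : MultilinearMap ℚ_[ℓ] (fun _ : κ => V) ℚ_[ℓ]) (M : ℕ),
        ((∃ N, 0 < N ∧ ∀ v, φ (fun j => ρ (s ^ N) (v j)) = χ (s ^ N) ^ M * φ v) →
          ∀ v, ∑ j, φ (Function.update v j (Y (v j))) = M * y * φ v) ∧
        ((∀ v, ∑ j, φ (Function.update v j (Y (v j))) = M * y * φ v) →
          ∀ v, φ (fun j => ρ s (v j)) = χ s ^ M * φ v) := by
  let b := finBasis ℚ_[ℓ] V
  let Δ : Subgroup Γ :=
    { carrier := {s | (NearId ℓ (inCo b (ρ s)) ∧ NearId ℓ (inCo b (ρ s⁻¹))) ∧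
        ‖χ s - 1‖ ≤ eps ℓ ∧ ‖χ s⁻¹ - 1‖ ≤ eps ℓ}
      one_mem' := by
        refine ⟨⟨?_, ?_⟩, ?_, ?_⟩
        · rw [map_one, inCo_one]; exact NearId.one
        · rw [inv_one, map_one, inCo_one]; exact NearId.one
        · rw [map_one, sub_self, norm_zero]; exact eps_pos.le
        · rw [inv_one, map_one, sub_self, norm_zero]; exact eps_pos.le
      mul_mem' := by
        rintro s t ⟨⟨h1, h2⟩, h3, h4⟩ ⟨⟨h5, h6⟩, h7, h8⟩
        have key : ∀ {x y : ℚ_[ℓ]}, ‖x - 1‖ ≤ eps ℓ → ‖y - 1‖ ≤ eps ℓ → ‖x * y - 1‖ ≤ eps ℓ := by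
          intro x y hx hy
          have h9 : x * y - 1 = x * (y - 1) + (x - 1) := by ring
          rw [h9]
          refine (IsUltrametricDist.norm_add_le_max _ _).trans (max_le ?_ hx)
          rw [norm_mul, norm_eq_one_of_near hx, one_mul]
          exact hy
        refine ⟨⟨?_, ?_⟩, ?_, ?_⟩
        · rw [map_mul, inCo_mul]; exact h1.mul h5
        · rw [mul_inv_rev, map_mul, inCo_mul]; exact h6.mul h2
        · rw [map_mul]; exact key h3 h7
        · rw [mul_inv_rev, map_mul]; exact key h8 h4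
      inv_mem' := by
        rintro s ⟨⟨h1, h2⟩, h3, h4⟩
        exact ⟨⟨h2, by rwa [inv_inv]⟩, h4, by rwa [inv_inv]⟩ }
  have hopen : IsOpen (Δ : Set Γ) := by
    have h1 := isOpen_near b ρ hρ
    have h3 : IsOpen {s | ‖χ s - 1‖ ≤ eps ℓ} := by
      have h4 := (IsUltrametricDist.isOpen_closedBall (0 : ℚ_[ℓ]) (eps_pos (ℓ := ℓ)).ne').preimage
        (hχ.sub (continuous_const : Continuous fun _ : Γ => (1 : ℚ_[ℓ])))
      convert! h4 using 1
      ext s
      simp
    exact (h1.inter (h1.preimage continuous_inv)).inter (h3.inter (h3.preimage continuous_inv))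
  have hfin : Δ.FiniteIndex := by
    have : Finite (Γ ⧸ Δ) := Subgroup.quotient_finite_of_isOpen Δ hopen
    exact Subgroup.finiteIndex_of_finite_quotient
  refine ⟨Δ, hfin, fun s hs => ?_⟩
  obtain ⟨⟨h1, -⟩, h2, -⟩ := hs
  obtain ⟨Y, y, h⟩ := log_forms' h1 h2
  let Y' : Module.End ℚ_[ℓ] V := b.equivFun.symm.toLinearMap ∘ₗ Y ∘ₗ b.equivFun.toLinearMap
  refine ⟨Y', y, fun κ _ _ φ M => ?_⟩
  have h3 := h κ (φ.compLinearMap fun _ => b.equivFun.symm.toLinearMap) M
  have h4 : ∀ (T : Module.End ℚ_[ℓ] V) (v : κ → Fin _ → ℚ_[ℓ]),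
      (φ.compLinearMap fun _ => b.equivFun.symm.toLinearMap) (fun j => inCo b T (v j)) =
        φ (fun j => T (b.equivFun.symm (v j))) := by
    intro T v
    rw [MultilinearMap.compLinearMap_apply]
    congr 1
    funext j
    exact LinearEquiv.symm_apply_apply _ _
  have h5 : ∀ (v : κ → V), (∑ j, (φ.compLinearMap fun _ => b.equivFun.symm.toLinearMap)
      (Function.update (fun j => b.equivFun (v j)) j (Y (b.equivFun (v j)))) =
      ∑ j, φ (Function.update v j (Y' (v j)))) := by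
    intro v
    refine Finset.sum_congr rfl fun j _ => ?_
    rw [MultilinearMap.compLinearMap_apply]
    congr 1
    funext i
    by_cases hij : i = j
    · subst hij
      rw [Function.update_self, Function.update_self]
      rfl
    · rw [Function.update_of_ne hij, Function.update_of_ne hij]
      exact LinearEquiv.symm_apply_apply _ _
  have h6 : ∀ (v : κ → V), (φ.compLinearMap fun _ => b.equivFun.symm.toLinearMap)
      (fun j => b.equivFun (v j)) = φ v := by
    intro v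
    rw [MultilinearMap.compLinearMap_apply]
    congr 1
    funext j
    exact LinearEquiv.symm_apply_apply _ _
  constructor
  · rintro ⟨N, hN, h7⟩ v
    have h8 := h3.1 ⟨N, hN, fun v => by
      rw [← inCo_pow, h4, ← map_pow, h7, map_pow, ← pow_mul, ← pow_mul, mul_comm N M]
      rfl⟩ (fun j => b.equivFun (v j))
    rw [h5, h6] at h8
    exact h8
  · intro h7 v
    have h8 := h3.2 (fun w => by
      have h9 := h7 (fun j => b.equivFun.symm (w j))
      rw [← h5, ← h6] at h9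
      simp only [LinearEquiv.apply_symm_apply] at h9
      exact h9) (fun j => b.equivFun (v j))
    rw [h4, h6] at h8
    simp only [LinearEquiv.symm_apply_apply] at h8
    exact h8

end

end Pool.Agent.Q50.FP
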