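import Pool.Agent.Q50.FP.GLog

/-!
# Endomorphisms which kill the algebraic classes are in the Lie algebra of the Tate classes
-/

open CategoryTheory AlgebraicGeometry TensorProduct

universe u w

set_option linter.unusedSectionVars false

namespace Pool.Agent.Q50.FP

open Module Pool.Agent.H204R3.SP Pool.Agent.W516.KC
open Pool.Agent.H914 Pool.Agent.H914.VarClass Pool.Agent.H914.VarClass.Obj
  Pool.Agent.H914.WeilCohomology
open Pool.Agent.Y133.Half
open Pool.Agent.Q55 (GaloisAction SubAction Virtually TateConj tatePred)
open Pool.Agent.Q60.TD (SemisimpleAt rep rep_apply exists_good)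

variable {k : Type u} [Field k] {𝒱 : VarClass k} {ops : CycleOps 𝒱}
  {W : WeilCohomology.{u, 0} ops} {X Y : 𝒱.Obj} {n : ℕ} {Γ : Type w} [Group Γ]
  {G : GaloisAction W Γ}

theorem spanCycles_map (f : X ⟶ Y) {q : ℤ} {c : W.H Y} (hc : c ∈ spanCycles W Y q) :
    W.map f c ∈ spanCycles W X q := by
  have h1 : spanCycles W Y q ≤ (spanCycles W X q).comap (W.map f).toLinearMap := by
    refine Submodule.span_le.2 ?_
    rintro _ ⟨p, hp, z, hz, rfl⟩
    refine Submodule.subset_span ⟨p, hp, ops.pull f z, ops.pull_mem f hz, ?_⟩
    exact W.cl_pull f z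
  exact h1 hc

/-- The projection and the section between powers. -/
theorem exists_retr {m n : ℕ} (h : m ≤ n) : ∃ (s : pw X m ⟶ pw X n) (p : pw X n ⟶ pw X m),
    s ≫ p = 𝟙 (pw X m) := by
  refine ⟨liftN X n fun i => prj X m ⟨min i m, by omega⟩,
    liftN X m fun i => prj X n ⟨i, by omega⟩, ?_⟩
  apply hom_ext_prj
  intro i
  rw [Category.assoc, liftN_prj, liftN_prj, Category.id_comp]
  congr 1
  ext
  change min (i : ℕ) m = i
  have := i.2
  omega

theorem tateConj_le {m n : ℕ} (h : m ≤ n) (hn : TateConj G (pw X n)) : TateConj G (pw X m) := by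
  obtain ⟨s, p, hsp⟩ := exists_retr (X := X) h
  intro j c hc
  have h1 : Pool.Agent.Q55.IsTate G (pw X n) j (W.map p c) := (tatePred G).map p hc
  have h2 := hn j _ h1
  have h3 : W.map s (W.map p c) = c := by rw [← W.map_comp, hsp, W.map_id]
  rw [← h3]
  exact spanCycles_map s h2

/-- The endomorphism `Z` kills the forms of the algebraic cycles. -/
def KillsAlg (W : WeilCohomology.{u, 0} ops) (X : 𝒱.Obj) (Z : Module.End W.K (W.H X)) : Prop :=
  ∀ (n j : ℕ) (z : (pw X n).Cycles), (pw X n).IsCyc j z → Kills Z (frm W X n (W.cl _ z))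

section abs

variable {K V : Type*} [Field K] [AddCommGroup V] [Module K V] {κ : Type*} [Fintype κ]
  [DecidableEq κ]

theorem kills_add {φ ψ : MultilinearMap K (fun _ : κ => V) K} {Z : Module.End K V}
    (h1 : Kills Z φ) (h2 : Kills Z ψ) : Kills Z (φ + ψ) := by
  intro v
  have h3 := congrArg₂ (fun x y : K => x + y) (h1 v) (h2 v)
  simp only [add_zero] at h3
  rw [← h3, ← Finset.sum_add_distrib]
  rfl

theorem kills_smul {φ : MultilinearMap K (fun _ : κ => V) K} {Z : Module.End K V} (r : K)
    (h1 : Kills Z φ) : Kills Z (r • φ) := by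
  intro v
  rw [← mul_zero r, ← h1 v, Finset.mul_sum]
  rfl

theorem kills_zero {Z : Module.End K V} :
    Kills Z (0 : MultilinearMap K (fun _ : κ => V) K) := by
  intro v
  exact Finset.sum_eq_zero fun _ _ => rfl

end abs

theorem KillsAlg.span {Z : Module.End W.K (W.H X)} (hZ : KillsAlg W X Z) {q : ℤ}
    {c : W.H (pw X n)} (hc : c ∈ spanCycles W (pw X n) q) : Kills Z (frm W X n c) := by
  unfold spanCycles at hc
  induction hc using Submodule.span_induction with
  | mem x h =>
    obtain ⟨p, _, z, hz, rfl⟩ := h
    exact hZ n p z hz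
  | zero =>
    have h1 : frm W X n 0 = 0 := map_zero (frmL W X n)
    rw [h1]
    exact kills_zero
  | add a b _ _ ha hb =>
    rw [frm_add]
    exact kills_add ha hb
  | smul r a _ ha =>
    rw [frm_smul]
    exact kills_smul r ha

/-- Under the Tate conjecture, the Tate forms in `n + 1` variables are killed. -/
theorem kills_tform (hTC : TateConj G (pw X n)) {Z : Module.End W.K (W.H X)}
    (hZ : KillsAlg W X Z) {M : ℕ} (hM : M ≤ (n + 1) * X.dim)
    {φ : MultilinearMap W.K (fun _ : Fin (n + 1) => W.H X) W.K} (hφ : TForm G X M φ) :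
    Kills Z φ := by
  obtain ⟨c, rfl⟩ := frm_surjective φ
  have h1 := tate_of_tform (j := (n + 1) * X.dim - M) (by rw [dim_pw]; omega) hφ
  exact hZ.span (hTC _ _ h1)

/-- The endomorphism attached to a class on the square. -/
theorem exists_end (c : W.H (pw X 1)) : ∃ e : Module.End W.K (W.H X),
    ∀ v, frm W X 1 c v = prg W X (e (v 0)) (v 1) := by
  have u0 : ∀ a b x : W.H X, Function.update ![a, b] 0 x = ![x, b] := by
    intro a b x
    funext i
    fin_cases i <;> rfl
  have u1 : ∀ a b x : W.H X, Function.update ![a, b] 1 x = ![a, x] := by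
    intro a b x
    funext i
    fin_cases i <;> rfl
  let B : W.H X →ₗ[W.K] W.H X →ₗ[W.K] W.K :=
    LinearMap.mk₂ W.K (fun a b => frm W X 1 c ![a, b])
      (fun a a' b => by
        have h := (frm W X 1 c).map_update_add ![a, b] 0 a a'
        rwa [u0, u0, u0] at h)
      (fun r a b => by
        have h := (frm W X 1 c).map_update_smul ![a, b] 0 r a
        rwa [u0, u0] at h)
      (fun a b b' => by
        have h := (frm W X 1 c).map_update_add ![a, b] 1 b b'
        rwa [u1, u1, u1] at h)
      (fun r a b => by
        have h := (frm W X 1 c).map_update_smul ![a, b] 1 r b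
        rwa [u1, u1] at h)
  choose f hf using fun a => exists_dual_class W X (B a)
  have huniq : ∀ a b : W.H X, (∀ x, W.tr X (a * x) = W.tr X (b * x)) → a = b := by
    intro a b h
    rw [← sub_eq_zero]
    apply W.nondeg
    intro x
    rw [sub_mul, map_sub, h, sub_self]
  refine ⟨{ toFun := f, map_add' := ?_, map_smul' := ?_ }, fun v => ?_⟩
  · intro a b
    apply huniq
    intro x
    rw [hf, add_mul, map_add, map_add, hf, hf]
    rfl
  · intro r a
    apply huniq
    intro x
    rw [hf, RingHom.id_apply, smul_mul_assoc, map_smul, map_smul, hf]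
    rfl
  · change _ = W.tr X (f (v 0) * v 1)
    rw [hf]
    change frm W X 1 c v = frm W X 1 c ![v 0, v 1]
    congr 1
    funext i
    fin_cases i <;> rfl

/-- The endomorphism is determined by the form. -/
theorem end_ext {e e' : Module.End W.K (W.H X)}
    (h : ∀ u v, prg W X (e u) v = prg W X (e' u) v) : e = e' := by
  refine LinearMap.ext fun u => ?_
  rw [← sub_eq_zero]
  apply prg_nondeg
  intro v
  rw [map_sub, LinearMap.sub_apply, h, sub_self]

/-- **The main theorem on the `ℓ`-adic side.** -/
theorem mem_galp_of (hlog : HasLogs G X) (hss : ∀ i, SemisimpleAt G X i)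
    (hTC : TateConj G (pw X 3)) {Z θ : Module.End W.K (W.H X)} (hZ : KillsAlg W X Z)
    (hθ : θ ∈ gal G X)
    (htr : ∀ z : (pw X 1).Cycles, (pw X 1).IsCyc X.dim z → ∀ e : Module.End W.K (W.H X),
      (∀ v, frm W X 1 (W.cl _ z) v = prg W X (e (v 0)) (v 1)) →
        LinearMap.trace W.K _ (Z * e) = LinearMap.trace W.K _ (θ * e)) :
    Z ∈ galp G X := by
  have hTC1 : TateConj G (pw X 1) := tateConj_le (by omega) hTC
  have hskew : IsSkew (prg W X) Z :=
    (kills_two _ _).1 (kills_tform hTC1 hZ (by nlinarith) (tform_prg (G := G)))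
  refine core (galp G X) (galp_semi hss) galp_br (prg W X) prg_nondeg hskew ?_ ?_
    (gal_le hθ) ?_
  · -- the Casimir form
    let e : Fin 2 × Fin 2 ≃ Fin 4 := finProdFinEquiv
    have h1 := tform_reindex e (tform_cas hlog hss)
    have h2 := kills_tform (n := 3) hTC hZ (by nlinarith) h1
    exact (kills_reindex e).1 h2
  · -- the commutant
    intro P hP
    have h1 := kills_tform hTC1 hZ (by nlinarith) (tform_of_comm hlog hP)
    rw [kills_two] at h1
    refine end_ext fun u v => ?_
    have h2 := h1 u v
    have h3 := hskew (P u) v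
    rw [LinearMap.comp_apply, LinearMap.comp_apply] at h2
    rw [Module.End.mul_apply, Module.End.mul_apply]
    linear_combination h3 - h2
  · -- the traces
    intro e he
    have h1 := tform_of_comm hlog he.1
    obtain ⟨c, hc⟩ := frm_surjective (two ((prg W X).comp e))
    rw [← hc] at h1
    have h2 := tate_of_tform (j := X.dim) (by rw [dim_pw]; ring) h1
    have h3 := hTC1 _ _ h2
    -- the property for all combinations of cycles
    have key : ∀ c ∈ spanCycles W (pw X 1) (X.dim : ℕ), ∀ e : Module.End W.K (W.H X),
        (∀ v, frm W X 1 c v = prg W X (e (v 0)) (v 1)) →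
        LinearMap.trace W.K _ (Z * e) = LinearMap.trace W.K _ (θ * e) := by
      intro c hc
      unfold spanCycles at hc
      induction hc using Submodule.span_induction with
      | mem x h =>
        obtain ⟨p, hp, z, hz, rfl⟩ := h
        obtain rfl : p = X.dim := by exact_mod_cast hp
        exact htr z hz
      | zero =>
        intro e he
        have h4 : e = 0 := end_ext fun u v => by
          have h5 := he ![u, v]
          have h6 : frm W X 1 0 = 0 := map_zero (frmL W X 1)
          rw [h6] at h5
          change (0 : W.K) = prg W X (e u) v at h5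
          rw [← h5, LinearMap.zero_apply, map_zero, LinearMap.zero_apply]
        rw [h4, mul_zero, mul_zero]
      | add a b _ _ ha hb =>
        intro e he
        obtain ⟨ea, hea⟩ := exists_end a
        obtain ⟨eb, heb⟩ := exists_end b
        have h4 : e = ea + eb := end_ext fun u v => by
          have h5 := he ![u, v]
          rw [frm_add] at h5
          have h6 := hea ![u, v]
          have h7 := heb ![u, v]
          change frm W X 1 a ![u, v] + frm W X 1 b ![u, v] = prg W X (e u) v at h5
          change frm W X 1 a ![u, v] = prg W X (ea u) v at h6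
          change frm W X 1 b ![u, v] = prg W X (eb u) v at h7
          rw [← h5, h6, h7, LinearMap.add_apply, map_add, LinearMap.add_apply]
        rw [h4, mul_add, mul_add, map_add, map_add, ha ea hea, hb eb heb]
      | smul r a _ ha =>
        intro e he
        obtain ⟨ea, hea⟩ := exists_end a
        have h4 : e = r • ea := end_ext fun u v => by
          have h5 := he ![u, v]
          rw [frm_smul] at h5
          have h6 := hea ![u, v]
          change r • frm W X 1 a ![u, v] = prg W X (e u) v at h5
          change frm W X 1 a ![u, v] = prg W X (ea u) v at h6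
          rw [← h5, h6, LinearMap.smul_apply, map_smul, LinearMap.smul_apply]
        rw [h4, mul_smul_comm, mul_smul_comm, map_smul, map_smul, ha ea hea]
    refine key c h3 e fun v => ?_
    rw [hc]
    rfl

/-- An element of the extended Lie algebra which kills the orientation is in the Lie algebra. -/
theorem gal_of_galp {Z : Module.End W.K (W.H X)} (hZ : Z ∈ galp G X)
    (h0 : ∀ x, W.tr X (Z x) = 0) : Z ∈ gal G X := by
  obtain ⟨A, hA, r, rfl⟩ := mem_galp.1 hZ
  have hT : TForm G X X.dim (frm W X 0 1) := by
    refine tform_of_tate (n := 0) (j := 0) (by rw [dim_pw]; ring) ?_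
    have h1 := (tatePred G).cl (X := pw X 0) (j := 0) (z := (pw X 0).V.fundCycle)
      (SmVar.fundCycle_mem _)
    rw [W.cl_fund] at h1
    exact h1
  have h1 : ∀ x, W.tr X (A x) = 0 := by
    intro x
    have h2 := gal_kills hT hA (fun _ => x)
    rw [Fin.sum_univ_one] at h2
    have h3 : ∀ v : Fin 1 → W.H X, frm W X 0 1 v = W.tr X (v 0) := by
      intro v
      rw [frm_apply, one_mul, mpr_apply, List.ofFn_succ, List.ofFn_zero, List.prod_singleton]
      exact congrArg _ (W.map_id X (v 0))
    rw [h3, Function.update_self] at h2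
    exact h2
  have h2 : ∀ x, r * X.dim * W.tr X x = 0 := by
    intro x
    have h3 := h0 x
    rw [LinearMap.add_apply, map_add, h1, zero_add, LinearMap.smul_apply, map_smul, dn,
      LinearMap.sub_apply, map_sub, dg_drv.tr, LinearMap.smul_apply, map_smul,
      Module.End.one_apply, smul_eq_mul, smul_eq_mul] at h3
    linear_combination h3
  by_cases hr : r = 0
  · rw [hr, zero_smul, add_zero]
    exact hA
  · have h3 : dn W X = 0 := by
      by_cases hd : X.dim = 0
      · refine LinearMap.ext fun x => ?_
        refine dg_ind (p := fun x => dn W X x = (0 : Module.End W.K (W.H X)) x) ?_ ?_ x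
        · intro i x hx
          by_cases hi : i = 0
          · subst hi
            rw [dn, LinearMap.sub_apply, dg_of hx, hd, LinearMap.smul_apply, Nat.cast_zero,
              zero_smul, zero_smul, sub_self]
            rfl
          · rw [W.gr_eq_bot X i (by omega), Submodule.mem_bot] at hx
            rw [hx, map_zero, map_zero]
        · intro a b ha hb
          rw [map_add, ha, hb, map_add]
      · -- the cohomology is zero
        have h4 : ∀ x, W.tr X x = 0 := by
          intro x
          have h5 := h2 x
          have h6 : r * (X.dim : W.K) ≠ 0 := mul_ne_zero hr (Nat.cast_ne_zero.2 hd)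
          exact (mul_eq_zero.1 h5).resolve_left h6
        refine LinearMap.ext fun x => ?_
        have h5 : ∀ x : W.H X, x = 0 := fun x => W.nondeg x fun b => h4 _
        rw [h5 x, map_zero, map_zero]
    rw [h3, smul_zero, add_zero]
    exact hA

end Pool.Agent.Q50.FP
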