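import Mathlib
import Pool.Agent.W516.MT.Defs
import Pool.Agent.H204R3.GP.Defs

/-!
# The Casimir class on the fourth power of an abelian variety: definitions

`W` is the rational homology `H_1(A, ℚ)` of an abelian variety `A` over a subfield of the complex
numbers, `T` its tangent space at the origin, `V = k ⊗ W` with `k = ℚ_ℓ` is the rational Tate module,
`ρ` the action of the Galois group on it and `χ` the cyclotomic character.
-/

namespace Pool.Agent.Q50.FP

open Module TensorProduct Pool.Agent.H204R3.GP Pool.Agent.W516.MTD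

section Tate

variable {k V Γ : Type} [Field k] [AddCommGroup V] [Module k V] [Group Γ]

/-- The endomorphism `X` of `V` is in the `ℓ`-adic Lie algebra `𝔤` of `A`: it annihilates (as a
derivation) all Tate classes in all the spaces `(H^1)^{⊗ 2 m}(m)`. -/
def InTateLie (ρ : Representation k Γ V) (χ : Γ →* k) (X : Module.End k V) : Prop :=
  ∀ (m : ℕ) (φ : MultilinearMap k (fun _ : Fin m × Fin 2 => V) k), IsTateTensor ρ χ m φ →
    ∀ v : Fin m × Fin 2 → V, ∑ j, φ (Function.update v j (X (v j))) = 0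

/-- The derived algebra `[𝔤, 𝔤]`. -/
def derived (ρ : Representation k Γ V) (χ : Γ →* k) : Submodule k (Module.End k V) :=
  Submodule.span k {Z | ∃ X Y, InTateLie ρ χ X ∧ InTateLie ρ χ Y ∧ Z = X * Y - Y * X}

/-- `Θ` is the Casimir class of `[𝔤, 𝔤]`, a form in four variables: `Θ(u, v, w, x) = ω (E w, x)`, where
`E = E(u, v)` is the element of `[𝔤, 𝔤]` with `tr (E X) = ω (X u, v)` for all `X` in `[𝔤, 𝔤]`. -/
def IsCasimir (ρ : Representation k Γ V) (χ : Γ →* k) (ω : V →ₗ[k] V →ₗ[k] k)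
    (Θ : MultilinearMap k (fun _ : Fin 2 × Fin 2 => V) k) : Prop :=
  ∀ v : Fin 2 × Fin 2 → V, ∃ E ∈ derived ρ χ,
    (∀ X ∈ derived ρ χ, LinearMap.trace k V (E * X) = ω (X (v (0, 0))) (v (0, 1))) ∧
    Θ v = ω (E (v (1, 0))) (v (1, 1))

end Tate

section Alg

variable {k : Type} [Field k] [CharZero k] {W T : Type} [AddCommGroup W] [Module ℚ W]
  [AddCommGroup T] [Module ℂ T]

/-- Sets of rational classes in the spaces `(H^1)^{⊗ 2 m}(m)`. -/
abbrev Classes (W : Type) [AddCommGroup W] [Module ℚ W] : Type :=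
  ∀ m : ℕ, MultilinearMap ℚ (fun _ : Fin m × Fin 2 => W) ℚ → Prop

/-- The form `φ` is a linear combination with coefficients in `k` of classes in the set `S`. -/
def IsCombination (S : Classes W) {m : ℕ}
    (φ : MultilinearMap k (fun _ : Fin m × Fin 2 => k ⊗[ℚ] W) k) : Prop :=
  φ ∈ Submodule.span k {φ' : MultilinearMap k (fun _ : Fin m × Fin 2 => k ⊗[ℚ] W) k |
    ∃ ψ : MultilinearMap ℚ (fun _ : Fin m × Fin 2 => W) ℚ, S m ψ ∧
      ∀ v : Fin m × Fin 2 → W, φ' (fun l => (1 : k) ⊗ₜ[ℚ] v l) = ((ψ v : ℚ) : k)}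

/-- The Hodge conjecture for the classes in `(H^1)^{⊗ 2 m}(m)`, if `S` is the set of the classes of
algebraic cycles: every Hodge class is a linear combination with rational coefficients of classes
in `S`. -/
def HodgeFor (S : Classes W) (per : W →+ T) (m : ℕ) : Prop :=
  ∀ ψ : MultilinearMap ℚ (fun _ : Fin m × Fin 2 => W) ℚ, IsHodgeTensor per ψ →
    ψ ∈ Submodule.span ℚ {ψ' | S m ψ'}

/-- The Tate conjecture for the classes in `(H^1)^{⊗ 2 m}(m)`, if `S` is the set of the classes of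
algebraic cycles: every Tate class is a linear combination with coefficients in `k` of classes
in `S`. -/
def TateFor (S : Classes W) {Γ : Type} [Group Γ] (ρ : Representation k Γ (k ⊗[ℚ] W)) (χ : Γ →* k)
    (m : ℕ) : Prop :=
  ∀ φ : MultilinearMap k (fun _ : Fin m × Fin 2 => k ⊗[ℚ] W) k, IsTateTensor ρ χ m φ →
    IsCombination S φ

end Alg

/-- The properties of the realisations of an abelian variety `A` over a finitely generated field of
characteristic zero, embedded in the complex numbers, which are used: `W = H_1(A, ℚ)` is a lattice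
(with rational coefficients) in the tangent space `T`, with the Riemann form `ω₀` of a polarization;
`Γ` is the Galois group, acting continuously on the rational Tate module `ℚ_ℓ ⊗ W`, and preserving
the Weil pairing `ω` up to the cyclotomic character `χ`; and the following theorems are true:
semisimplicity and the theorem on endomorphisms of Faltings, the theorem of Deligne (Hodge classes
are Tate classes) and the theorem on centres (Vasiu, Ullmo-Yafaev). -/
structure IsAbelian {ℓ : ℕ} [Fact ℓ.Prime] {W T Γ : Type} [AddCommGroup W] [Module ℚ W]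
    [AddCommGroup T] [Module ℂ T] [Group Γ] [TopologicalSpace Γ] (per : W →+ T)
    (ω₀ : W →ₗ[ℚ] W →ₗ[ℚ] ℚ) (ρ : Representation ℚ_[ℓ] Γ (ℚ_[ℓ] ⊗[ℚ] W)) (χ : Γ →* ℚ_[ℓ])
    (ω : ℚ_[ℓ] ⊗[ℚ] W →ₗ[ℚ_[ℓ]] ℚ_[ℓ] ⊗[ℚ] W →ₗ[ℚ_[ℓ]] ℚ_[ℓ]) : Prop where
  rational : IsRationalStructure per
  riemann : IsRiemannForm per ω₀
  compares : ∀ u v : W, ω ((1 : ℚ_[ℓ]) ⊗ₜ[ℚ] u) ((1 : ℚ_[ℓ]) ⊗ₜ[ℚ] v) = ((ω₀ u v : ℚ) : ℚ_[ℓ])
  weil : ∀ s u v, ω (ρ s u) (ρ s v) = χ s * ω u v
  continuous : ∀ (v : ℚ_[ℓ] ⊗[ℚ] W) (f : Dual ℚ_[ℓ] (ℚ_[ℓ] ⊗[ℚ] W)),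
    Continuous fun s => f (ρ s v)
  continuous_char : Continuous χ
  semisimple : FiniteIndexSemisimple ρ
  faltings : Faltings per ρ
  deligne : Deligne per ρ χ
  centres : Centres per ρ χ

end Pool.Agent.Q50.FP
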