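import Pool.Agent.Q50.FP.Ab
import Pool.Agent.Q50.FP.ADefs

/-!
# Tate classes in four variables decide: the main theorem for abelian varieties
-/

set_option linter.unusedSectionVars false

namespace Pool.Agent.Q50.FP

open Module TensorProduct Filter Topology Pool.Agent.H204R3.SP Pool.Agent.H204R3.GP
  Pool.Agent.W516.KC Pool.Agent.W516.DR Pool.Agent.W516.FT Pool.Agent.W516.MTD
  Pool.Agent.W516.MTM

noncomputable section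

theorem derived_eq {k V Γ : Type} [Field k] [AddCommGroup V] [Module k V] [CharZero k]
    [FiniteDimensional k V] [Group Γ]
    (ρ : Representation k Γ V) (χ : Γ →* k) : derived ρ χ = der (lieT ρ χ) := by
  unfold derived der
  congr 1
  ext Z
  constructor
  · rintro ⟨X, Y, hX, hY, rfl⟩
    exact ⟨X, hX, Y, hY, rfl⟩
  · rintro ⟨X, hX, Y, hY, rfl⟩
    exact ⟨X, Y, hX, hY, rfl⟩

variable {ℓ : ℕ} [hℓ : Fact ℓ.Prime] {W T : Type} [AddCommGroup W] [Module ℚ W]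
  [FiniteDimensional ℚ W] [AddCommGroup T] [Module ℂ T] (per : W →+ T)
  {Γ : Type} [Group Γ] [TopologicalSpace Γ] [IsTopologicalGroup Γ] [CompactSpace Γ]
  (ρ : Representation ℚ_[ℓ] Γ (ℚ_[ℓ] ⊗[ℚ] W)) (χ : Γ →* ℚ_[ℓ])
  (hρ : ∀ (v : ℚ_[ℓ] ⊗[ℚ] W) (f : Dual ℚ_[ℓ] (ℚ_[ℓ] ⊗[ℚ] W)), Continuous fun s => f (ρ s v))
  (hχ : Continuous χ)
  (ω₀ : W →ₗ[ℚ] W →ₗ[ℚ] ℚ) (ω : ℚ_[ℓ] ⊗[ℚ] W →ₗ[ℚ_[ℓ]] ℚ_[ℓ] ⊗[ℚ] W →ₗ[ℚ_[ℓ]] ℚ_[ℓ])
  (hH : IsHodgeBilinear per ω₀) (hnd₀ : ∀ u, (∀ v, ω₀ u v = 0) → u = 0)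
  (hωω : ∀ u v : W, ω ((1 : ℚ_[ℓ]) ⊗ₜ[ℚ] u) ((1 : ℚ_[ℓ]) ⊗ₜ[ℚ] v) = algebraMap ℚ ℚ_[ℓ] (ω₀ u v))
  (hωρ : ∀ s u v, ω (ρ s u) (ρ s v) = χ s * ω u v)
  (hper : Pool.Agent.W516.MTD.IsRationalStructure per) (hss : FiniteIndexSemisimple ρ) (hF : Faltings per ρ)
  (hD : Deligne per ρ χ) (hC : Centres per ρ χ)

include hH hnd₀ hωω hωρ hss hF hD hC hρ hχ in
/-- The endomorphisms which kill the Hodge classes are in the Lie algebra, if the Casimir form is a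
combination of Hodge classes. -/
theorem mem_lieT_of_casimir (hsemi : Semi (lieT ρ χ))
    (hΘ : Pool.Agent.W516.MTD.IsHodgeCombination per (cas (lieT ρ χ) hsemi (lieT_br ρ χ) ω))
    {Z₀ : Module.End ℚ W} (hk : ∀ (m' : ℕ)
      (ψ : MultilinearMap ℚ (fun _ : Fin m' × Fin 2 => W) ℚ), IsHodgeTensor per ψ → Kills Z₀ ψ) :
    Z₀.baseChange ℚ_[ℓ] ∈ lieT ρ χ := by
  have hnd := nondeg_ext ω₀ ω hωω hnd₀
  have hZs : IsSkew ω (Z₀.baseChange ℚ_[ℓ]) :=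
    skew_ext ω₀ ω hωω ((kills_one2 ω₀ Z₀).1 (hk 1 _ (one2_hodge per ω₀ hH)))
  have hZk : Kills (Z₀.baseChange ℚ_[ℓ]) (cas (lieT ρ χ) hsemi (lieT_br ρ χ) ω) :=
    kills_span (fun ψ => IsHodgeTensor per ψ) Z₀ (hk 2) _ ((hc_iff per _).1 hΘ)
  have hcomm : ∀ P : Module.End ℚ_[ℓ] (ℚ_[ℓ] ⊗[ℚ] W), (∀ X ∈ lieT ρ χ, X * P = P * X) →
      P ∈ endos ℚ_[ℓ] per := fun P hP => hF P (almost_of_comm ρ χ hρ hχ ω hωρ hnd hP)
  have hcc : CommComm (lieT ρ χ) (Z₀.baseChange ℚ_[ℓ]) := fun P hP =>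
    comm_endos' per ω₀ hH hnd₀ Z₀ hk (hcomm P hP)
  obtain ⟨s, hs, hcen⟩ := decomp (lieT ρ χ) hsemi (lieT_br ρ χ) ω hnd hZs hZk hcc
  have hs' : s ∈ lieT ρ χ := der_sub _ (lieT_br ρ χ) hs
  have h1 : Z₀.baseChange ℚ_[ℓ] - s ∈ lieT ρ χ := by
    refine hC _ (hcomm _ hcen.1) (fun P hP => hcen.2 P fun X hX => ?_) (fun m φ hφ => ?_)
    · exact comm_of_almost ρ χ ω hωρ hnd
        (almost_of_endos per ρ χ ω₀ ω hH hnd₀ hωω hωρ hD hP) hX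
    · have h2 := kills_span (fun ψ => IsHodgeTensor per ψ) Z₀ (hk m) φ ((hc_iff per φ).1 hφ)
      have h3 := lieT_hc per ρ χ hD hs' φ hφ
      intro v
      have h4 : ∀ j, φ (Function.update v j ((Z₀.baseChange ℚ_[ℓ] - s) (v j))) =
          φ (Function.update v j (Z₀.baseChange ℚ_[ℓ] (v j))) -
            φ (Function.update v j (s (v j))) := by
        intro j
        rw [LinearMap.sub_apply, MultilinearMap.map_update_sub]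
      rw [Finset.sum_congr rfl (fun j _ => h4 j), Finset.sum_sub_distrib, h2 v, h3 v, sub_zero]
  have h2 : Z₀.baseChange ℚ_[ℓ] = (Z₀.baseChange ℚ_[ℓ] - s) + s := by abel
  rw [h2]
  exact Submodule.add_mem _ h1 hs'

include hH hnd₀ hωω hωρ hss hF hD hC hρ hχ hper in
/-- **The Casimir form decides.** -/
theorem exists_casimir :
    ∃ Θ : MultilinearMap ℚ_[ℓ] (fun _ : Fin 2 × Fin 2 => ℚ_[ℓ] ⊗[ℚ] W) ℚ_[ℓ],
      IsCasimir ρ χ ω Θ ∧ IsTateTensor ρ χ 2 Θ ∧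
      (Pool.Agent.W516.MTD.IsHodgeCombination per Θ → ∀ (m : ℕ)
        (φ : MultilinearMap ℚ_[ℓ] (fun _ : Fin m × Fin 2 => ℚ_[ℓ] ⊗[ℚ] W) ℚ_[ℓ]),
        IsTateTensor ρ χ m φ → Pool.Agent.W516.MTD.IsHodgeCombination per φ) := by
  have hnd := nondeg_ext ω₀ ω hωω hnd₀
  have hsemi := semi_lieT ρ χ ω hωρ hnd hss
  refine ⟨cas (lieT ρ χ) hsemi (lieT_br ρ χ) ω, fun v => ?_, cas_tate ρ χ ω hωρ hsemi,
    fun hΘ m φ hφ => ?_⟩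
  · rw [derived_eq]
    refine ⟨Pool.Agent.W516.KC2.EE (der (lieT ρ χ)) (der_nondeg _ hsemi (lieT_br ρ χ)) ω
      (v (0, 0)) (v (0, 1)), Pool.Agent.W516.KC2.EE_mem .., fun X hX =>
      Pool.Agent.W516.KC2.EE_trace _ _ _ _ _ hX, ?_⟩
    exact Pool.Agent.W516.KC2.casimir_apply ..
  · rw [hc_iff]
    refine form_mem_span (fun ψ => IsHodgeTensor per ψ) φ fun lam => ?_
    refine hodge_of_kills per hper _ fun Z₀ hk => ?_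
    exact kills_fcmp lam φ Z₀ (mem_lieT_of_casimir per ρ χ hρ hχ ω₀ ω hH hnd₀ hωω hωρ hss hF hD hC
      hsemi hΘ hk m φ hφ)

end

end Pool.Agent.Q50.FP
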