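import Pool.Agent.Q50.FP.Ab2

/-!
# The Hodge conjecture and the Tate conjecture
-/

set_option linter.unusedSectionVars false

namespace Pool.Agent.Q50.FP

open Module TensorProduct Filter Topology Pool.Agent.H204R3.SP Pool.Agent.H204R3.GP
  Pool.Agent.W516.KC Pool.Agent.W516.DR Pool.Agent.W516.FT Pool.Agent.W516.MTD
  Pool.Agent.W516.MTM

noncomputable section

variable {k : Type} [Field k] [CharZero k] {W T : Type} [AddCommGroup W] [Module ℚ W]
  [FiniteDimensional ℚ W] [AddCommGroup T] [Module ℂ T] (S : Classes W)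

/-- Two forms with the same values on the rational vectors agree. -/
theorem form_ext {κ : Type} [Fintype κ] [DecidableEq κ]
    {φ φ' : MultilinearMap k (fun _ : κ => k ⊗[ℚ] W) k}
    (h : ∀ v : κ → W, φ (fun l => (1 : k) ⊗ₜ[ℚ] v l) = φ' (fun l => (1 : k) ⊗ₜ[ℚ] v l)) :
    φ = φ' := by
  refine Basis.ext_multilinear (fun _ => (finBasis ℚ W).baseChange k) fun I => ?_
  have h1 := h fun l => finBasis ℚ W (I l)
  simp only [Basis.baseChange_apply]
  exact h1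

/-- The extension of a rational combination is a combination. -/
theorem comb_of_span {m : ℕ} {ψ : MultilinearMap ℚ (fun _ : Fin m × Fin 2 => W) ℚ}
    (h : ψ ∈ Submodule.span ℚ {ψ' | S m ψ'}) :
    IsCombination S (bcm (Ω := k) (finBasis ℚ W) ψ) := by
  have hb : ∀ (ψ : MultilinearMap ℚ (fun _ : Fin m × Fin 2 => W) ℚ) (v : Fin m × Fin 2 → W),
      bcm (Ω := k) (finBasis ℚ W) ψ (fun l => (1 : k) ⊗ₜ[ℚ] v l) = ((ψ v : ℚ) : k) := by
    intro ψ v
    rw [bcm_one, eq_ratCast]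
  induction h using Submodule.span_induction with
  | mem ψ h => exact Submodule.subset_span ⟨ψ, h, hb ψ⟩
  | zero =>
    have h1 : bcm (Ω := k) (finBasis ℚ W) (0 : MultilinearMap ℚ (fun _ : Fin m × Fin 2 => W) ℚ) =
        0 := form_ext fun v => by
      rw [hb, zero_apply, zero_apply, Rat.cast_zero]
    rw [h1]
    exact Submodule.zero_mem _
  | add a b _ _ ha hb' =>
    have h1 : bcm (Ω := k) (finBasis ℚ W) (a + b) = bcm (Ω := k) (finBasis ℚ W) a +
        bcm (Ω := k) (finBasis ℚ W) b := form_ext fun v => by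
      rw [hb, add_apply, add_apply, hb, hb, Rat.cast_add]
    rw [h1]
    exact Submodule.add_mem _ ha hb'
  | smul c a _ ha =>
    have h1 : bcm (Ω := k) (finBasis ℚ W) (c • a) = (c : k) • bcm (Ω := k) (finBasis ℚ W) a :=
      form_ext fun v => by
        rw [hb, smul_apply, smul_apply, hb, smul_eq_mul,
          smul_eq_mul, Rat.cast_mul]
    rw [h1]
    exact Submodule.smul_mem _ _ ha

/-- The components of a combination are rational combinations. -/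
theorem span_of_comb {m : ℕ} {φ : MultilinearMap k (fun _ : Fin m × Fin 2 => k ⊗[ℚ] W) k}
    (h : IsCombination S φ) (lam : k →ₗ[ℚ] ℚ) : fcmp lam φ ∈ Submodule.span ℚ {ψ' | S m ψ'} := by
  unfold IsCombination at h
  have key : ∀ lam : k →ₗ[ℚ] ℚ, fcmp lam φ ∈ Submodule.span ℚ {ψ' | S m ψ'} := by
    induction h using Submodule.span_induction with
    | mem φ h =>
      obtain ⟨ψ, h1, h2⟩ := h
      intro lam
      have h3 : fcmp lam φ = lam 1 • ψ := by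
        ext v
        rw [fcmp_apply, h2, smul_apply, smul_eq_mul]
        have h4 : ((ψ v : ℚ) : k) = (ψ v) • (1 : k) := by
          rw [Algebra.smul_def, mul_one, eq_ratCast]
        rw [h4, map_smul, smul_eq_mul, mul_comm]
      rw [h3]
      exact Submodule.smul_mem _ _ (Submodule.subset_span h1)
    | zero =>
      intro lam
      have h3 : fcmp lam (0 : MultilinearMap k (fun _ : Fin m × Fin 2 => k ⊗[ℚ] W) k) = 0 := by
        ext v
        rw [fcmp_apply, zero_apply, map_zero, zero_apply]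
      rw [h3]
      exact Submodule.zero_mem _
    | add a b _ _ ha hb =>
      intro lam
      have h3 : fcmp lam (a + b) = fcmp lam a + fcmp lam b := by
        ext v
        rw [fcmp_apply, add_apply, map_add, add_apply, fcmp_apply,
          fcmp_apply]
      rw [h3]
      exact Submodule.add_mem _ (ha lam) (hb lam)
    | smul c a _ ha =>
      intro lam
      have h3 : fcmp lam (c • a) = fcmp (lam ∘ₗ (LinearMap.mulLeft ℚ c)) a := by
        ext v
        rw [fcmp_apply, fcmp_apply, smul_apply]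
        rfl
      rw [h3]
      exact ha _
  exact key lam

/-- The Tate conjecture implies the Hodge conjecture. -/
theorem hodge_of_tate (per : W →+ T) {Γ : Type} [Group Γ] (ρ : Representation k Γ (k ⊗[ℚ] W))
    (χ : Γ →* k) (hD : Deligne per ρ χ) {m : ℕ} (h : TateFor S ρ χ m) : HodgeFor S per m := by
  intro ψ hψ
  obtain ⟨lam, hlam⟩ := Module.Projective.exists_dual_eq_one ℚ (one_ne_zero : (1 : k) ≠ 0)
  have hb : ∀ (v : Fin m × Fin 2 → W),
      bcm (Ω := k) (finBasis ℚ W) ψ (fun l => (1 : k) ⊗ₜ[ℚ] v l) = ((ψ v : ℚ) : k) := by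
    intro v
    rw [bcm_one, eq_ratCast]
  have h1 := h _ (hD m ψ hψ _ hb)
  have h2 := span_of_comb S h1 lam
  have h3 : fcmp lam (bcm (Ω := k) (finBasis ℚ W) ψ) = ψ := by
    ext v
    rw [fcmp_apply, hb]
    have h4 : ((ψ v : ℚ) : k) = (ψ v) • (1 : k) := by
      rw [Algebra.smul_def, mul_one, eq_ratCast]
    rw [h4, map_smul, hlam, smul_eq_mul, mul_one]
  rwa [h3] at h2

/-- The Hodge conjecture implies the Tate conjecture if Tate classes are combinations of Hodge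
classes. -/
theorem tate_of_hodge (per : W →+ T) {Γ : Type} [Group Γ] (ρ : Representation k Γ (k ⊗[ℚ] W))
    (χ : Γ →* k) {m : ℕ}
    (hMT : ∀ φ : MultilinearMap k (fun _ : Fin m × Fin 2 => k ⊗[ℚ] W) k,
      IsTateTensor ρ χ m φ → Pool.Agent.W516.MTD.IsHodgeCombination per φ) (h : HodgeFor S per m) :
    TateFor S ρ χ m := by
  intro φ hφ
  have h1 := hMT φ hφ
  unfold Pool.Agent.W516.MTD.IsHodgeCombination at h1
  refine Submodule.span_le.2 ?_ h1
  rintro φ' ⟨ψ, hψ, hφ'⟩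
  have h2 : φ' = bcm (Ω := k) (finBasis ℚ W) ψ := form_ext fun v => by
    rw [hφ', bcm_one, eq_ratCast]
  change φ' ∈ Submodule.span k {φ' : MultilinearMap k (fun _ : Fin m × Fin 2 => k ⊗[ℚ] W) k |
    ∃ ψ : MultilinearMap ℚ (fun _ : Fin m × Fin 2 => W) ℚ, S m ψ ∧
      ∀ v : Fin m × Fin 2 → W, φ' (fun l => (1 : k) ⊗ₜ[ℚ] v l) = ((ψ v : ℚ) : k)}
  rw [h2]
  exact comb_of_span S (h ψ hψ)

/-- Combinations of algebraic classes are combinations of Hodge classes. -/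
theorem hodge_comb (per : W →+ T) (hS : ∀ m ψ, S m ψ → IsHodgeTensor per ψ) {m : ℕ}
    {φ : MultilinearMap k (fun _ : Fin m × Fin 2 => k ⊗[ℚ] W) k} (h : IsCombination S φ) :
    Pool.Agent.W516.MTD.IsHodgeCombination per φ := by
  refine Submodule.span_mono ?_ h
  rintro φ' ⟨ψ, hψ, hφ'⟩
  exact ⟨ψ, hS m ψ hψ, hφ'⟩

section Final

variable {ℓ : ℕ} [hℓ : Fact ℓ.Prime] (per : W →+ T)
  {Γ : Type} [Group Γ] [TopologicalSpace Γ] [IsTopologicalGroup Γ] [CompactSpace Γ]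
  (ρ : Representation ℚ_[ℓ] Γ (ℚ_[ℓ] ⊗[ℚ] W)) (χ : Γ →* ℚ_[ℓ])
  (hρ : ∀ (v : ℚ_[ℓ] ⊗[ℚ] W) (f : Dual ℚ_[ℓ] (ℚ_[ℓ] ⊗[ℚ] W)), Continuous fun s => f (ρ s v))
  (hχ : Continuous χ)
  (ω₀ : W →ₗ[ℚ] W →ₗ[ℚ] ℚ) (ω : ℚ_[ℓ] ⊗[ℚ] W →ₗ[ℚ_[ℓ]] ℚ_[ℓ] ⊗[ℚ] W →ₗ[ℚ_[ℓ]] ℚ_[ℓ])
  (hH : IsHodgeBilinear per ω₀) (hnd₀ : ∀ u, (∀ v, ω₀ u v = 0) → u = 0)
  (hωω : ∀ u v : W, ω ((1 : ℚ_[ℓ]) ⊗ₜ[ℚ] u) ((1 : ℚ_[ℓ]) ⊗ₜ[ℚ] v) = ((ω₀ u v : ℚ) : ℚ_[ℓ]))
  (hωρ : ∀ s u v, ω (ρ s u) (ρ s v) = χ s * ω u v)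
  (hper : Pool.Agent.W516.MTD.IsRationalStructure per) (hss : FiniteIndexSemisimple ρ)
  (hF : Faltings per ρ) (hD : Deligne per ρ χ) (hC : Centres per ρ χ)

include hH hnd₀ hωω hωρ hss hF hD hC hρ hχ hper in
/-- **The main theorem for abelian varieties.** -/
theorem ab_main :
    ∃ Θ : MultilinearMap ℚ_[ℓ] (fun _ : Fin 2 × Fin 2 => ℚ_[ℓ] ⊗[ℚ] W) ℚ_[ℓ],
      IsCasimir ρ χ ω Θ ∧ IsTateTensor ρ χ 2 Θ ∧
      (Pool.Agent.W516.MTD.IsHodgeCombination per Θ → ∀ (m : ℕ)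
        (φ : MultilinearMap ℚ_[ℓ] (fun _ : Fin m × Fin 2 => ℚ_[ℓ] ⊗[ℚ] W) ℚ_[ℓ]),
        IsTateTensor ρ χ m φ → Pool.Agent.W516.MTD.IsHodgeCombination per φ) ∧
      ∀ S : Classes W, (∀ m ψ, S m ψ → IsHodgeTensor per ψ) → IsCombination S Θ →
        ∀ m, TateFor S ρ χ m ↔ HodgeFor S per m := by
  obtain ⟨Θ, h1, h2, h3⟩ := exists_casimir per ρ χ hρ hχ ω₀ ω hH hnd₀
    (fun u v => by rw [hωω, eq_ratCast]) hωρ hper hss hF hD hC
  refine ⟨Θ, h1, h2, h3, fun S hS hΘ m => ⟨hodge_of_tate S per ρ χ hD, ?_⟩⟩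
  exact tate_of_hodge S per ρ χ (h3 (hodge_comb S per hS hΘ) m)

end Final

end

end Pool.Agent.Q50.FP
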