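import Pool.Agent.Q50.FP.Base
import Pool.Agent.Q50.BL.Hop

/-!
# The Hodge operator, its components, and its transport by a comparison isomorphism
-/

open CategoryTheory AlgebraicGeometry TensorProduct

universe u

set_option linter.unusedSectionVars false

namespace Pool.Agent.Q50.FP

open Module Pool.Agent.H204R3.SP Pool.Agent.W516.DR
open Pool.Agent.H914 Pool.Agent.H914.VarClass Pool.Agent.H914.VarClass.Obj
  Pool.Agent.H914.WeilCohomology
open Pool.Agent.Y133.Half Pool.Agent.Y121.AH Pool.Agent.Q50.BL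

variable {k : Type u} [Field k] {𝒱 : VarClass k} {ops : CycleOps 𝒱}
  {T : HodgeTheory ops} {X Y : 𝒱.Obj} {n : ℕ}

/-- The Hodge operator on the cohomology with complex coefficients. -/
noncomputable def hp (T : HodgeTheory ops) (X : 𝒱.Obj) : Module.End (CW T).K ((CW T).H X) :=
  hop T X

theorem hp_pq {p q : ℤ} {x : (CW T).H X} (hx : x ∈ T.pq X p q) :
    hp T X x = (show (CW T).K from ((p - q : ℤ) : ℂ)) • x := hop_pq hx

theorem hp_hodge {j : ℕ} {c : T.W.H X} (hc : IsHodge T X j c) : hp T X (em T.W ℂ c) = 0 := by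
  rw [hp_pq hc.2, sub_self, Int.cast_zero]
  exact zero_smul (CW T).K (em T.W ℂ c)

theorem hp_of_pq {j : ℤ} {x : (CW T).H X} (hx : x ∈ T.pq X j j) : hp T X x = 0 := by
  rw [hp_pq hx, sub_self, Int.cast_zero]
  exact zero_smul (CW T).K x

theorem hp_tr (x : (CW T).H X) : (CW T).tr X (hp T X x) = 0 := by
  rcases subsingleton_or_nontrivial (T.W.H X) with hs | hn
  · have h1 : ∀ x : (CW T).H X, x = 0 := by
      intro x
      refine tmul_ind (p := fun x => x = 0) rfl ?_ ?_ x
      · rintro x y rfl rfl; rw [add_zero]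
      · intro l a
        rw [tmul_eq, Subsingleton.elim a 0, em_zero, smul_zero]
    rw [h1 (hp T X x), map_zero]
  · obtain ⟨l, hl, hl1⟩ := exists_tr_hodge T X
    refine gr_induction ((CW T).isInternal X)
      (p := fun x => (CW T).tr X (hp T X x) = 0) ?_ ?_ x
    · intro i x hx
      by_cases hi : i = 2 * X.dim
      · subst hi
        have h1 : (CW T).tr X (em T.W ℂ l) = 1 := by
          rw [em_tr, hl1]; exact map_one (algebraMap T.W.K ℂ)
        have h2 := top_eq (W := CW T) (em_gr hl.1) h1 hx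
        rw [h2, map_smul, hp_hodge hl, smul_zero, map_zero]
      · have h3 : hp T X x ∈ (CW T).gr X i := hop_gr hx
        rw [(CW T).tr_eq_zero h3 hi]
    · intro a b ha hb; rw [map_add, map_add, ha, hb, add_zero]

theorem hp_drv (T : HodgeTheory ops) : Drv (CW T) (hp T) 0 where
  mul Y x y := hop_mul (T := T) (X := Y) x y
  map {Y Z} f z := by
    have h1 : ∀ z : (CW T).H Z, (CW T).map f z = mp T f z := fun z =>
      Pool.Agent.Y121.AHS.mapBase_eq (L := ℂ) (T.W.map f) z
    rw [h1, h1]
    exact hop_mp f z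
  tr Y x := by
    rw [hp_tr, zero_mul, zero_mul]

/-- The components of the Hodge operator. -/
noncomputable def yy (T : HodgeTheory ops) (X : 𝒱.Obj) (ν : ℂ →ₗ[T.W.K] T.W.K) :
    Module.End T.W.K (T.W.H X) := cE ν (hp T X)

theorem yy_kills (ν : ℂ →ₗ[T.W.K] T.W.K) {c : T.W.H (pw X n)}
    (hc : hp T _ (em T.W ℂ c) = 0) : Kills (yy T X ν) (frm T.W X n c) :=
  kills_of_drv (hp_drv T) ν hc

theorem hp_of_kills {c : T.W.H (pw X n)}
    (hc : ∀ ν : ℂ →ₗ[T.W.K] T.W.K, Kills (yy T X ν) (frm T.W X n c)) :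
    hp T _ (em T.W ℂ c) = 0 :=
  drv_of_kills (hp_drv T) hc

theorem yy_trace (ν : ℂ →ₗ[T.W.K] T.W.K) (e : Module.End T.W.K (T.W.H X)) :
    LinearMap.trace T.W.K (T.W.H X) (yy T X ν * e) =
      ν (LinearMap.trace ℂ (ℂ ⊗[T.W.K] T.W.H X) (hop T X * e.baseChange ℂ)) :=
  trace_cmpE_mul ν (hop T X) e

/-! ### Transport -/

section semi

variable {K V K' V' : Type*} [Field K] [AddCommGroup V] [Module K V] [FiniteDimensional K V]
  [Field K'] [AddCommGroup V'] [Module K' V']

/-- The basis transported by a semilinear isomorphism. -/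
theorem exists_semibasis {ι : Type} [Fintype ι] (s : K ≃+* K') (e : V ≃+ V')
    (h : ∀ (r : K) (x : V), e (r • x) = s r • e x) (b : Basis ι K V) :
    ∃ b' : Basis ι K' V', (∀ i, b' i = e (b i)) ∧ ∀ x i, b'.repr (e x) i = s (b.repr x i) := by
  classical
  have hs : ∀ (r : K') (x : V'), e.symm (r • x) = s.symm r • e.symm x := by
    intro r x
    apply e.injective
    rw [e.apply_symm_apply, h, s.apply_symm_apply, e.apply_symm_apply]
  let f : V' ≃ₗ[K'] (ι → K') :=
    { toFun := fun y i => s (b.repr (e.symm y) i)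
      map_add' := fun x y => by
        funext i
        rw [map_add, map_add, Finsupp.add_apply, map_add]
        rfl
      map_smul' := fun r x => by
        funext i
        rw [hs, map_smul, Finsupp.smul_apply, smul_eq_mul, map_mul, s.apply_symm_apply]
        rfl
      invFun := fun g => e (∑ i, s.symm (g i) • b i)
      left_inv := fun y => by
        change e (∑ i, s.symm (s (b.repr (e.symm y) i)) • b i) = y
        simp only [s.symm_apply_apply]
        rw [b.sum_repr, e.apply_symm_apply]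
      right_inv := fun g => by
        funext i
        change s (b.repr (e.symm (e (∑ i, s.symm (g i) • b i))) i) = g i
        rw [e.symm_apply_apply, b.repr_sum_self, s.apply_symm_apply] }
  refine ⟨Basis.ofEquivFun f, fun i => ?_, fun x i => ?_⟩
  · apply f.injective
    funext j
    change f ((Basis.ofEquivFun f) i) j = s (b.repr (e.symm (e (b i))) j)
    rw [e.symm_apply_apply, b.repr_self]
    rw [Basis.coe_ofEquivFun]
    rw [f.apply_symm_apply, Pi.single_apply, Finsupp.single_apply]
    by_cases hij : i = j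
    · rw [if_pos hij.symm, if_pos hij, map_one]
    · rw [if_neg (Ne.symm hij), if_neg hij, map_zero]
  · rw [Basis.ofEquivFun_repr_apply]
    change s (b.repr (e.symm (e x)) i) = _
    rw [e.symm_apply_apply]

/-- The trace of a transported endomorphism. -/
theorem semi_trace (s : K ≃+* K') (e : V ≃+ V')
    (h : ∀ (r : K) (x : V), e (r • x) = s r • e x) {A : Module.End K V} {A' : Module.End K' V'}
    (hA : ∀ x, A' (e x) = e (A x)) :
    LinearMap.trace K' V' A' = s (LinearMap.trace K V A) := by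
  classical
  let b := Module.finBasis K V
  obtain ⟨b', hb', hr⟩ := exists_semibasis s e h b
  rw [LinearMap.trace_eq_matrix_trace K b, LinearMap.trace_eq_matrix_trace K' b',
    Matrix.trace, Matrix.trace, map_sum]
  refine Finset.sum_congr rfl fun i _ => ?_
  rw [Matrix.diag_apply, Matrix.diag_apply, LinearMap.toMatrix_apply, LinearMap.toMatrix_apply,
    hb', hA, hr]

end semi

section theta

variable {E : WeilCohomology.{u, 0} ops} [Algebra E.K ℂ] (C : Comparison (CW T) (baseW E ℂ))

theorem cmp_symm_smul (Y : 𝒱.Obj) (r : (baseW E ℂ).K) (x : (baseW E ℂ).H Y) :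
    (C.e Y).symm (r • x) = C.s.symm r • (C.e Y).symm x := by
  apply (C.e Y).injective
  rw [(C.e Y).apply_symm_apply, C.semi, C.s.apply_symm_apply, (C.e Y).apply_symm_apply]

/-- The transported Hodge operator. -/
noncomputable def theta (Y : 𝒱.Obj) : Module.End (baseW E ℂ).K ((baseW E ℂ).H Y) where
  toFun x := C.e Y (hp T Y ((C.e Y).symm x))
  map_add' x y := by rw [map_add, map_add, map_add]
  map_smul' r x := by
    rw [cmp_symm_smul, map_smul, C.semi, C.s.apply_symm_apply]
    rfl

theorem theta_apply (Y : 𝒱.Obj) (x : (CW T).H Y) :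
    theta C Y (C.e Y x) = C.e Y (hp T Y x) := by
  change C.e Y (hp T Y ((C.e Y).symm (C.e Y x))) = _
  rw [(C.e Y).symm_apply_apply]

theorem theta_drv : Drv (baseW E ℂ) (theta C) 0 where
  mul Y x y := by
    obtain ⟨x, rfl⟩ := (C.e Y).surjective x
    obtain ⟨y, rfl⟩ := (C.e Y).surjective y
    rw [← map_mul, theta_apply, theta_apply, theta_apply, (hp_drv T).mul, map_add, map_mul,
      map_mul]
  map {Y Z} f z := by
    obtain ⟨z, rfl⟩ := (C.e Z).surjective z
    rw [theta_apply, ← C.nat, theta_apply, (hp_drv T).map, C.nat]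
  tr Y x := by
    obtain ⟨x, rfl⟩ := (C.e Y).surjective x
    rw [theta_apply, C.tr, hp_tr, map_zero, mul_zero, zero_mul, zero_mul]

/-- The classes which correspond to classes of type `(j, j)` are killed. -/
theorem theta_type {Y : 𝒱.Obj} {j : ℤ} {x : (CW T).H Y} (hx : x ∈ T.pq Y j j) :
    theta C Y (C.e Y x) = 0 := by
  rw [theta_apply, hp_of_pq hx, map_zero]

theorem cmp_mpr (v : Fin (n + 1) → (CW T).H X) :
    C.e (pw X n) (mpr (CW T) X n v) = mpr (baseW E ℂ) X n (fun i => C.e X (v i)) := by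
  rw [mpr_apply, mpr_apply, map_list_prod, List.map_ofFn]
  congr 2
  funext i
  exact C.nat _ _


theorem ep_trace {e₀ : Module.End T.W.K (T.W.H X)} {e₁ : Module.End E.K (E.H X)}
    (hz : ∃ z : (pw X 1).Cycles, (pw X 1).IsCyc X.dim z ∧
      (∀ v, frm T.W X 1 (T.W.cl _ z) v = prg T.W X (e₀ (v 0)) (v 1)) ∧
      ∀ v, frm E X 1 (E.cl _ z) v = prg E X (e₁ (v 0)) (v 1)) :
    LinearMap.trace (baseW E ℂ).K ((baseW E ℂ).H X) (theta C X * bc ℂ e₁) =
      C.s (LinearMap.trace (CW T).K ((CW T).H X) (hp T X * bc ℂ e₀)) := by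
  obtain ⟨z, hz, h0, h1⟩ := hz
  -- the two endomorphisms correspond to each other
  have key : ∀ u : (CW T).H X, bc ℂ e₁ (C.e X u) = C.e X (bc ℂ e₀ u) := by
    intro u
    rw [← sub_eq_zero]
    apply prg_nondeg
    intro v
    obtain ⟨v, rfl⟩ := (C.e X).surjective v
    rw [map_sub, LinearMap.sub_apply, sub_eq_zero]
    have h2 := base_end (L := ℂ) h0 ![u, v]
    have h3 := base_end (L := ℂ) h1 ![C.e X u, C.e X v]
    have h4 : (![C.e X u, C.e X v] : Fin 2 → (baseW E ℂ).H X) = fun i => C.e X (![u, v] i) := by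
      funext i
      fin_cases i <;> rfl
    change frm (CW T) X 1 _ _ = prg (CW T) X (bc ℂ e₀ u) v at h2
    change frm (baseW E ℂ) X 1 _ _ = prg (baseW E ℂ) X (bc ℂ e₁ (C.e X u)) (C.e X v) at h3
    rw [← h3, prg_apply, ← map_mul, C.tr, ← prg_apply, ← h2, h4, frm_apply, frm_apply]
    -- the class of the cycle
    have h5 : C.e (pw X 1) (em T.W ℂ (T.W.cl _ z)) = C.c ^ X.dim • em E ℂ (E.cl _ z) :=
      C.cyc hz
    have h6 := C.tr (pw X 1) (em T.W ℂ (T.W.cl _ z) * mpr (CW T) X 1 ![u, v])
    rw [map_mul, h5, cmp_mpr, smul_mul_assoc, map_smul, smul_eq_mul, dim_pw, two_dim,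
      pow_add, mul_assoc] at h6
    exact mul_left_cancel₀ (pow_ne_zero _ C.ne) h6
  refine semi_trace C.s (C.e X).toAddEquiv (C.semi X) ?_
  intro x
  change theta C X (bc ℂ e₁ (C.e X x)) = C.e X (hp T X (bc ℂ e₀ x))
  rw [key, theta_apply]

end theta

end Pool.Agent.Q50.FP
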