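import Pool.Agent.Q50.FP.BDefs
import Pool.Agent.Q50.FP.GCore
import Pool.Agent.Q50.FP.HT

/-!
# Artin's comparison between the rational and the `ℓ`-adic cohomology
-/

open CategoryTheory AlgebraicGeometry TensorProduct

universe u

set_option linter.unusedSectionVars false

namespace Pool.Agent.Q50.FP

open Module Pool.Agent.H204R3.SP Pool.Agent.W516.DR
open Pool.Agent.H914 Pool.Agent.H914.VarClass Pool.Agent.H914.VarClass.Obj
  Pool.Agent.H914.WeilCohomology
open Pool.Agent.Y133.Half

variable {k : Type u} [Field k] {𝒱 : VarClass k} {ops : CycleOps 𝒱}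

/-- A comparison between the rational and the `ℓ`-adic cohomology: ring homomorphisms
`H(X) → H_ℓ(X)` which are compatible with the pull-backs, the classes of cycles and the
orientations (up to the powers of a constant `c`, since the Tate twists are suppressed), and whose
images span `H_ℓ(X)`. -/
structure ArtC (W E : WeilCohomology.{u, 0} ops) [Algebra W.K E.K] where
  /-- the ring homomorphisms -/
  a : ∀ X : 𝒱.Obj, W.H X →+* E.H X
  smul : ∀ (X : 𝒱.Obj) (r : W.K) (x : W.H X), a X (r • x) = algebraMap W.K E.K r • a X x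
  gr : ∀ (X : 𝒱.Obj) (i : ℕ) (x : W.H X), x ∈ W.gr X i → a X x ∈ E.gr X i
  map : ∀ (X Y : 𝒱.Obj) (f : X ⟶ Y) (y : W.H Y), a X (W.map f y) = E.map f (a Y y)
  /-- the effect on the Tate twist -/
  c : E.K
  ne : c ≠ 0
  cl : ∀ (X : 𝒱.Obj) (j : ℕ) (z : X.Cycles), X.IsCyc j z →
    a X (W.cl X z) = c ^ j • E.cl X z
  tr : ∀ (X : 𝒱.Obj) (x : W.H X), E.tr X (a X x) = c ^ X.dim * algebraMap W.K E.K (W.tr X x)
  span : ∀ X : 𝒱.Obj, Submodule.span E.K (Set.range (a X)) = ⊤

variable {W E : WeilCohomology.{u, 0} ops} [Algebra W.K E.K] (A : ArtC W E)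
  {X Y : 𝒱.Obj} {n : ℕ}

namespace ArtC

theorem cne (m : ℕ) : A.c ^ m ≠ 0 := pow_ne_zero _ A.ne

theorem sum_smul {ι : Type*} (s : Finset ι) (r : ι → W.K) (x : ι → W.H X) :
    A.a X (∑ i ∈ s, r i • x i) = ∑ i ∈ s, algebraMap W.K E.K (r i) • A.a X (x i) := by
  rw [map_sum]
  exact Finset.sum_congr rfl fun i _ => A.smul _ _ _

/-- The basis of the `ℓ`-adic cohomology given by a basis of the rational cohomology. -/
theorem exists_basis {ι : Type} [Fintype ι] (b : Basis ι W.K (W.H X)) :
    ∃ b' : Basis ι E.K (E.H X), (∀ i, b' i = A.a X (b i)) ∧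
      ∀ x i, b'.repr (A.a X x) i = algebraMap W.K E.K (b.repr x i) := by
  classical
  choose c hc using fun i => exists_dual_class W X (b.coord i)
  have hli : LinearIndependent E.K fun i => A.a X (b i) := by
    rw [Fintype.linearIndependent_iff]
    intro g hg i
    have h1 : E.tr X (A.a X (c i) * ∑ j, g j • A.a X (b j)) = g i * A.c ^ X.dim := by
      rw [Finset.mul_sum, map_sum, Finset.sum_eq_single i]
      · rw [mul_smul_comm, map_smul, ← map_mul, A.tr, hc, Basis.coord_apply, b.repr_self,
          Finsupp.single_eq_same, map_one, smul_eq_mul, mul_one]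
      · intro j _ hj
        rw [mul_smul_comm, map_smul, ← map_mul, A.tr, hc, Basis.coord_apply, b.repr_self,
          Finsupp.single_eq_of_ne (Ne.symm hj), map_zero, mul_zero, smul_zero]
      · intro h
        exact absurd (Finset.mem_univ i) h
    rw [hg, mul_zero, map_zero] at h1
    exact (mul_eq_zero.1 h1.symm).resolve_right (A.cne _)
  have hsp : ⊤ ≤ Submodule.span E.K (Set.range fun i => A.a X (b i)) := by
    rw [← A.span X, Submodule.span_le]
    rintro _ ⟨x, rfl⟩
    rw [← b.sum_repr x, A.sum_smul]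
    exact Submodule.sum_mem _ fun i _ => Submodule.smul_mem _ _ (Submodule.subset_span ⟨i, rfl⟩)
  let b' := Basis.mk hli hsp
  have hb' : ∀ i, b' i = A.a X (b i) := fun i => Basis.mk_apply hli hsp i
  refine ⟨b', hb', fun x i => ?_⟩
  conv_lhs => rw [← b.sum_repr x, A.sum_smul]
  have h1 : ∑ j, algebraMap W.K E.K (b.repr x j) • A.a X (b j) =
      ∑ j, algebraMap W.K E.K (b.repr x j) • b' j :=
    Finset.sum_congr rfl fun j _ => by rw [hb']
  rw [h1, b'.repr_sum_self]

/-- The extension of an endomorphism. -/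
noncomputable def ext (y : Module.End W.K (W.H X)) : Module.End E.K (E.H X) :=
  (A.exists_basis (Module.finBasis W.K (W.H X))).choose.constr E.K
    fun i => A.a X (y (Module.finBasis W.K (W.H X) i))

theorem ext_apply (y : Module.End W.K (W.H X)) (x : W.H X) :
    A.ext y (A.a X x) = A.a X (y x) := by
  have hb := (A.exists_basis (Module.finBasis W.K (W.H X))).choose_spec
  set b := Module.finBasis W.K (W.H X)
  set b' := (A.exists_basis b).choose with hb'
  conv_lhs => rw [← b.sum_repr x, A.sum_smul, map_sum]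
  conv_rhs => rw [← b.sum_repr x, map_sum]
  simp only [map_smul]
  rw [A.sum_smul]
  refine Finset.sum_congr rfl fun i _ => ?_
  congr 1
  rw [← hb.1, ext]
  exact b'.constr_basis E.K _ i

theorem ext_trace (y : Module.End W.K (W.H X)) :
    LinearMap.trace E.K (E.H X) (A.ext y) = algebraMap W.K E.K (LinearMap.trace W.K (W.H X) y) := by
  classical
  obtain ⟨b', h1, h2⟩ := A.exists_basis (Module.finBasis W.K (W.H X))
  rw [LinearMap.trace_eq_matrix_trace W.K (Module.finBasis W.K (W.H X)),
    LinearMap.trace_eq_matrix_trace E.K b', Matrix.trace, Matrix.trace, map_sum]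
  refine Finset.sum_congr rfl fun i _ => ?_
  rw [Matrix.diag_apply, Matrix.diag_apply, LinearMap.toMatrix_apply, LinearMap.toMatrix_apply,
    h1, A.ext_apply, h2]

theorem lin_ext {f g : E.H X →ₗ[E.K] E.H X} (h : ∀ x, f (A.a X x) = g (A.a X x)) : f = g := by
  obtain ⟨b', h1, -⟩ := A.exists_basis (Module.finBasis W.K (W.H X))
  refine b'.ext fun i => ?_
  rw [h1, h]

theorem ext_mul (y z : Module.End W.K (W.H X)) : A.ext (y * z) = A.ext y * A.ext z := by
  apply A.lin_ext
  intro x
  rw [A.ext_apply, Module.End.mul_apply, Module.End.mul_apply, A.ext_apply, A.ext_apply]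

theorem a_mpr (v : Fin (n + 1) → W.H X) :
    A.a (pw X n) (mpr W X n v) = mpr E X n (fun i => A.a X (v i)) := by
  rw [mpr_apply, mpr_apply, map_list_prod, List.map_ofFn]
  congr 2
  funext i
  exact A.map _ _ _ _

theorem a_frm (c : W.H (pw X n)) (v : Fin (n + 1) → W.H X) :
    frm E X n (A.a _ c) (fun i => A.a X (v i)) =
      A.c ^ (pw X n).dim * algebraMap W.K E.K (frm W X n c v) := by
  rw [frm_apply, ← A.a_mpr, ← map_mul, A.tr, frm_apply]

theorem a_prg (x y : W.H X) : prg E X (A.a X x) (A.a X y) =
    A.c ^ X.dim * algebraMap W.K E.K (prg W X x y) := by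
  rw [prg_apply, ← map_mul, A.tr, prg_apply]

theorem update_a {κ : Type*} [DecidableEq κ] (v : κ → W.H X) (j : κ) (x : W.H X) :
    Function.update (fun i => A.a X (v i)) j (A.a X x) =
      fun i => A.a X (Function.update v j x i) := by
  funext i
  by_cases hi : i = j
  · subst hi
    rw [Function.update_self, Function.update_self]
  · rw [Function.update_of_ne hi, Function.update_of_ne hi]

/-- The extension of an endomorphism which kills a form kills the extension of the form. -/
theorem kills_ext {y : Module.End W.K (W.H X)} {c : W.H (pw X n)}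
    (h : Kills y (frm W X n c)) : Kills (A.ext y) (frm E X n (A.a _ c)) := by
  obtain ⟨b', h1, -⟩ := A.exists_basis (Module.finBasis W.K (W.H X))
  refine kills_of_basis b' _ _ fun I => ?_
  simp only [h1, A.ext_apply, A.update_a, A.a_frm]
  rw [← Finset.mul_sum, ← map_sum]
  have h2 := h (fun i => Module.finBasis W.K (W.H X) (I i))
  rw [h2, map_zero, mul_zero]

/-- The endomorphisms attached to corresponding classes. -/
theorem end_eq {c : W.H (pw X 1)} {c' : E.H (pw X 1)} (hcc : A.a _ c = A.c ^ X.dim • c')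
    {e₀ : Module.End W.K (W.H X)} {e₁ : Module.End E.K (E.H X)}
    (h0 : ∀ v, frm W X 1 c v = prg W X (e₀ (v 0)) (v 1))
    (h1 : ∀ v, frm E X 1 c' v = prg E X (e₁ (v 0)) (v 1)) : e₁ = A.ext e₀ := by
  apply A.lin_ext
  intro x
  rw [A.ext_apply, ← sub_eq_zero]
  apply prg_nondeg
  intro v
  rw [map_sub, LinearMap.sub_apply, sub_eq_zero]
  -- it suffices to consider the image of the rational cohomology
  have key : (prg E X (e₁ (A.a X x))) = prg E X (A.a X (e₀ x)) := by
    obtain ⟨b', hb, -⟩ := A.exists_basis (Module.finBasis W.K (W.H X))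
    refine b'.ext fun i => ?_
    rw [hb]
    have h2 := h1 (fun i' => A.a X (![x, Module.finBasis W.K (W.H X) i] i'))
    have h3 := A.a_frm c ![x, Module.finBasis W.K (W.H X) i]
    rw [hcc, frm_smul, smul_apply, h0, h2, smul_eq_mul, dim_pw, two_dim, pow_add, mul_assoc] at h3
    have h4 := mul_left_cancel₀ (A.cne _) h3
    rw [A.a_prg]
    exact h4
  rw [key]

/-- A class whose form is killed by the extensions of the endomorphisms `y i` is a combination of
rational classes whose forms are killed by the `y i`. -/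
theorem mem_span {ι : Type*} (y : ι → Module.End W.K (W.H X)) {c : E.H (pw X n)}
    (h : ∀ i, Kills (A.ext (y i)) (frm E X n c)) :
    c ∈ Submodule.span E.K (A.a _ '' {c' | ∀ i, Kills (y i) (frm W X n c')}) := by
  classical
  let f := Module.finBasis W.K (W.H (pw X n))
  obtain ⟨f', hf1, -⟩ := A.exists_basis f
  let β := Basis.ofVectorSpace W.K E.K
  let s : Finset (Basis.ofVectorSpaceIndex W.K E.K) :=
    Finset.univ.biUnion fun w => (β.repr (f'.repr c w)).support
  let c' : Basis.ofVectorSpaceIndex W.K E.K → W.H (pw X n) := fun i =>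
    ∑ w, β.repr (f'.repr c w) i • f w
  have h1 : c = ∑ i ∈ s, β i • A.a _ (c' i) := by
    conv_lhs => rw [← f'.sum_repr c]
    have h2 : ∀ i ∈ s, β i • A.a _ (c' i) =
        ∑ w, (β.repr (f'.repr c w) i • β i) • f' w := by
      intro i _
      rw [A.sum_smul, Finset.smul_sum]
      refine Finset.sum_congr rfl fun w _ => ?_
      rw [hf1, smul_smul, Algebra.smul_def (β.repr (f'.repr c w) i) (β i), mul_comm]
    rw [Finset.sum_congr rfl h2, Finset.sum_comm]
    refine Finset.sum_congr rfl fun w _ => ?_
    rw [← Finset.sum_smul]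
    congr 1
    conv_lhs => rw [← β.linearCombination_repr (f'.repr c w), Finsupp.linearCombination_apply,
      Finsupp.sum_of_support_subset _
      (Finset.subset_biUnion_of_mem (fun w => (β.repr (f'.repr c w)).support)
        (Finset.mem_univ w)) _ (fun i _ => zero_smul W.K (β i))]
  -- the components of the form
  have h2 : ∀ (i : Basis.ofVectorSpaceIndex W.K E.K), i ∈ s → ∀ v : Fin (n + 1) → W.H X,
      β.coord i ((A.c ^ (pw X n).dim)⁻¹ * frm E X n c (fun j => A.a X (v j))) =
        frm W X n (c' i) v := by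
    intro i hi v
    have h3 : (A.c ^ (pw X n).dim)⁻¹ * frm E X n c (fun j => A.a X (v j)) =
        ∑ l ∈ s, (frm W X n (c' l) v) • β l := by
      have h4 : frm E X n c = ∑ l ∈ s, β l • frm E X n (A.a _ (c' l)) := by
        conv_lhs => rw [h1]
        change frmL E X n _ = _
        rw [map_sum]
        exact Finset.sum_congr rfl fun l _ => map_smul _ _ _
      rw [h4, sum_apply, Finset.mul_sum]
      refine Finset.sum_congr rfl fun l _ => ?_
      have h5 := A.cne (pw X n).dim
      rw [smul_apply, A.a_frm, smul_eq_mul, Algebra.smul_def]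
      field_simp
    rw [h3, map_sum, Finset.sum_eq_single i]
    · rw [map_smul, Basis.coord_apply, β.repr_self, Finsupp.single_eq_same, smul_eq_mul, mul_one]
    · intro l _ hl
      rw [map_smul, Basis.coord_apply, β.repr_self, Finsupp.single_eq_of_ne (Ne.symm hl),
        smul_zero]
    · intro h
      exact absurd hi h
  rw [h1]
  refine Submodule.sum_mem _ fun i hi => Submodule.smul_mem _ _ (Submodule.subset_span ?_)
  refine ⟨c' i, fun j => ?_, rfl⟩
  intro v
  have h3 := h j (fun l => A.a X (v l))
  have h4 := congrArg (fun z => β.coord i ((A.c ^ (pw X n).dim)⁻¹ * z)) h3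
  simp only [mul_zero, map_zero, Finset.mul_sum, map_sum] at h4
  rw [← h4]
  refine Finset.sum_congr rfl fun l _ => ?_
  rw [A.ext_apply, A.update_a, h2 i hi]

end ArtC

end Pool.Agent.Q50.FP
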