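import Pool.Agent.Q50.FP.Desc

/-!
# The fourth power decides: every Tate class is a combination of Hodge classes
-/

open CategoryTheory AlgebraicGeometry TensorProduct

universe u w

set_option linter.unusedSectionVars false

namespace Pool.Agent.Q50.FP

open Module Pool.Agent.H204R3.SP Pool.Agent.W516.DR Pool.Agent.TH119.DR
open Pool.Agent.H914 Pool.Agent.H914.VarClass Pool.Agent.H914.VarClass.Obj
  Pool.Agent.H914.WeilCohomology
open Pool.Agent.Y133.Half Pool.Agent.Y121.AH
open Pool.Agent.Q55 (GaloisAction SubAction Virtually TateConj tatePred)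
open Pool.Agent.Q60.TD (SemisimpleAt)

variable {k : Type u} [Field k] {𝒱 : VarClass k} {ops : CycleOps 𝒱}
  {T : HodgeTheory ops} {E : WeilCohomology.{u, 0} ops} [Algebra T.W.K E.K] [Algebra E.K ℂ]
  {X Y : 𝒱.Obj} {n : ℕ} {Γ : Type w} [Group Γ] {G : GaloisAction E Γ}

theorem proj_a {W E : WeilCohomology.{u, 0} ops} [Algebra W.K E.K] (A : ArtC W E)
    (i : ℕ) (x : W.H Y) :
    H914.proj (E.isInternal Y) i (A.a Y x) = A.a Y (H914.proj (W.isInternal Y) i x) := by
  refine dg_ind (p := fun x => H914.proj (E.isInternal Y) i (A.a Y x) =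
    A.a Y (H914.proj (W.isInternal Y) i x)) ?_ ?_ x
  · intro j x hx
    by_cases hj : j = i
    · subst hj
      rw [proj_same _ hx, proj_same _ (A.gr _ _ _ hx)]
    · rw [proj_ne _ hx hj, proj_ne _ (A.gr _ _ _ hx) hj, map_zero]
  · intro a b ha hb
    rw [map_add, map_add, ha, hb, map_add, map_add]

/-- The components of a sum of Hodge classes are Hodge classes. -/
theorem proj_hodge {j : ℕ} {x : T.W.H Y} (hx : x ∈ (hodgeSys T).C Y) :
    IsHodge T Y j (H914.proj (T.W.isInternal Y) (2 * j) x) := by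
  have hx' : x ∈ (hodgePred T).sp Y := hx
  refine ClassPred.sp_ind (Q := hodgePred T)
    (q := fun x => IsHodge T Y j (H914.proj (T.W.isInternal Y) (2 * j) x)) ?_ ?_ ?_ hx'
  · intro i x hx
    by_cases hi : i = j
    · subst hi
      rw [proj_same _ hx.1]
      exact hx
    · rw [proj_ne _ hx.1 (by omega)]
      exact IsHodge.zero
  · rw [map_zero]
    exact IsHodge.zero
  · intro a b ha hb
    rw [map_add]
    exact IsHodge.add ha hb

/-- **Every Tate class on every power is a combination of Hodge classes.** -/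
theorem tate_mem_span (A : ArtC T.W E) (hlog : HasLogs G X)
    (hss : ∀ i, SemisimpleAt G X i) (hTC : TateConj G (pw X 3))
    (C : ∀ _ : ℂ ≃+* ℂ, Comparison (CW T) (baseW E ℂ))
    (hC : ∀ (τ : ℂ ≃+* ℂ) (z : ℂ), (show ℂ from (C τ).s z) = τ z)
    (hT : ∀ (τ : ℂ ≃+* ℂ) (Y : 𝒱.Obj) (j : ℕ) (c : E.H Y), Pool.Agent.Q55.IsTate G Y j c →
      ∃ x ∈ T.pq Y j j, (C τ).e Y x = em E ℂ c) (n j : ℕ) (c : E.H (pw X n))
    (hc : Pool.Agent.Q55.IsTate G (pw X n) j c) :
    c ∈ Submodule.span E.K (A.a (pw X n) '' {x | IsHodge T (pw X n) j x}) := by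
  by_cases hj : j ≤ (pw X n).dim
  · have h1 : ∀ ν : ℂ →ₗ[T.W.K] T.W.K, Kills (A.ext (yy T X ν)) (frm E X n c) := fun ν =>
      gal_kills (tform_of_tate (M := (pw X n).dim - j) (by omega) hc)
        (yy_gal A hlog hss hTC C hC hT ν)
    have h2 := A.mem_span (yy T X) h1
    have h3 : H914.proj (E.isInternal (pw X n)) (2 * j) c = c := proj_same _ hc.1
    rw [← h3]
    have h4 : Submodule.span E.K
        (A.a _ '' {c' | ∀ ν, Kills (yy T X ν) (frm T.W X n c')}) ≤
        (Submodule.span E.K (A.a (pw X n) '' {x | IsHodge T (pw X n) j x})).comap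
          (H914.proj (E.isInternal (pw X n)) (2 * j)) := by
      rw [Submodule.span_le]
      rintro _ ⟨c', hc', rfl⟩
      have h5 : hp T _ (em T.W ℂ c') = 0 := hp_of_kills hc'
      have h6 : c' ∈ (hodgeSys T).C (pw X n) := Pool.Agent.Q50.BL.hodge_of_hop h5
      change H914.proj (E.isInternal (pw X n)) (2 * j) (A.a _ c') ∈
        Submodule.span E.K (A.a (pw X n) '' {x | IsHodge T (pw X n) j x})
      rw [proj_a A]
      exact Submodule.subset_span ⟨_, proj_hodge h6, rfl⟩
    exact h4 h2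
  · have h1 := hc.1
    rw [E.gr_eq_bot _ _ (by omega), Submodule.mem_bot] at h1
    rw [h1]
    exact Submodule.zero_mem _

end Pool.Agent.Q50.FP
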