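import Pool.Agent.Q50.FP.GSemi

/-!
# Logarithms and Tate forms
-/

open CategoryTheory AlgebraicGeometry TensorProduct

universe u w

set_option linter.unusedSectionVars false

namespace Pool.Agent.Q50.FP

open Module Pool.Agent.H204R3.SP Pool.Agent.W516.KC
open Pool.Agent.H914 Pool.Agent.H914.VarClass Pool.Agent.H914.VarClass.Obj
  Pool.Agent.H914.WeilCohomology
open Pool.Agent.Y133.Half
open Pool.Agent.Q55 (GaloisAction SubAction Virtually TateConj)
open Pool.Agent.Q60.TD (SemisimpleAt rep rep_apply exists_good)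

variable {k : Type u} [Field k] {𝒱 : VarClass k} {ops : CycleOps 𝒱}
  {W : WeilCohomology.{u, 0} ops} {X : 𝒱.Obj} {n : ℕ} {Γ : Type w} [Group Γ]
  (G : GaloisAction W Γ)

/-- The elements of a subgroup of finite index have logarithms on `H(X)`. -/
def HasLogs (X : 𝒱.Obj) : Prop :=
  ∃ Δ : Subgroup Γ, Δ.FiniteIndex ∧ ∀ s ∈ Δ, s ∈ (G.ρ X).dom ∧
    ∃ (Y : Module.End W.K (W.H X)) (y : W.K),
      ∀ (κ : Type) [Fintype κ] [DecidableEq κ]
        (φ : MultilinearMap W.K (fun _ : κ => W.H X) W.K) (M : ℕ),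
      ((∃ N, 0 < N ∧ ∀ v, φ (fun j => (G.ρ X).act (s ^ N) (v j)) =
          (G.χ (s ^ N) : W.K) ^ M * φ v) →
        ∀ v, ∑ j, φ (Function.update v j (Y (v j))) = M * y * φ v) ∧
      ((∀ v, ∑ j, φ (Function.update v j (Y (v j))) = M * y * φ v) →
        ∀ v, φ (fun j => (G.ρ X).act s (v j)) = (G.χ s : W.K) ^ M * φ v)

variable {G}

section abs

variable {K V : Type*} [Field K] [AddCommGroup V] [Module K V] {κ : Type*} [Fintype κ]
  [DecidableEq κ]

theorem sum_sub_smul (φ : MultilinearMap K (fun _ : κ => V) K) (A B : Module.End K V) (r : K)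
    (v : κ → V) : ∑ j, φ (Function.update v j ((A - r • B) (v j))) =
      ∑ j, φ (Function.update v j (A (v j))) - r * ∑ j, φ (Function.update v j (B (v j))) := by
  rw [Finset.mul_sum, ← Finset.sum_sub_distrib]
  refine Finset.sum_congr rfl fun j _ => ?_
  rw [LinearMap.sub_apply, LinearMap.smul_apply, MultilinearMap.map_update_sub,
    MultilinearMap.map_update_smul, smul_eq_mul]

theorem sum_one (φ : MultilinearMap K (fun _ : κ => V) K) (v : κ → V) :
    ∑ j, φ (Function.update v j ((1 : Module.End K V) (v j))) = Fintype.card κ * φ v := by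
  have h1 : ∀ j, φ (Function.update v j ((1 : Module.End K V) (v j))) = φ v := by
    intro j
    rw [Module.End.one_apply, Function.update_eq_self]
  rw [Finset.sum_congr rfl fun j _ => h1 j, Finset.sum_const, Finset.card_univ, nsmul_eq_mul]

end abs

/-- The normalised logarithm is an element of the Lie algebra. -/
theorem log_mem {s : Γ} (hs : s ∈ (G.ρ X).dom) {Y : Module.End W.K (W.H X)} {y : W.K}
    (h : ∀ (κ : Type) [Fintype κ] [DecidableEq κ]
        (φ : MultilinearMap W.K (fun _ : κ => W.H X) W.K) (M : ℕ),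
      (∃ N, 0 < N ∧ ∀ v, φ (fun j => (G.ρ X).act (s ^ N) (v j)) =
          (G.χ (s ^ N) : W.K) ^ M * φ v) →
        ∀ v, ∑ j, φ (Function.update v j (Y (v j))) = M * y * φ v) :
    Y - (y / 2) • dg W X ∈ gal G X := by
  intro n M φ hφ
  obtain ⟨h1, Δ, hΔ, h2⟩ := hφ
  intro v
  obtain ⟨N, hN, hNs⟩ : ∃ N, 0 < N ∧ s ^ N ∈ Δ := by
    obtain ⟨N, hN, _, hNs⟩ := Subgroup.exists_pow_mem_of_index_ne_zero hΔ.index_ne_zero s
    exact ⟨N, hN, hNs⟩
  have h3 := h (Fin (n + 1)) φ M ⟨N, hN, h2 _ hNs (pow_mem hs N)⟩ v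
  rw [sum_sub_smul, h3, h1]
  ring

/-- A homogeneous form which is killed by the Lie algebra is a Tate form. -/
theorem tform_of_kills (hlog : HasLogs G X) {κ : Type} [Fintype κ] [DecidableEq κ] {M : ℕ}
    {φ : MultilinearMap W.K (fun _ : κ => W.H X) W.K}
    (h1 : ∀ v, ∑ j, φ (Function.update v j (dg W X (v j))) = 2 * M * φ v)
    (h2 : ∀ Z ∈ gal G X, Kills Z φ) : TForm G X M φ := by
  obtain ⟨Δ, hΔ, h⟩ := hlog
  refine ⟨h1, Δ, hΔ, fun s hs _ => ?_⟩
  obtain ⟨hX, Y, y, hY⟩ := h s hs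
  refine (hY κ φ M).2 fun v => ?_
  have h3 := log_mem hX fun κ _ _ φ M => (hY κ φ M).1
  have h4 := h2 _ h3 v
  rw [sum_sub_smul, h1] at h4
  linear_combination h4

/-- A form in `m` variables which is killed by the extended Lie algebra is a Tate form. -/
theorem tform_of_galp (hlog : HasLogs G X) {κ : Type} [Fintype κ] [DecidableEq κ] {M : ℕ}
    (hM : Fintype.card κ * X.dim = 2 * M)
    {φ : MultilinearMap W.K (fun _ : κ => W.H X) W.K}
    (h : ∀ Z ∈ galp G X, Kills Z φ) : TForm G X M φ := by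
  refine tform_of_kills hlog (fun v => ?_) fun Z hZ => h Z (gal_le hZ)
  have h1 := h _ dn_mem v
  rw [dn, sum_sub_smul, sum_one] at h1
  have h2 : (Fintype.card κ : W.K) * X.dim = 2 * M := by
    rw [← Nat.cast_mul, hM]
    push_cast
    ring
  linear_combination h1 + φ v * h2

/-- The form attached to an endomorphism which commutes with the extended Lie algebra. -/
theorem tform_of_comm (hlog : HasLogs G X) {P : Module.End W.K (W.H X)}
    (hP : ∀ Z ∈ galp G X, Z * P = P * Z) : TForm G X X.dim (two ((prg W X).comp P)) := by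
  refine tform_of_galp hlog (by rw [Fintype.card_fin]) fun Z hZ => ?_
  rw [kills_two]
  intro u v
  rw [LinearMap.comp_apply, LinearMap.comp_apply]
  have h1 := galp_skew hZ (P u) v
  have h2 : Z (P u) = P (Z u) := LinearMap.congr_fun (hP Z hZ) u
  rwa [h2] at h1

/-- The Casimir form is a Tate form. -/
theorem tform_cas (hlog : HasLogs G X) (hss : ∀ i, SemisimpleAt G X i) :
    TForm G X (2 * X.dim) (cas (galp G X) (galp_semi hss) galp_br (prg W X)) := by
  refine tform_of_galp hlog (by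
    rw [Fintype.card_prod, Fintype.card_fin]
    ring) fun Z hZ => ?_
  exact Pool.Agent.W516.KC2.casimir_kills _ _ _ (galp_skew hZ) fun A hA =>
    der_ideal (galp G X) galp_br hZ hA

end Pool.Agent.Q50.FP
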