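import Pool.Agent.Q50.FP.BDefs
import Pool.Agent.Q50.FP.GLog
import Pool.Agent.Q50.FP.Grp

/-!
# Logarithms for continuous actions over a field isomorphic to the `ℓ`-adic numbers
-/

open CategoryTheory AlgebraicGeometry TensorProduct

universe u w

set_option linter.unusedSectionVars false

namespace Pool.Agent.Q50.FP

open Module
open Pool.Agent.H914 Pool.Agent.H914.VarClass Pool.Agent.H914.VarClass.Obj
  Pool.Agent.H914.WeilCohomology
open Pool.Agent.Y133.Half
open Pool.Agent.Q55 (GaloisAction SubAction Virtually TateConj)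
open Pool.Agent.Q60.TD (rep)

section abs

variable {ℓ : ℕ} [hℓ : Fact ℓ.Prime] {K V : Type*} [Field K] [AddCommGroup V] [Module K V]
  [FiniteDimensional K V] {Γ : Type*} [Group Γ] [TopologicalSpace Γ] [IsTopologicalGroup Γ]
  [CompactSpace Γ]

theorem exists_logs_of (e : K ≃+* ℚ_[ℓ]) (ρ : Γ →* Module.End K V) (χ : Γ →* K)
    (hρ : ∀ (v : V) (f : Dual K V), Continuous fun s => e (f (ρ s v)))
    (hχ : Continuous fun s => e (χ s)) :
    ∃ Δ : Subgroup Γ, Δ.FiniteIndex ∧ ∀ s ∈ Δ,
      ∃ (Y : Module.End K V) (y : K),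
        ∀ (κ : Type) [Fintype κ] [DecidableEq κ]
          (φ : MultilinearMap K (fun _ : κ => V) K) (M : ℕ),
        ((∃ N, 0 < N ∧ ∀ v, φ (fun j => ρ (s ^ N) (v j)) = χ (s ^ N) ^ M * φ v) →
          ∀ v, ∑ j, φ (Function.update v j (Y (v j))) = M * y * φ v) ∧
        ((∀ v, ∑ j, φ (Function.update v j (Y (v j))) = M * y * φ v) →
          ∀ v, φ (fun j => ρ s (v j)) = χ s ^ M * φ v) := by
  let _ : Module ℚ_[ℓ] V := Module.compHom V (e.symm : ℚ_[ℓ] →+* K)
  have hsm : ∀ (r : ℚ_[ℓ]) (v : V), r • v = e.symm r • v := fun r v => rfl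
  have hsm' : ∀ (r : K) (v : V), e r • v = r • v := fun r v => by
    rw [hsm, e.symm_apply_apply]
  have hfd : FiniteDimensional ℚ_[ℓ] V :=
    Module.Finite.of_basis ((Module.finBasis K V).mapCoeffs e hsm')
  let toQ : Module.End K V → Module.End ℚ_[ℓ] V := fun A =>
    { toFun := A
      map_add' := map_add A
      map_smul' := fun r v => by
        rw [hsm, map_smul]
        rfl }
  let ofQ : Module.End ℚ_[ℓ] V → Module.End K V := fun A =>
    { toFun := A
      map_add' := map_add A
      map_smul' := fun r v => by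
        rw [← hsm', map_smul, hsm']
        rfl }
  let ρ' : Γ →* Module.End ℚ_[ℓ] V :=
    { toFun := fun s => toQ (ρ s)
      map_one' := by
        refine LinearMap.ext fun v => ?_
        change ρ 1 v = v
        rw [map_one]
        rfl
      map_mul' := fun s t => by
        refine LinearMap.ext fun v => ?_
        change ρ (s * t) v = ρ s (ρ t v)
        rw [map_mul]
        rfl }
  let χ' : Γ →* ℚ_[ℓ] := (e : K →* ℚ_[ℓ]).comp χ
  obtain ⟨Δ, hΔ, h⟩ := exists_logs ρ' χ' (fun v f => by
    let f' : Dual K V :=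
      { toFun := fun x => e.symm (f x)
        map_add' := fun x y => by rw [map_add, map_add]
        map_smul' := fun r x => by
          rw [← hsm', map_smul, smul_eq_mul, map_mul, e.symm_apply_apply]
          rfl }
    refine (hρ v f').congr fun s => ?_
    exact e.apply_symm_apply (f (ρ s v))) hχ
  refine ⟨Δ, hΔ, fun s hs => ?_⟩
  obtain ⟨Y, y, hY⟩ := h s hs
  refine ⟨ofQ Y, e.symm y, fun κ _ _ φ M => ?_⟩
  let φ' : MultilinearMap ℚ_[ℓ] (fun _ : κ => V) ℚ_[ℓ] :=
    { toFun := fun v => e (φ v)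
      map_update_add' := fun v i x y => by
        rw [φ.map_update_add, map_add]
      map_update_smul' := fun v i r x => by
        rw [hsm, φ.map_update_smul, smul_eq_mul, map_mul, e.apply_symm_apply]
        rfl }
  have h1 := hY κ φ' M
  constructor
  · rintro ⟨N, hN, hN'⟩ v
    have h2 := h1.1 ⟨N, hN, fun v => by
      change e (φ fun j => ρ (s ^ N) (v j)) = e (χ (s ^ N)) ^ M * e (φ v)
      rw [hN', map_mul, map_pow]⟩ v
    change ∑ j, e (φ (Function.update v j (Y (v j)))) = M * y * e (φ v) at h2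
    apply e.injective
    rw [map_sum, map_mul, map_mul, map_natCast, e.apply_symm_apply]
    exact h2
  · intro h2 v
    have h3 := h1.2 (fun v => by
      change ∑ j, e (φ (Function.update v j (Y (v j)))) = M * y * e (φ v)
      have h4 := congrArg e (h2 v)
      rw [map_sum, map_mul, map_mul, map_natCast, e.apply_symm_apply] at h4
      exact h4) v
    change e (φ fun j => ρ s (v j)) = e (χ s) ^ M * e (φ v) at h3
    apply e.injective
    rw [map_mul, map_pow]
    exact h3

end abs

variable {k : Type u} [Field k] {𝒱 : VarClass k} {ops : CycleOps 𝒱}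
  {W : WeilCohomology.{u, 0} ops} {X : 𝒱.Obj} {Γ : Type w} [Group Γ] [TopologicalSpace Γ]

/-- The action has logarithms. -/
theorem IsLadic.hasLogs {G : GaloisAction W Γ} {ℓ : ℕ} [Fact ℓ.Prime] (h : IsLadic G ℓ X) :
    HasLogs G X := by
  have h : ActLadic (G.ρ X) G.χ ℓ := h
  have := h.topGroup
  have := h.compact
  have hcl : IsClosed ((G.ρ X).dom : Set Γ) := Subgroup.isClosed_of_isOpen _ h.isOpen
  have : CompactSpace (G.ρ X).dom := isCompact_iff_compactSpace.1 hcl.isCompact
  obtain ⟨e, h1, h2⟩ := h.cont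
  let χ : (G.ρ X).dom →* W.K := (Units.coeHom W.K).comp (G.χ.comp (G.ρ X).dom.subtype)
  obtain ⟨Δ, hΔ, h3⟩ := exists_logs_of e (rep G X) χ h1 h2
  refine ⟨Δ.map (G.ρ X).dom.subtype, ?_, ?_⟩
  · have := (G.isGalois X).finiteIndex
    refine ⟨?_⟩
    rw [Subgroup.index_map_subtype]
    exact mul_ne_zero hΔ.index_ne_zero this.index_ne_zero
  · rintro _ ⟨s, hs, rfl⟩
    obtain ⟨Y, y, hY⟩ := h3 s hs
    exact ⟨s.2, Y, y, fun κ _ _ φ M => hY κ φ M⟩

end Pool.Agent.Q50.FP
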