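import Pool.Agent.Q50.FP.B1
import Pool.Agent.Q50.FP.Lad

/-!
# The fourth power decides: the main theorem for the Tate classes
-/

open CategoryTheory AlgebraicGeometry TensorProduct

universe u w

set_option linter.unusedSectionVars false

namespace Pool.Agent.Q50.FP

open Module
open Pool.Agent.H914 Pool.Agent.H914.VarClass Pool.Agent.H914.VarClass.Obj
  Pool.Agent.H914.WeilCohomology
open Pool.Agent.Y121.AHS
open Pool.Agent.Y121.AH (em ex)
open Pool.Agent.Q55 (GaloisAction TateConj)
open Pool.Agent.Q60.TD (SemisimpleAt)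
open Pool.Agent.Y133.Half (pw)

variable {k : Type u} [Field k] {𝒱 : VarClass k} {ops : CycleOps 𝒱} {X Y : 𝒱.Obj}

/-! ### The extension of the coefficients to the same field -/

section lid

variable (E : WeilCohomology.{u, 0} ops)

/-- The isomorphism `K ⊗ H(X) = H(X)`. -/
noncomputable def psi (X : 𝒱.Obj) : (baseW E E.K).H X ≃+* E.H X :=
  (Algebra.TensorProduct.lid E.K (E.H X)).toRingEquiv

variable {E}

theorem psi_em (x : E.H X) : psi E X (em E E.K x) = x := by
  change (1 : E.K) • x = x
  rw [one_smul]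

theorem psi_smul (r : E.K) (z : (baseW E E.K).H X) :
    psi E X ((show (baseW E E.K).K from r) • z) = r • psi E X z :=
  (Algebra.TensorProduct.lid E.K (E.H X)).toLinearEquiv.map_smul r
    (show E.K ⊗[E.K] E.H X from z)

theorem psi_symm (x : E.H X) : (psi E X).symm x = em E E.K x := by
  rw [RingEquiv.symm_apply_eq, psi_em]

theorem psi_map (f : X ⟶ Y) (z : (baseW E E.K).H Y) :
    psi E X ((baseW E E.K).map f z) = E.map f (psi E Y z) := by
  obtain ⟨y, rfl⟩ := (psi E Y).symm.surjective z
  rw [psi_symm, Pool.Agent.Y121.AH.em_map, psi_em, psi_em]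

theorem psi_tr (z : (baseW E E.K).H X) : (show E.K from (baseW E E.K).tr X z) =
    E.tr X (psi E X z) := by
  obtain ⟨y, rfl⟩ := (psi E X).symm.surjective z
  rw [psi_symm, Pool.Agent.Y121.AH.em_tr, psi_em]
  rfl

theorem psi_gr {i : ℕ} {z : (baseW E E.K).H X} (hz : z ∈ (baseW E E.K).gr X i) :
    psi E X z ∈ E.gr X i := by
  have hz' : z ∈ (E.gr X i).baseChange E.K := hz
  refine base_induction (P := fun z : E.K ⊗[E.K] E.H X => psi E X z ∈ E.gr X i) ?_ ?_ ?_ hz'
  · exact (map_zero (psi E X)).symm ▸ Submodule.zero_mem _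
  · intro x y hx hy
    exact (map_add (psi E X) x y).symm ▸ Submodule.add_mem _ hx hy
  · intro l a ha
    exact Submodule.smul_mem _ l ha

end lid

variable {T : HodgeTheory ops} {E : WeilCohomology.{u, 0} ops} [Algebra T.W.K E.K]

/-- The comparison maps given by a comparison isomorphism. -/
noncomputable def artOf (A : Comparison T.W E E.K) : ArtC T.W E where
  a X :=
    { toFun := fun x => psi E X (toE A X (em T.W E.K x))
      map_one' := by
        rw [em_one, map_one, map_one]
      map_mul' := fun x y => by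
        rw [Pool.Agent.Y121.AH.em_mul, map_mul, map_mul]
      map_zero' := by
        rw [Pool.Agent.Y121.AH.em_zero, map_zero, map_zero]
      map_add' := fun x y => by
        rw [Pool.Agent.Y121.AH.em_add, map_add, map_add] }
  smul X r x := by
    change psi E X (toE A X (em T.W E.K (r • x))) = _ • psi E X (toE A X (em T.W E.K x))
    rw [Pool.Agent.Y121.AH.em_smul]
    have h1 := (toC A).semi X (ex T.W E.K r) (em T.W E.K x)
    have h2 : (toC A).s (ex T.W E.K r) = (show (baseW E E.K).K from algebraMap T.W.K E.K r) := by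
      obtain ⟨q, rfl⟩ := T.rat r
      change A.s (algebraMap T.W.K E.K q) = algebraMap T.W.K E.K q
      rw [map_ratCast, map_ratCast]
    rw [h2] at h1
    exact (congrArg (psi E X) h1).trans (psi_smul _ _)
  gr X i x hx := psi_gr (((toC A).gr).2 (Pool.Agent.Y121.AH.em_gr hx))
  map X Y f y := by
    change psi E X (toE A X (em T.W E.K (T.W.map f y))) = _
    rw [← Pool.Agent.Y121.AH.em_map, toE_nat, psi_map]
    rfl
  c := A.c
  ne := A.ne
  cl X j z hz := by
    change psi E X (toE A X (em T.W E.K (T.W.cl X z))) = _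
    have h1 := (toC A).cyc hz
    refine (congrArg (psi E X) h1).trans ?_
    have h2 : (toC A).c ^ j • (baseW E E.K).cl X z =
        (show (baseW E E.K).K from A.c ^ j) • em E E.K (E.cl X z) := rfl
    rw [h2, psi_smul, psi_em]
  tr X x := by
    change E.tr X (psi E X (toE A X (em T.W E.K x))) = _
    rw [← psi_tr]
    have h1 := (toC A).tr X (em T.W E.K x)
    rw [Pool.Agent.Y121.AH.em_tr] at h1
    refine Eq.trans h1 ?_
    have h2 : (toC A).s (ex T.W E.K (T.W.tr X x)) =
        (show (baseW E E.K).K from algebraMap T.W.K E.K (T.W.tr X x)) := by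
      obtain ⟨q, hq⟩ := T.rat (T.W.tr X x)
      rw [← hq]
      change A.s (algebraMap T.W.K E.K q) = algebraMap T.W.K E.K q
      rw [map_ratCast, map_ratCast]
    rw [h2]
    rfl
  span X := by
    rw [eq_top_iff]
    intro y _
    obtain ⟨z, rfl⟩ := (psi E X).surjective y
    obtain ⟨z, rfl⟩ := (toE A X).surjective z
    refine base_ind (p := fun z => psi E X (toE A X z) ∈ Submodule.span E.K
      (Set.range fun x => psi E X (toE A X (em T.W E.K x)))) ?_ ?_ z
    · intro l x
      have h1 := (toC A).semi X l (em T.W E.K x)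
      have h2 : toE A X (l • em T.W E.K x) =
          (show (baseW E E.K).K from A.s l) • toE A X (em T.W E.K x) := h1
      rw [h2, psi_smul]
      exact Submodule.smul_mem _ _ (Submodule.subset_span ⟨x, rfl⟩)
    · intro a b ha hb
      rw [map_add, map_add]
      exact Submodule.add_mem _ ha hb

theorem artOf_apply (A : Comparison T.W E E.K) (x : T.W.H X) :
    em E E.K ((artOf A).a X x) = toE A X (em T.W E.K x) := by
  rw [← psi_symm]
  exact (psi E X).symm_apply_apply _

/-- A combination of the images of Hodge classes. -/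
theorem isHodgeComb_of_mem (A : Comparison T.W E E.K) {j : ℕ} {c : E.H X}
    (h : c ∈ Submodule.span E.K ((artOf A).a X '' {x | IsHodge T X j x})) :
    IsHodgeComb A X j c := by
  refine Submodule.span_mono ?_ h
  rintro _ ⟨x, hx, rfl⟩
  exact ⟨x, hx, (artOf_apply A x).symm⟩

variable [Algebra E.K ℂ] {Γ : Type w} [Group Γ] [TopologicalSpace Γ] {G : GaloisAction E Γ}

theorem isAlg_iff {W : WeilCohomology.{u, 0} ops} {j : ℕ} {c : W.H X} :
    IsAlg W X j c ↔ c ∈ spanCycles W X j := by
  unfold IsAlg IsComb spanCycles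
  have h1 : {c : W.H X | ∃ z, X.IsCyc j z ∧ W.cl X z = id c} =
      {c | ∃ p : ℕ, (p : ℤ) = (j : ℤ) ∧ ∃ z, X.IsCyc p z ∧ W.cl X z = c} := by
    ext c
    constructor
    · rintro ⟨z, hz, rfl⟩
      exact ⟨j, rfl, z, hz, rfl⟩
    · rintro ⟨p, hp, z, hz, rfl⟩
      obtain rfl : p = j := by exact_mod_cast hp
      exact ⟨z, hz, rfl⟩
  rw [h1]

theorem tateFor_iff {E : WeilCohomology.{u, 0} ops} {Γ : Type w} [Group Γ]
    {G : GaloisAction E Γ} : TateFor G X ↔ TateConj G X :=
  ⟨fun h j c hc => isAlg_iff.1 (h j c hc), fun h j c hc => isAlg_iff.2 (h j c hc)⟩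

theorem b1_span (A : Comparison T.W E E.K) (H : HodgeTateComparison G T) {ℓ : ℕ}
    [Fact ℓ.Prime] (hX : IsLadic G ℓ X) (hss : ∀ i, SemisimpleAt G X i)
    (hTC : TateFor G (pw X 3)) (n j : ℕ) (c : E.H (pw X n))
    (hc : Pool.Agent.Q55.IsTate G (pw X n) j c) :
    c ∈ Submodule.span E.K ((artOf A).a (pw X n) '' {x | IsHodge T (pw X n) j x}) := by
  let _ : Algebra (toH T).W.K E.K := ‹Algebra T.W.K E.K›
  let A' : ArtC (toH T).W E :=
    { a := (artOf A).a
      smul := (artOf A).smul
      gr := (artOf A).gr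
      map := (artOf A).map
      c := (artOf A).c
      ne := (artOf A).ne
      cl := (artOf A).cl
      tr := (artOf A).tr
      span := (artOf A).span }
  refine tate_mem_span (T := toH T) (X := X) A' hX.hasLogs hss (tateFor_iff.1 hTC) (fun τ => toC (H.cmp τ)) ?_ ?_
    n j c hc
  · intro τ z
    have h1 := H.semi τ
    change (H.cmp τ).s z = τ z
    rw [h1]
  · intro τ Y j c hc
    obtain ⟨x, hx, hxc⟩ := H.tate τ Y j c hc
    exact ⟨x, hx, hxc⟩

/-- The comparison maps combinations of cycles to combinations of cycles. -/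
theorem a_spanCycles {W E : WeilCohomology.{u, 0} ops} [Algebra W.K E.K]
    (A : ArtC W E) {X : 𝒱.Obj} {q : ℤ} {x : W.H X} (hx : x ∈ spanCycles W X q) :
    A.a X x ∈ spanCycles E X q := by
  unfold spanCycles at hx
  induction hx using Submodule.span_induction with
  | mem x h =>
    obtain ⟨p, hp, z, hz, rfl⟩ := h
    rw [A.cl X p z hz]
    exact Submodule.smul_mem _ _ (Submodule.subset_span ⟨p, hp, z, hz, rfl⟩)
  | zero =>
    rw [map_zero]
    exact Submodule.zero_mem _
  | add a b _ _ ha hb =>
    rw [map_add]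
    exact Submodule.add_mem _ ha hb
  | smul r a _ ha =>
    rw [A.smul]
    exact Submodule.smul_mem _ _ ha

/-- **The main theorem for the Tate classes.** -/
theorem b1_main (A : Comparison T.W E E.K) (H : HodgeTateComparison G T) {ℓ : ℕ}
    [Fact ℓ.Prime] (hX : IsLadic G ℓ X) (hss : ∀ i, SemisimpleAt G X i)
    (hTC : TateFor G (pw X 3)) (n : ℕ) :
    (∀ j c, IsTate G (pw X n) j c → IsHodgeComb A (pw X n) j c) ∧
      (HodgeFor T (pw X n) → TateFor G (pw X n)) := by
  refine ⟨fun j c hc => isHodgeComb_of_mem A (b1_span A H hX hss hTC n j c hc), ?_⟩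
  intro hH j c hc
  have h2 : Submodule.span E.K ((artOf A).a (pw X n) '' {x | IsHodge T (pw X n) j x}) ≤
      spanCycles E (pw X n) j := by
    rw [Submodule.span_le]
    rintro _ ⟨x, hx, rfl⟩
    exact a_spanCycles (artOf A) (isAlg_iff.1 (hH j x hx))
  refine isAlg_iff.2 ?_
  exact h2 (b1_span A H hX hss hTC n j c hc)

end Pool.Agent.Q50.FP
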