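import Pool.Agent.Q60.TD.Defs
import Pool.Agent.Y121.AHS.Defs
import Mathlib.NumberTheory.Padics.PadicNumbers

/-!
# Betti, `ℓ`-adic and Hodge-Tate comparison: definitions

In the intended use `k` is an algebraic closure of a number field `F`, embedded into the complex
numbers, the varieties are the smooth projective ones over `k`, `T` is the rational cohomology of
the complex varieties with its Hodge decomposition, `E` is the `ℓ`-adic cohomology, and `Γ` is the
Galois group of `k` over `F`.
-/

open CategoryTheory AlgebraicGeometry

universe u w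

namespace Pool.Agent.Q50.FP

open Pool.Agent.H914 Pool.Agent.H914.VarClass Pool.Agent.H914.VarClass.Obj
  Pool.Agent.H914.WeilCohomology
open Pool.Agent.Q55 (GaloisAction SubAction Virtually)
open Pool.Agent.Y121.AHS (HodgeTheory HL emL IsType Comparison IsHodge)

section Alg

variable {Γ : Type w} [Group Γ] [TopologicalSpace Γ] {K A : Type} [Field K] [Ring A]
  [Algebra K A]

/-- The action of `Γ` on `A` is `ℓ`-adic: `Γ` is a compact topological group, an open subgroup acts,
the coefficients are isomorphic to `ℚ_ℓ`, and the action and the character are continuous. -/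
structure ActLadic (ρ : SubAction Γ K A) (χ : Γ →* Kˣ) (ℓ : ℕ) [Fact ℓ.Prime] : Prop where
  topGroup : IsTopologicalGroup Γ
  compact : CompactSpace Γ
  isOpen : IsOpen (ρ.dom : Set Γ)
  cont : ∃ e : K ≃+* ℚ_[ℓ],
    (∀ (c : A) (f : A →ₗ[K] K), Continuous fun g : ρ.dom => e (f (ρ.act g c))) ∧
    Continuous fun g : ρ.dom => e (χ g)

/-- The element `c` of `gr` is fixed, up to the twist by `χ ^ j`, by a subgroup of finite index. -/
def VirtFixed (ρ : SubAction Γ K A) (χ : Γ →* Kˣ) (gr : Submodule K A) (j : ℕ) (c : A) : Prop :=
  c ∈ gr ∧ Virtually (ρ.Twists χ j c)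

/-- The element `c` is a linear combination of elements `a` such that `g a = f b` for some `b` with
the property `p`. -/
def IsComb (K : Type) {A : Type} {B C : Type*} [Field K] [Ring A] [Algebra K A] (p : B → Prop)
    (f : B → C) (g : A → C) (c : A) : Prop :=
  c ∈ Submodule.span K {a | ∃ b, p b ∧ f b = g a}

end Alg

variable {k : Type u} [Field k] {𝒱 : VarClass k} {ops : CycleOps 𝒱}

/-- The class `c` is a linear combination of classes of algebraic cycles of codimension `j`. -/
def IsAlg (W : WeilCohomology.{u, 0} ops) (X : 𝒱.Obj) (j : ℕ) (c : W.H X) : Prop :=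
  IsComb W.K (X.IsCyc j) (W.cl X) id c

/-- The Hodge conjecture for `X`: every Hodge class is a linear combination of the classes of
algebraic cycles. -/
def HodgeFor (T : HodgeTheory ops) (X : 𝒱.Obj) : Prop :=
  ∀ j c, IsHodge T X j c → IsAlg T.W X j c

/-- The class `c` is a linear combination of classes which correspond to Hodge classes of degree
`2 j` under the comparison isomorphism `A` (with coefficients in the coefficient field of `E`). -/
def IsHodgeComb {T : HodgeTheory ops} {E : WeilCohomology.{u, 0} ops} [Algebra T.W.K E.K]
    (A : Comparison T.W E E.K) (X : 𝒱.Obj) (j : ℕ) (c : E.H X) : Prop :=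
  IsComb E.K (IsHodge T X j) (fun x => A.e X (emL T.W E.K x)) (emL E E.K) c

section Galois

variable {E : WeilCohomology.{u, 0} ops} {Γ : Type w} [Group Γ] (G : GaloisAction E Γ)

/-- The class `c` is a Tate class of degree `2 j`: it is fixed, up to the twist, by a subgroup of
finite index of `Γ`. -/
def IsTate (X : 𝒱.Obj) (j : ℕ) (c : E.H X) : Prop :=
  VirtFixed (G.ρ X) G.χ (E.gr X (2 * j)) j c

/-- The Tate conjecture for `X`: every Tate class is a linear combination of the classes of
algebraic cycles. -/
def TateFor (X : 𝒱.Obj) : Prop :=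
  ∀ j c, IsTate G X j c → IsAlg E X j c

/-- The action of `Γ` on the cohomology of `X` is `ℓ`-adic. -/
def IsLadic [TopologicalSpace Γ] (ℓ : ℕ) [Fact ℓ.Prime] (X : 𝒱.Obj) : Prop :=
  ActLadic (G.ρ X) G.χ ℓ

/-- The Hodge-Tate comparison. The field of complex numbers is identified with the completion of an
algebraic closure of `ℚ_ℓ`. For every automorphism `τ` of it (which gives an `ℓ`-adic place of `k`,
by composition with the embedding of `k` into the complex numbers) there is a `τ`-semilinear
isomorphism between the cohomology with complex coefficients and the `ℓ`-adic cohomology with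
coefficients extended to the complex numbers: both are direct sums of the extensions of the spaces
`H^q(X, Ω^p)`, by the Hodge decomposition and by the Hodge-Tate decomposition at this place. Every
Tate class of codimension `j` is of Hodge-Tate type `(j, j)`. -/
structure HodgeTateComparison (T : HodgeTheory ops) [Algebra E.K ℂ] where
  /-- the isomorphism for the automorphism `τ` -/
  cmp : ∀ _ : ℂ ≃+* ℂ, Comparison T.W E ℂ
  semi : ∀ τ : ℂ ≃+* ℂ, (cmp τ).s = τ
  tate : ∀ (τ : ℂ ≃+* ℂ) (X : 𝒱.Obj) (j : ℕ) (c : E.H X), IsTate G X j c →
    ∃ x : HL T.W ℂ X, IsType T.pq j j x ∧ (cmp τ).e X x = emL E ℂ c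

end Galois

end Pool.Agent.Q50.FP
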