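import Pool.Agent.Q50.FP.Frm
import Pool.Agent.Q50.FP.Core
import Pool.Agent.Y121.AH.Fix
import Pool.Agent.W516.DRCoef

/-!
# Forms and derivations after the extension of the coefficients
-/

open CategoryTheory AlgebraicGeometry TensorProduct

universe u

set_option linter.unusedSectionVars false

namespace Pool.Agent.Q50.FP

open Module Pool.Agent.H204R3.SP Pool.Agent.W516.DR
open Pool.Agent.H914 Pool.Agent.H914.VarClass Pool.Agent.H914.VarClass.Obj
  Pool.Agent.H914.WeilCohomology
open Pool.Agent.Y133.Half Pool.Agent.Y121.AH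

section two

variable {K V : Type*} [Field K] [AddCommGroup V] [Module K V]

/-- A bilinear form as a multilinear form in two variables. -/
def two (B : V →ₗ[K] V →ₗ[K] K) : MultilinearMap K (fun _ : Fin 2 => V) K where
  toFun v := B (v 0) (v 1)
  map_update_add' := by
    intro _ v i x y
    obtain rfl : ‹DecidableEq (Fin 2)› = instDecidableEqFin 2 := Subsingleton.elim _ _
    fin_cases i
    · simp
    · simp
  map_update_smul' := by
    intro _ v i c x
    obtain rfl : ‹DecidableEq (Fin 2)› = instDecidableEqFin 2 := Subsingleton.elim _ _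
    fin_cases i
    · simp
    · simp

theorem two_apply (B : V →ₗ[K] V →ₗ[K] K) (v : Fin 2 → V) : two B v = B (v 0) (v 1) := rfl

end two

variable {k : Type u} [Field k] {𝒱 : VarClass k} {ops : CycleOps 𝒱}
  {W : WeilCohomology.{u, 0} ops} {X Y : 𝒱.Obj} {n : ℕ} {L : Type} [Field L] [Algebra W.K L]

theorem em_one : em W L (1 : W.H X) = 1 := rfl

theorem em_prod : ∀ l : List (W.H X), em W L l.prod = (l.map (em W L)).prod
  | [] => em_one
  | a :: l => by
    rw [List.prod_cons, em_mul, List.map_cons, List.prod_cons, em_prod l]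

theorem base_mpr (v : Fin (n + 1) → W.H X) :
    mpr (baseW W L) X n (fun i => em W L (v i)) = em W L (mpr W X n v) := by
  rw [mpr_apply, mpr_apply, em_prod, List.map_ofFn]
  congr 2

/-- The form of the extension of a class. -/
theorem base_frm (c : W.H (pw X n)) (v : Fin (n + 1) → W.H X) :
    frm (baseW W L) X n (em W L c) (fun i => em W L (v i)) = ex W L (frm W X n c v) := by
  rw [frm_apply, base_mpr, ← em_mul, em_tr, frm_apply]

/-- The scalars in `L`. -/
def lam (ν : L →ₗ[W.K] W.K) (x : (baseW W L).K) : W.K := ν (show L from x)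

theorem lam_add (ν : L →ₗ[W.K] W.K) (x y : (baseW W L).K) :
    lam ν (x + y) = lam ν x + lam ν y := map_add ν x y

theorem lam_zero (ν : L →ₗ[W.K] W.K) : lam ν (0 : (baseW W L).K) = 0 := map_zero ν

theorem lam_neg (ν : L →ₗ[W.K] W.K) (x : (baseW W L).K) : lam ν (-x) = -lam ν x := map_neg ν x

theorem lam_sum (ν : L →ₗ[W.K] W.K) {ι : Type*} (s : Finset ι) (f : ι → (baseW W L).K) :
    lam ν (∑ i ∈ s, f i) = ∑ i ∈ s, lam ν (f i) := map_sum ν f s

/-- The component of an endomorphism. -/
noncomputable def cE (ν : L →ₗ[W.K] W.K) (A : Module.End (baseW W L).K ((baseW W L).H X)) :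
    Module.End W.K (W.H X) := cmpE (k := W.K) (L := L) (W := W.H X) ν A

/-- The component of a class. -/
noncomputable def cC (ν : L →ₗ[W.K] W.K) (z : (baseW W L).H X) : W.H X :=
  cmp (k := W.K) (L := L) (W := W.H X) ν z

theorem cE_apply (ν : L →ₗ[W.K] W.K) (A : Module.End (baseW W L).K ((baseW W L).H X))
    (x : W.H X) : cE ν A x = cC ν (A (em W L x)) := rfl

theorem base_ind {p : (baseW W L).H X → Prop}
    (h : ∀ (l : (baseW W L).K) (x : W.H X), p (l • em W L x))
    (hadd : ∀ a b, p a → p b → p (a + b)) (z : (baseW W L).H X) : p z := by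
  refine TensorProduct.induction_on (R := W.K) (M := L) (N := W.H X)
    (motive := fun z => p (show (baseW W L).H X from z)) z ?_ ?_ ?_
  · have h1 := h 0 0
    rw [zero_smul] at h1
    exact h1
  · intro l x
    have h1 := h (show (baseW W L).K from l) x
    have h2 : (show (baseW W L).K from l) • em W L x =
        (show (baseW W L).H X from (l ⊗ₜ[W.K] x : L ⊗[W.K] W.H X)) := by
      change l • ((1 : L) ⊗ₜ[W.K] x) = _
      rw [TensorProduct.smul_tmul', smul_eq_mul, mul_one]
    rwa [h2] at h1
  · intro a b ha hb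
    exact hadd _ _ ha hb

theorem cC_smul_em (ν : L →ₗ[W.K] W.K) (l : (baseW W L).K) (x : W.H X) :
    cC ν (l • em W L x) = lam ν l • x := by
  have h2 : l • em W L x =
      (show (baseW W L).H X from ((show L from l) ⊗ₜ[W.K] x : L ⊗[W.K] W.H X)) := by
    change (show L from l) • ((1 : L) ⊗ₜ[W.K] x) = _
    rw [TensorProduct.smul_tmul', smul_eq_mul, mul_one]
  rw [h2]
  rfl

theorem cC_add (ν : L →ₗ[W.K] W.K) (a b : (baseW W L).H X) :
    cC ν (a + b) = cC ν a + cC ν b :=
  map_add (cmp (k := W.K) (L := L) (W := W.H X) ν) a b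

theorem lam_mul_ex (ν : L →ₗ[W.K] W.K) (l : (baseW W L).K) (r : W.K) :
    lam ν (l * ex W L r) = lam ν l * r := by
  change ν ((show L from l) * algebraMap W.K L r) = ν (show L from l) * r
  rw [mul_comm, ← Algebra.smul_def, map_smul, smul_eq_mul, mul_comm]

/-- The components of the values of a form. -/
theorem base_cmp (ν : L →ₗ[W.K] W.K) (c : W.H (pw X n)) (v : Fin (n + 1) → W.H X)
    (i : Fin (n + 1)) (z : (baseW W L).H X) :
    lam ν (frm (baseW W L) X n (em W L c) (Function.update (fun j => em W L (v j)) i z)) =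
      frm W X n c (Function.update v i (cC ν z)) := by
  refine base_ind (p := fun z => lam ν (frm (baseW W L) X n (em W L c)
    (Function.update (fun j => em W L (v j)) i z)) =
      frm W X n c (Function.update v i (cC ν z))) ?_ ?_ z
  · intro l x
    rw [MultilinearMap.map_update_smul, cC_smul_em, MultilinearMap.map_update_smul, smul_eq_mul,
      smul_eq_mul]
    have h1 : Function.update (fun j => em W L (v j)) i (em W L x) =
        fun j => em W L (Function.update v i x j) := by
      funext j
      by_cases hj : j = i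
      · subst hj
        rw [Function.update_self, Function.update_self]
      · rw [Function.update_of_ne hj, Function.update_of_ne hj]
    rw [h1, base_frm, lam_mul_ex]
  · intro a b ha hb
    rw [MultilinearMap.map_update_add, lam_add, ha, hb, cC_add, MultilinearMap.map_update_add]

variable {D : ∀ Y : 𝒱.Obj, Module.End (baseW W L).K ((baseW W L).H Y)}

/-- The action of the component of a derivation. -/
theorem base_drv (hD : Drv (baseW W L) D 0) (ν : L →ₗ[W.K] W.K) (c : W.H (pw X n))
    (v : Fin (n + 1) → W.H X) :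
    ∑ i, frm W X n c (Function.update v i (cE ν (D X) (v i))) =
      -lam ν (frm (baseW W L) X n (D _ (em W L c)) (fun i => em W L (v i))) := by
  have h1 := hD.frm (em W L c) (fun i => em W L (v i))
  rw [zero_mul, zero_mul, zero_sub] at h1
  rw [← lam_neg, ← h1, lam_sum]
  refine Finset.sum_congr rfl fun i _ => ?_
  rw [base_cmp, cE_apply]

theorem kills_of_drv (hD : Drv (baseW W L) D 0) (ν : L →ₗ[W.K] W.K) {c : W.H (pw X n)}
    (hc : D _ (em W L c) = 0) : Kills (cE ν (D X)) (frm W X n c) := by
  intro v
  rw [base_drv hD, hc]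
  have h1 : frm (baseW W L) X n 0 = 0 := map_zero (frmL (baseW W L) X n)
  rw [h1]
  change -lam ν (0 : (baseW W L).K) = 0
  rw [lam_zero, neg_zero]

theorem drv_of_kills (hD : Drv (baseW W L) D 0) {c : W.H (pw X n)}
    (hc : ∀ ν : L →ₗ[W.K] W.K, Kills (cE ν (D X)) (frm W X n c)) : D _ (em W L c) = 0 := by
  apply frm_injective
  have h1 : frm (baseW W L) X n 0 = 0 := map_zero (frmL (baseW W L) X n)
  rw [h1]
  let e := Module.finBasis W.K (W.H X)
  let eb : Basis (Fin (finrank W.K (W.H X))) (baseW W L).K ((baseW W L).H X) := e.baseChange L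
  have he : ∀ i, eb i = em W L (e i) := fun i => Basis.baseChange_apply L e i
  refine Basis.ext_multilinear (fun _ => eb) fun w => ?_
  simp only [he]
  have h2 : ∀ ν : L →ₗ[W.K] W.K,
      ν (frm (baseW W L) X n (D _ (em W L c)) (fun i => em W L (e (w i)))) = 0 := by
    intro ν
    have h3 := base_drv hD ν c (fun i => e (w i))
    rw [hc ν] at h3
    have h4 := neg_eq_zero.1 h3.symm
    exact h4
  exact eq_zero_of_dual (k := W.K) (L := L) h2

/-! ### Traces -/

theorem coord_cC (ν : L →ₗ[W.K] W.K) {ι : Type} [Fintype ι] [DecidableEq ι]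
    (b : Basis ι W.K (W.H X)) (z : L ⊗[W.K] W.H X) (i : ι) :
    b.repr (cmp ν z) i = ν ((b.baseChange L).repr z i) := by
  induction z with
  | zero => simp only [map_zero, Finsupp.zero_apply]
  | add z z' h h' => simp only [map_add, Finsupp.add_apply, h, h']
  | tmul a w =>
    rw [cmp_tmul, map_smul, Finsupp.smul_apply, Basis.baseChange_repr_tmul]
    rw [map_smul, smul_eq_mul, smul_eq_mul, mul_comm]

/-- The trace of the component is the component of the trace. -/
theorem trace_cmpE (ν : L →ₗ[W.K] W.K) (A : Module.End L (L ⊗[W.K] W.H X)) :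
    LinearMap.trace W.K (W.H X) (cmpE ν A) = ν (LinearMap.trace L (L ⊗[W.K] W.H X) A) := by
  classical
  let b := Module.finBasis W.K (W.H X)
  rw [LinearMap.trace_eq_matrix_trace W.K b, LinearMap.trace_eq_matrix_trace L (b.baseChange L),
    Matrix.trace, Matrix.trace, map_sum]
  refine Finset.sum_congr rfl fun i _ => ?_
  rw [Matrix.diag_apply, Matrix.diag_apply, LinearMap.toMatrix_apply, LinearMap.toMatrix_apply,
    cmpE_apply, coord_cC, Basis.baseChange_apply]

/-- The trace of the product with a rational endomorphism. -/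
theorem trace_cmpE_mul (ν : L →ₗ[W.K] W.K) (A : Module.End L (L ⊗[W.K] W.H X))
    (e : Module.End W.K (W.H X)) :
    LinearMap.trace W.K (W.H X) (cmpE ν A * e) =
      ν (LinearMap.trace L (L ⊗[W.K] W.H X) (A * e.baseChange L)) := by
  rw [← trace_cmpE]
  congr 1

/-! ### The duality form -/

/-- The form `tr (a b)`. -/
noncomputable def prg (W : WeilCohomology.{u, 0} ops) (X : 𝒱.Obj) :
    W.H X →ₗ[W.K] W.H X →ₗ[W.K] W.K :=
  (LinearMap.mul W.K (W.H X)).compr₂ (W.tr X)

theorem prg_apply (a b : W.H X) : prg W X a b = W.tr X (a * b) := rfl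

theorem prg_nondeg (u : W.H X) (h : ∀ v, prg W X u v = 0) : u = 0 := W.nondeg u h

theorem base_prg (a b : W.H X) : prg (baseW W L) X (em W L a) (em W L b) = ex W L (prg W X a b) := by
  rw [prg_apply, ← em_mul, em_tr, prg_apply]

/-- The extension of an endomorphism. -/
noncomputable def bc (L : Type) [Field L] [Algebra W.K L] (e : Module.End W.K (W.H X)) :
    Module.End (baseW W L).K ((baseW W L).H X) := e.baseChange L

theorem bc_em (e : Module.End W.K (W.H X)) (x : W.H X) : bc L e (em W L x) = em W L (e x) :=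
  LinearMap.baseChange_tmul e (1 : L) x

/-- The endomorphism given by a class on the square, after the extension. -/
theorem base_end {c : W.H (pw X 1)} {e : Module.End W.K (W.H X)}
    (h : ∀ v, frm W X 1 c v = prg W X (e (v 0)) (v 1)) (v : Fin 2 → (baseW W L).H X) :
    frm (baseW W L) X 1 (em W L c) v = prg (baseW W L) X (bc L e (v 0)) (v 1) := by
  have h1 : frm (baseW W L) X 1 (em W L c) = two ((prg (baseW W L) X).comp (bc L e)) := by
    let b := Module.finBasis W.K (W.H X)
    let eb : Basis (Fin (finrank W.K (W.H X))) (baseW W L).K ((baseW W L).H X) := b.baseChange L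
    have he : ∀ i, eb i = em W L (b i) := fun i => Basis.baseChange_apply L b i
    refine Basis.ext_multilinear (fun _ => eb) fun w => ?_
    simp only [he]
    rw [base_frm, h, two_apply, LinearMap.comp_apply, bc_em, base_prg]
  rw [h1]
  rfl

theorem two_dim (d : ℕ) : (1 + 1) * d = d + d := by ring

end Pool.Agent.Q50.FP
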