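import Pool.Agent.Q50.FP.Artin
import Pool.Agent.TH119.MX.Gal

/-!
# The fourth power decides: the Mumford-Tate algebra is contained in the algebra of the Tate classes
-/

open CategoryTheory AlgebraicGeometry TensorProduct

universe u w

set_option linter.unusedSectionVars false

namespace Pool.Agent.Q50.FP

open Module Pool.Agent.H204R3.SP Pool.Agent.W516.DR Pool.Agent.TH119.DR
open Pool.Agent.H914 Pool.Agent.H914.VarClass Pool.Agent.H914.VarClass.Obj
  Pool.Agent.H914.WeilCohomology
open Pool.Agent.Y133.Half Pool.Agent.Y121.AH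
open Pool.Agent.Q55 (GaloisAction SubAction Virtually TateConj tatePred)
open Pool.Agent.Q60.TD (SemisimpleAt)

section desc

variable {F : Type} [Field F] [Algebra F ℂ] (hrat : ∀ r : F, ∃ q : ℚ, (q : F) = r)

include hrat in
theorem aut_fix (σ : ℂ ≃+* ℂ) (r : F) : σ (algebraMap F ℂ r) = algebraMap F ℂ r := by
  obtain ⟨q, rfl⟩ := hrat r
  rw [map_ratCast, map_ratCast]

/-- A linear map from the complex numbers to the rational numbers is a combination of automorphisms
on every finite dimensional space. -/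
theorem exists_auts (hrat : ∀ r : F, ∃ q : ℚ, (q : F) = r) {S : Type*} [AddCommGroup S]
    [Module F S] [FiniteDimensional F S] (t : S →ₗ[F] ℂ) (ν : ℂ →ₗ[F] F) :
    ∃ (J : Type) (s : Finset J) (c : J → ℂ) (σ : J → (ℂ ≃+* ℂ)),
      ∀ x : S, ∑ j ∈ s, c j * σ j (t x) = algebraMap F ℂ (ν (t x)) := by
  classical
  have : CharZero F := (algebraMap F ℂ).charZero
  let b := Module.finBasis F S
  let w : Fin (finrank F S) → ℂ := fun i => t (b i)
  let U : Submodule ℂ (Fin (finrank F S) → ℂ) :=
    Submodule.span ℂ (Set.range fun σ : ℂ ≃+* ℂ => fun i => σ (w i))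
  have hU : DefOver (⊥ : Subfield ℂ) U := by
    refine Pool.Agent.TH119.MX.defOver_of_aut U fun τ _ v hv => ?_
    induction hv using Submodule.span_induction with
    | mem x h =>
      obtain ⟨σ, rfl⟩ := h
      exact Submodule.subset_span ⟨σ.trans τ, rfl⟩
    | zero =>
      simp only [Pi.zero_apply, map_zero]
      exact U.zero_mem
    | add x y _ _ hx hy =>
      have h3 : (fun i => τ ((x + y) i)) = (fun i => τ (x i)) + fun i => τ (y i) := by
        funext a
        simp
      rw [h3]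
      exact U.add_mem hx hy
    | smul r x _ hx =>
      have h3 : (fun i => τ ((r • x) i)) = τ r • fun i => τ (x i) := by
        funext a
        simp
      rw [h3]
      exact U.smul_mem _ hx
  -- the linear map as a map over the prime field
  let f : ℂ →ₗ[(⊥ : Subfield ℂ)] ℂ :=
    { toFun := fun z => algebraMap F ℂ (ν z)
      map_add' := fun x y => by rw [map_add, map_add]
      map_smul' := fun r z => by
        obtain ⟨r, hr⟩ := r
        have hq : ∃ q : ℚ, (q : ℂ) = r := by
          rw [Subfield.bot_eq_of_charZero] at hr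
          obtain ⟨q, hq⟩ := hr
          exact ⟨q, hq⟩
        obtain ⟨q, rfl⟩ := hq
        change algebraMap F ℂ (ν ((q : ℂ) * z)) = (q : ℂ) * algebraMap F ℂ (ν z)
        have h1 : (q : ℂ) * z = (q : F) • z := by
          rw [Algebra.smul_def, map_ratCast]
        rw [h1, map_smul, smul_eq_mul, map_mul, map_ratCast] }
  have hw : w ∈ U := Submodule.subset_span ⟨RingEquiv.refl ℂ, rfl⟩
  have h1 : (fun i => f (w i)) ∈ U := hU.map f hw
  obtain ⟨c, hc⟩ := (Finsupp.mem_span_range_iff_exists_finsupp).1 h1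
  -- transfer the index set to a type in `Type`
  refine ⟨ℂ ≃+* ℂ, c.support, c, id, fun x => ?_⟩
  have h2 : ∀ i, ∑ σ ∈ c.support, c σ * σ (w i) = algebraMap F ℂ (ν (w i)) := by
    intro i
    have h3 := congrFun hc i
    rw [Finsupp.sum, Finset.sum_apply] at h3
    exact h3
  have h3 : t x = ∑ i, algebraMap F ℂ (b.repr x i) * w i := by
    conv_lhs => rw [← b.sum_repr x, map_sum]
    exact Finset.sum_congr rfl fun i _ => by rw [map_smul, Algebra.smul_def]
  have h4 : ν (t x) = ∑ i, b.repr x i * ν (w i) := by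
    conv_lhs => rw [← b.sum_repr x, map_sum, map_sum]
    exact Finset.sum_congr rfl fun i _ => by rw [map_smul, map_smul, smul_eq_mul]
  rw [h4, map_sum]
  simp only [id, h3, map_sum, map_mul, Finset.mul_sum]
  rw [Finset.sum_comm]
  refine Finset.sum_congr rfl fun i _ => ?_
  rw [← h2, Finset.mul_sum]
  refine Finset.sum_congr rfl fun σ _ => ?_
  rw [aut_fix hrat]
  ring

end desc

variable {k : Type u} [Field k] {𝒱 : VarClass k} {ops : CycleOps 𝒱}
  {T : HodgeTheory ops} {E : WeilCohomology.{u, 0} ops} [Algebra T.W.K E.K] [Algebra E.K ℂ]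
  {X : 𝒱.Obj} {n : ℕ} {Γ : Type w} [Group Γ] {G : GaloisAction E Γ}

theorem alg_tower (r : T.W.K) :
    algebraMap E.K ℂ (algebraMap T.W.K E.K r) = algebraMap T.W.K ℂ r := by
  obtain ⟨q, rfl⟩ := T.rat r
  rw [map_ratCast, map_ratCast, map_ratCast]

/-- A retraction of the complex numbers to the field of coefficients. -/
theorem exists_retract' (K : Type) [Field K] [Algebra K ℂ] :
    ∃ lam : ℂ →ₗ[K] K, ∀ r : K, lam (algebraMap K ℂ r) = r := by
  obtain ⟨f, hf⟩ := (Algebra.linearMap K ℂ).exists_leftInverse_of_injective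
    (LinearMap.ker_eq_bot.2 (algebraMap K ℂ).injective)
  exact ⟨f, fun r => LinearMap.congr_fun hf r⟩

/-- The components of the transported Hodge operators are elements of the Lie algebra. -/
theorem theta_gal (C : Comparison (CW T) (baseW E ℂ))
    (hT : ∀ (Y : 𝒱.Obj) (j : ℕ) (c : E.H Y), Pool.Agent.Q55.IsTate G Y j c →
      ∃ x ∈ T.pq Y j j, C.e Y x = em E ℂ c) (lam : ℂ →ₗ[E.K] E.K) :
    cE lam (theta C X) ∈ gal G X := by
  intro n M φ hφ
  obtain ⟨c, rfl⟩ := frm_surjective φ
  rcases tform_le hφ with hM | rfl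
  · have h1 := tate_of_tform (j := (pw X n).dim - M) (by omega) hφ
    obtain ⟨x, hx, hxc⟩ := hT _ _ _ h1
    refine kills_of_drv (theta_drv C) lam ?_
    rw [← hxc]
    exact theta_type C hx
  · have h1 : frm E X n 0 = 0 := map_zero (frmL E X n)
    rw [h1]
    exact kills_zero

/-- **The components of the Hodge operator are elements of the Lie algebra of the Tate classes.** -/
theorem yy_gal (A : ArtC T.W E) (hlog : HasLogs G X)
    (hss : ∀ i, SemisimpleAt G X i) (hTC : TateConj G (pw X 3))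
    (C : ∀ _ : ℂ ≃+* ℂ, Comparison (CW T) (baseW E ℂ))
    (hC : ∀ (τ : ℂ ≃+* ℂ) (z : ℂ), (show ℂ from (C τ).s z) = τ z)
    (hT : ∀ (τ : ℂ ≃+* ℂ) (Y : 𝒱.Obj) (j : ℕ) (c : E.H Y), Pool.Agent.Q55.IsTate G Y j c →
      ∃ x ∈ T.pq Y j j, (C τ).e Y x = em E ℂ c) (ν : ℂ →ₗ[T.W.K] T.W.K) :
    A.ext (yy T X ν) ∈ gal G X := by
  classical
  obtain ⟨lm, hlam⟩ := exists_retract' E.K
  let t : Module.End T.W.K (T.W.H X) →ₗ[T.W.K] ℂ :=
    { toFun := fun e => LinearMap.trace ℂ (ℂ ⊗[T.W.K] T.W.H X)
        (Pool.Agent.Q50.BL.hop T X * e.baseChange ℂ)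
      map_add' := fun e e' => by
        rw [LinearMap.baseChange_add, mul_add, map_add]
      map_smul' := fun r e => by
        have h1 : (r • e).baseChange ℂ = (algebraMap T.W.K ℂ r) • e.baseChange ℂ := by
          rw [LinearMap.baseChange_smul, algebraMap_smul]
        rw [h1, mul_smul_comm, map_smul, RingHom.id_apply, smul_eq_mul, Algebra.smul_def] }
  obtain ⟨J, s, c, σ, hσ⟩ := exists_auts T.rat t ν
  let θ : Module.End E.K (E.H X) :=
    ∑ j ∈ s, cE (lm ∘ₗ LinearMap.mulLeft E.K (c j)) (theta (C (σ j)) X)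
  have hθ : θ ∈ gal G X :=
    Submodule.sum_mem _ fun j _ => theta_gal (C (σ j)) (hT (σ j)) _
  have hkill : KillsAlg E X (A.ext (yy T X ν)) := by
    intro n j z hz
    have h1 := A.kills_ext (yy_kills ν (hp_hodge (IsHodge.cl hz)))
    rw [A.cl _ j z hz, frm_smul] at h1
    have h2 := kills_smul (A.c ^ j)⁻¹ h1
    rwa [smul_smul, inv_mul_cancel₀ (A.cne j), one_smul] at h2
  have h1 := mem_galp_of hlog hss hTC hkill hθ (fun z hz e₁ he₁ => by
    obtain ⟨e₀, he₀⟩ := exists_end (W := T.W) (X := X) (T.W.cl _ z)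
    have h2 : e₁ = A.ext e₀ := A.end_eq (A.cl _ _ z hz) he₀ he₁
    have h3 : ∀ j ∈ s, LinearMap.trace E.K (E.H X)
        (cE (lm ∘ₗ LinearMap.mulLeft E.K (c j)) (theta (C (σ j)) X) * e₁) =
          lm (c j * σ j (t e₀)) := by
      intro j _
      have h4 := trace_cmpE_mul (W := E) (lm ∘ₗ LinearMap.mulLeft E.K (c j))
        (theta (C (σ j)) X) e₁
      have h5 := ep_trace (C (σ j)) ⟨z, hz, he₀, he₁⟩
      have h6 : (show ℂ from LinearMap.trace (baseW E ℂ).K ((baseW E ℂ).H X)
          (theta (C (σ j)) X * bc ℂ e₁)) = σ j (t e₀) := by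
        have h7 := hC (σ j) (t e₀)
        exact h5.trans h7
      have h8 := h4.trans (congrArg (lm ∘ₗ LinearMap.mulLeft E.K (c j)) h6)
      exact h8
    have h4 : LinearMap.trace E.K (E.H X) (θ * e₁) = lm (algebraMap T.W.K ℂ (ν (t e₀))) := by
      rw [Finset.sum_mul, map_sum, Finset.sum_congr rfl h3, ← map_sum, hσ]
    rw [h4, ← alg_tower (E := E), hlam, h2, ← A.ext_mul, A.ext_trace, yy_trace]
    rfl)
  refine gal_of_galp h1 ?_
  -- the trace
  have h2 : (E.tr X).comp (A.ext (yy T X ν)) = 0 := by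
    obtain ⟨b', hb, -⟩ := A.exists_basis (Module.finBasis T.W.K (T.W.H X))
    refine b'.ext fun i => ?_
    rw [hb, LinearMap.comp_apply, A.ext_apply, A.tr, LinearMap.zero_apply]
    have h3 : ∀ x : T.W.H X, T.W.tr X (yy T X ν x) = 0 := by
      intro x
      have h4 : ∀ z : (CW T).H X, T.W.tr X (cC ν z) = lam ν ((CW T).tr X z) := by
        intro z
        refine base_ind (p := fun z => T.W.tr X (cC ν z) = lam ν ((CW T).tr X z)) ?_ ?_ z
        · intro l x
          rw [cC_smul_em, map_smul, map_smul, em_tr, smul_eq_mul, smul_eq_mul]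
          exact (lam_mul_ex ν l _).symm
        · intro a b ha hb
          rw [cC_add, map_add, map_add, ha, hb]
          exact (lam_add ν _ _).symm
      have h5 := h4 (hp T X (em T.W ℂ x))
      rw [hp_tr] at h5
      exact h5.trans (lam_zero ν)
    rw [h3, map_zero, mul_zero]
  exact fun x => LinearMap.congr_fun h2 x

end Pool.Agent.Q50.FP
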