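import Pool.Agent.Y133.Half.Growth
import Pool.Agent.Y121.AH.Gop
import Pool.Agent.H204R3.SP.Lie

/-!
# The multilinear form given by a class on a power

A class `c` on `X ^ (n + 1)` gives the multilinear form `a ↦ tr (c a_0 ⊗ ... ⊗ a_n)` on `H(X)`.
-/

open CategoryTheory AlgebraicGeometry TensorProduct

universe u

set_option linter.unusedSectionVars false

namespace Pool.Agent.Q50.FP

open Module Pool.Agent.H204R3.SP
open Pool.Agent.H914 Pool.Agent.H914.VarClass Pool.Agent.H914.VarClass.Obj
  Pool.Agent.H914.WeilCohomology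
open Pool.Agent.Y133.Half

variable {k : Type u} [Field k] {𝒱 : VarClass k} {ops : CycleOps 𝒱}
  (W : WeilCohomology.{u, 0} ops) (X : 𝒱.Obj)

/-- The product of the pull-backs. -/
noncomputable def mpr (n : ℕ) :
    MultilinearMap W.K (fun _ : Fin (n + 1) => W.H X) (W.H (pw X n)) :=
  (MultilinearMap.mkPiAlgebraFin W.K (n + 1) (W.H (pw X n))).compLinearMap
    (fun i => (W.map (prj X n i)).toLinearMap)

/-- The form given by a class on a power. -/
noncomputable def frm (n : ℕ) (c : W.H (pw X n)) :
    MultilinearMap W.K (fun _ : Fin (n + 1) => W.H X) W.K :=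
  ((W.tr (pw X n)).comp (LinearMap.mulLeft W.K c)).compMultilinearMap (mpr W X n)

variable {W X} {n : ℕ}

theorem mpr_apply (v : Fin (n + 1) → W.H X) :
    mpr W X n v = (List.ofFn fun i => W.map (prj X n i) (v i)).prod := by
  rw [mpr, MultilinearMap.compLinearMap_apply, MultilinearMap.mkPiAlgebraFin_apply]
  rfl

theorem frm_apply (c : W.H (pw X n)) (v : Fin (n + 1) → W.H X) :
    frm W X n c v = W.tr (pw X n) (c * mpr W X n v) := rfl

theorem mpr_wb {ι : Type} [Fintype ι] [DecidableEq ι] (e : Basis ι W.K (W.H X))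
    (w : Fin (n + 1) → ι) : mpr W X n (fun i => e (w i)) = wb e n w := by
  rw [mpr_apply, wb_eq]

theorem frm_add (c d : W.H (pw X n)) : frm W X n (c + d) = frm W X n c + frm W X n d := by
  ext v
  rw [MultilinearMap.add_apply, frm_apply, frm_apply, frm_apply, add_mul, map_add]

theorem frm_smul (r : W.K) (c : W.H (pw X n)) : frm W X n (r • c) = r • frm W X n c := by
  ext v
  rw [MultilinearMap.smul_apply, frm_apply, frm_apply, smul_mul_assoc, map_smul]

/-- The form as a linear function of the class. -/
noncomputable def frmL (W : WeilCohomology.{u, 0} ops) (X : 𝒱.Obj) (n : ℕ) :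
    W.H (pw X n) →ₗ[W.K] MultilinearMap W.K (fun _ : Fin (n + 1) => W.H X) W.K where
  toFun := frm W X n
  map_add' := frm_add
  map_smul' := frm_smul

theorem frmL_apply (c : W.H (pw X n)) : frmL W X n c = frm W X n c := rfl

/-- The class is determined by its form. -/
theorem frm_injective : Function.Injective (frm W X n) := by
  intro c d h
  rw [← sub_eq_zero]
  apply W.nondeg
  intro x
  let e := Module.finBasis W.K (W.H X)
  have h1 : (W.tr (pw X n)).comp (LinearMap.mulLeft W.K (c - d)) = 0 := by
    refine (wb e n).ext fun w => ?_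
    rw [LinearMap.comp_apply, LinearMap.mulLeft_apply, LinearMap.zero_apply, ← mpr_wb, sub_mul,
      map_sub, ← frm_apply, ← frm_apply, h, sub_self]
  exact LinearMap.congr_fun h1 x

/-- Every linear form on the cohomology is the trace of the product with a class. -/
theorem exists_dual_class (W : WeilCohomology.{u, 0} ops) (Y : 𝒱.Obj) (f : W.H Y →ₗ[W.K] W.K) :
    ∃ c : W.H Y, ∀ x, W.tr Y (c * x) = f x := by
  let F : W.H Y →ₗ[W.K] Module.Dual W.K (W.H Y) :=
    { toFun := fun c => (W.tr Y).comp (LinearMap.mulLeft W.K c)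
      map_add' := fun c d => by
        ext x
        rw [LinearMap.add_apply, LinearMap.comp_apply, LinearMap.comp_apply, LinearMap.comp_apply,
          LinearMap.mulLeft_apply, LinearMap.mulLeft_apply, LinearMap.mulLeft_apply, add_mul,
          map_add]
      map_smul' := fun r c => by
        ext x
        rw [RingHom.id_apply, LinearMap.smul_apply, LinearMap.comp_apply, LinearMap.comp_apply,
          LinearMap.mulLeft_apply, LinearMap.mulLeft_apply, smul_mul_assoc, map_smul] }
  have hF : Function.Injective F := by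
    rw [← LinearMap.ker_eq_bot, LinearMap.ker_eq_bot']
    intro c hc
    apply W.nondeg
    intro x
    exact LinearMap.congr_fun hc x
  have hS : Function.Surjective F :=
    (LinearMap.injective_iff_surjective_of_finrank_eq_finrank
      (Subspace.dual_finrank_eq (K := W.K) (V := W.H Y)).symm).1 hF
  obtain ⟨c, hc⟩ := hS f
  exact ⟨c, fun x => LinearMap.congr_fun hc x⟩

/-- Every form is the form of a class. -/
theorem frm_surjective : Function.Surjective (frm W X n) := by
  intro φ
  let e := Module.finBasis W.K (W.H X)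
  obtain ⟨c, hc⟩ := exists_dual_class W (pw X n)
    ((wb e n).constr W.K fun w => φ (fun i => e (w i)))
  refine ⟨c, ?_⟩
  refine Basis.ext_multilinear (fun _ => e) fun w => ?_
  rw [frm_apply, mpr_wb, hc, Basis.constr_basis]

/-! ### Derivations -/

variable (W) in
/-- A family of derivations of the cohomology algebras which commute with the pull-backs and act on
the orientation by `t * dim`. -/
structure Drv (D : ∀ Y : 𝒱.Obj, Module.End W.K (W.H Y)) (t : W.K) : Prop where
  mul : ∀ (Y : 𝒱.Obj) (x y : W.H Y), D Y (x * y) = D Y x * y + x * D Y y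
  map : ∀ {Y Z : 𝒱.Obj} (f : Y ⟶ Z) (z : W.H Z), D Y (W.map f z) = W.map f (D Z z)
  tr : ∀ (Y : 𝒱.Obj) (x : W.H Y), W.tr Y (D Y x) = t * Y.dim * W.tr Y x

theorem derivation_one {R A : Type*} [CommRing R] [Ring A] [Algebra R A] {D : Module.End R A}
    (h : ∀ x y, D (x * y) = D x * y + x * D y) : D 1 = 0 := by
  have h1 := h 1 1
  rw [mul_one, one_mul, mul_one] at h1
  have h2 : D 1 + D 1 = D 1 + 0 := by rw [← h1, add_zero]
  exact add_left_cancel h2

theorem derivation_prod {R A : Type*} [CommRing R] [Ring A] [Algebra R A] {D : Module.End R A}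
    (h : ∀ x y, D (x * y) = D x * y + x * D y) : ∀ {n : ℕ} (f : Fin n → A),
    D (List.ofFn f).prod = ∑ i, (List.ofFn (Function.update f i (D (f i)))).prod
  | 0, f => by
    rw [List.ofFn_zero, List.prod_nil, derivation_one h, Finset.univ_eq_empty, Finset.sum_empty]
  | n + 1, f => by
    rw [List.ofFn_succ, List.prod_cons, h, derivation_prod h, Fin.sum_univ_succ]
    congr 1
    · rw [List.ofFn_succ, List.prod_cons, Function.update_self]
      congr 3
    · rw [Finset.mul_sum]
      refine Finset.sum_congr rfl fun i _ => ?_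
      rw [List.ofFn_succ, List.prod_cons, Function.update_of_ne (Fin.succ_ne_zero i).symm]
      congr 2
      congr 1
      funext j
      by_cases hj : j = i
      · subst hj
        rw [Function.update_self, Function.update_self]
      · rw [Function.update_of_ne hj, Function.update_of_ne fun h => hj (Fin.succ_injective _ h)]

variable {D : ∀ Y : 𝒱.Obj, Module.End W.K (W.H Y)} {t : W.K}

theorem Drv.mpr (hD : Drv W D t) (v : Fin (n + 1) → W.H X) :
    D (pw X n) (mpr W X n v) = ∑ i, mpr W X n (Function.update v i (D X (v i))) := by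
  rw [mpr_apply, derivation_prod (hD.mul _)]
  refine Finset.sum_congr rfl fun i _ => ?_
  rw [mpr_apply]
  congr 2
  funext j
  by_cases hj : j = i
  · subst hj
    rw [Function.update_self, Function.update_self, hD.map]
  · rw [Function.update_of_ne hj, Function.update_of_ne hj]

/-- The action of a derivation on the form of a class. -/
theorem Drv.frm (hD : Drv W D t) (c : W.H (pw X n)) (v : Fin (n + 1) → W.H X) :
    ∑ i, frm W X n c (Function.update v i (D X (v i))) =
      t * (pw X n).dim * frm W X n c v - frm W X n (D (pw X n) c) v := by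
  have h1 := hD.tr (pw X n) (c * FP.mpr W X n v)
  rw [hD.mul, map_add, hD.mpr, Finset.mul_sum, map_sum] at h1
  rw [frm_apply, frm_apply, ← h1, add_sub_cancel_left]
  rfl

/-- The degree derivation. -/
noncomputable def dg (W : WeilCohomology.{u, 0} ops) (Y : 𝒱.Obj) : Module.End W.K (W.H Y) :=
  Pool.Agent.Y121.AH.dia (W.isInternal Y) fun i => (i : W.K)

theorem dg_of {Y : 𝒱.Obj} {i : ℕ} {x : W.H Y} (hx : x ∈ W.gr Y i) :
    dg W Y x = (i : W.K) • x :=
  Pool.Agent.Y121.AH.dia_apply (W.isInternal Y) _ hx

theorem dg_ind {Y : 𝒱.Obj} {p : W.H Y → Prop} (h : ∀ i, ∀ x ∈ W.gr Y i, p x)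
    (hadd : ∀ a b, p a → p b → p (a + b)) (x : W.H Y) : p x :=
  gr_induction (W.isInternal Y) (p := p) h hadd x

theorem dg_drv : Drv W (dg W) 2 where
  mul Y x y := by
    refine dg_ind (p := fun x => dg W Y (x * y) = dg W Y x * y + x * dg W Y y) ?_ ?_ x
    · intro i x hx
      refine dg_ind (p := fun y => dg W Y (x * y) = dg W Y x * y + x * dg W Y y) ?_ ?_ y
      · intro j y hy
        rw [dg_of hx, dg_of hy, dg_of (W.mul_mem hx hy), smul_mul_assoc, mul_smul_comm, ← add_smul,
          Nat.cast_add]
      · intro a b ha hb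
        rw [mul_add, map_add, ha, hb, map_add, mul_add, mul_add]
        abel
    · intro a b ha hb
      rw [add_mul, map_add, ha, hb, map_add, add_mul, add_mul]
      abel
  map {Y Z} f z := by
    refine dg_ind (p := fun z => dg W Y (W.map f z) = W.map f (dg W Z z)) ?_ ?_ z
    · intro i x hx
      rw [dg_of hx, dg_of (W.map_mem f hx), map_smul]
    · intro a b ha hb
      rw [map_add, map_add, ha, hb, map_add, map_add]
  tr Y x := by
    refine dg_ind (p := fun x => W.tr Y (dg W Y x) = 2 * Y.dim * W.tr Y x) ?_ ?_ x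
    · intro i x hx
      rw [dg_of hx, map_smul, smul_eq_mul]
      by_cases h : i = 2 * Y.dim
      · rw [h]
        push_cast
        ring
      · rw [W.tr_eq_zero hx h, mul_zero, mul_zero]
    · intro a b ha hb
      rw [map_add, map_add, ha, hb, map_add]
      ring

theorem dim_pw (X : 𝒱.Obj) : ∀ n, (pw X n).dim = (n + 1) * X.dim
  | 0 => by rw [zero_add, one_mul]; rfl
  | n + 1 => by
    change (pw X n).dim + X.dim = _
    rw [dim_pw X n]
    ring

/-- A class is the sum of its components. -/
theorem exists_sum_proj {Y : 𝒱.Obj} (c : W.H Y) : ∃ N, ∀ n' ≥ N, c = ∑ i ∈ Finset.range n',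
    H914.proj (W.isInternal Y) i c := by
  refine dg_ind (p := fun y => ∃ N, ∀ n' ≥ N, y = ∑ i ∈ Finset.range n',
    H914.proj (W.isInternal Y) i y) ?_ ?_ c
  · intro j a ha
    refine ⟨j + 1, fun n hn => ?_⟩
    rw [Finset.sum_eq_single j, proj_same _ ha]
    · intro i _ hij; exact proj_ne _ ha (Ne.symm hij)
    · intro h'; exact absurd (Finset.mem_range.2 (by omega)) h'
  · rintro a b ⟨N, hN⟩ ⟨M, hM⟩
    refine ⟨max N M, fun n hn => ?_⟩
    simp only [map_add]
    rw [Finset.sum_add_distrib, ← hN n (le_trans (le_max_left _ _) hn),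
      ← hM n (le_trans (le_max_right _ _) hn)]

theorem eq_zero_of_proj {Y : 𝒱.Obj} {c : W.H Y}
    (h : ∀ i, H914.proj (W.isInternal Y) i c = 0) : c = 0 := by
  obtain ⟨N, hN⟩ := exists_sum_proj c
  rw [hN N le_rfl]
  exact Finset.sum_eq_zero fun i _ => h i

theorem proj_dg {Y : 𝒱.Obj} (i : ℕ) (y : W.H Y) : H914.proj (W.isInternal Y) i (dg W Y y) =
    (i : W.K) • H914.proj (W.isInternal Y) i y := by
  refine dg_ind (p := fun y => H914.proj (W.isInternal Y) i (dg W Y y) =
    (i : W.K) • H914.proj (W.isInternal Y) i y) ?_ ?_ y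
  · intro l y hy
    rw [dg_of hy, map_smul]
    by_cases hl : l = i
    · rw [hl]
    · rw [proj_ne _ hy hl, smul_zero, smul_zero]
  · intro a b ha hb
    rw [map_add, map_add, ha, hb, map_add, smul_add]

/-- The classes of degree `i`. -/
theorem mem_gr_iff {Y : 𝒱.Obj} {i : ℕ} {x : W.H Y} :
    x ∈ W.gr Y i ↔ dg W Y x = (i : W.K) • x := by
  refine ⟨dg_of, fun h => ?_⟩
  have h0 : ∀ j, j ≠ i → H914.proj (W.isInternal Y) j x = 0 := by
    intro j hj
    have h1 := proj_dg j x
    rw [h, map_smul, ← sub_eq_zero, ← sub_smul] at h1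
    rcases smul_eq_zero.1 h1 with h2 | h2
    · exfalso
      exact hj (Nat.cast_injective (R := W.K) (sub_eq_zero.1 h2)).symm
    · exact h2
  have h3 : x - H914.proj (W.isInternal Y) i x = 0 := by
    apply eq_zero_of_proj
    intro j
    rw [map_sub]
    by_cases hj : j = i
    · subst hj
      rw [proj_same _ (proj_mem _ _ _), sub_self]
    · rw [h0 j hj, proj_ne _ (proj_mem _ _ _) (Ne.symm hj), sub_self]
  rw [sub_eq_zero.1 h3]
  exact proj_mem _ _ _

/-- The eigenvalues of the degree operator are natural numbers. -/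
theorem eq_zero_of_dg {Y : 𝒱.Obj} {x : W.H Y} {r : W.K} (h : dg W Y x = r • x)
    (hr : ∀ i : ℕ, (i : W.K) ≠ r) : x = 0 := by
  apply eq_zero_of_proj
  intro i
  have h1 := proj_dg i x
  rw [h, map_smul, ← sub_eq_zero, ← sub_smul] at h1
  rcases smul_eq_zero.1 h1 with h2 | h2
  · exact absurd (sub_eq_zero.1 h2).symm (hr i)
  · exact h2

end Pool.Agent.Q50.FP
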