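import Pool.Agent.Q50.FP.Gal2
import Pool.Agent.Q60.TD.Pair

/-!
# The Lie algebra of the Tate forms acts semisimply
-/

open CategoryTheory AlgebraicGeometry TensorProduct

universe u w

set_option linter.unusedSectionVars false

namespace Pool.Agent.Q50.FP

open Module Pool.Agent.H204R3.SP Pool.Agent.W516.KC
open Pool.Agent.H914 Pool.Agent.H914.VarClass Pool.Agent.H914.VarClass.Obj
  Pool.Agent.H914.WeilCohomology
open Pool.Agent.Y133.Half
open Pool.Agent.Q55 (GaloisAction SubAction Virtually TateConj)
open Pool.Agent.Q60.TD (SemisimpleAt rep rep_apply exists_good act_one Stab SSon Op stab_op mem_Op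
  ssAt_iff gr_stab)

variable {k : Type u} [Field k] {𝒱 : VarClass k} {ops : CycleOps 𝒱}
  {W : WeilCohomology.{u, 0} ops} {X : 𝒱.Obj} {n : ℕ} {Γ : Type w} [Group Γ]
  {G : GaloisAction W Γ}

section proj

variable {K V : Type*} [Field K] [AddCommGroup V] [Module K V]

/-- The projection commutes with the endomorphisms which preserve the two subspaces. -/
theorem proj_comm {U C : Submodule K V} (h : IsCompl U C) {A : Module.End K V}
    (hU : ∀ u ∈ U, A u ∈ U) (hC : ∀ u ∈ C, A u ∈ C) (x : V) :
    A (U.projection C h x) = U.projection C h (A x) := by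
  obtain ⟨u, hu, c, hc, rfl⟩ : ∃ u ∈ U, ∃ c ∈ C, u + c = x := by
    have h1 : x ∈ U ⊔ C := by rw [h.sup_eq_top]; trivial
    exact Submodule.mem_sup.1 h1
  rw [map_add, map_add, map_add, map_add, Submodule.projection_apply_of_mem_left h hu,
    (Submodule.projection_apply_eq_zero_iff h).2 hc, map_zero,
    Submodule.projection_apply_of_mem_left h (hU u hu),
    (Submodule.projection_apply_eq_zero_iff h).2 (hC c hc)]

end proj

theorem proj_act (s : (G.ρ X).dom) (i : ℕ) (x : W.H X) :
    H914.proj (W.isInternal X) i (rep G X s x) = rep G X s (H914.proj (W.isInternal X) i x) := by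
  refine dg_ind (p := fun x => H914.proj (W.isInternal X) i (rep G X s x) =
    rep G X s (H914.proj (W.isInternal X) i x)) ?_ ?_ x
  · intro j x hx
    have h1 : rep G X s x ∈ W.gr X j := (G.isGalois X).gr_mem s s.2 j x hx
    by_cases hj : j = i
    · subst hj
      rw [proj_same _ hx, proj_same _ h1]
    · rw [proj_ne _ hx hj, proj_ne _ h1 hj, map_zero]
  · intro a b ha hb
    rw [map_add, map_add, ha, hb, map_add, map_add]

/-- The stable subspaces for the group in a fixed degree are stable for the Lie algebra. -/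
theorem stab_gal {i : ℕ} (hss : SemisimpleAt G X i) {U : Submodule W.K (W.H X)}
    (hU : U ≤ W.gr X i) (hs : Stab (Op (rep G X) ⊤) U) :
    Stab (galp G X : Set (Module.End W.K (W.H X))) U := by
  obtain ⟨C, hC, hCs, h1, h2⟩ := (ssAt_iff G).1 hss U hU hs
  rw [stab_op] at hs hCs
  -- the complement in the whole space
  let C' : Submodule W.K (W.H X) := C.comap (H914.proj (W.isInternal X) i)
  have hcompl : IsCompl U C' := by
    refine ⟨disjoint_iff.2 ?_, codisjoint_iff.2 ?_⟩
    · rw [eq_bot_iff]
      rintro x ⟨hx, hx'⟩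
      have h3 : H914.proj (W.isInternal X) i x ∈ C := hx'
      rw [proj_same _ (hU hx)] at h3
      rw [← h1]
      exact ⟨hx, h3⟩
    · rw [eq_top_iff]
      intro x _
      have h3 : H914.proj (W.isInternal X) i x ∈ U ⊔ C := by
        rw [h2]
        exact proj_mem _ _ _
      obtain ⟨u, hu, c, hc, huc⟩ := Submodule.mem_sup.1 h3
      refine Submodule.mem_sup.2 ⟨u, hu, c + (x - H914.proj (W.isInternal X) i x), ?_, ?_⟩
      · change H914.proj (W.isInternal X) i (c + (x - H914.proj (W.isInternal X) i x)) ∈ C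
        rw [map_add, map_sub, proj_same _ (hC hc), proj_same _ (proj_mem _ _ _), sub_self,
          add_zero]
        exact hc
      · rw [← huc]
        abel
  let P : Module.End W.K (W.H X) := U.projection C' hcompl
  have hPd : ∀ x, dg W X (P x) = P (dg W X x) := by
    refine proj_comm hcompl (fun u hu => ?_) (fun c hc => ?_)
    · rw [dg_of (hU hu)]
      exact U.smul_mem _ hu
    · change H914.proj (W.isInternal X) i (dg W X c) ∈ C
      rw [proj_dg]
      exact C.smul_mem _ hc
  have hPr : ∀ s : (G.ρ X).dom, ∀ x, rep G X s (P x) = P (rep G X s x) := by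
    intro s
    refine proj_comm hcompl (fun u hu => hs s (Subgroup.mem_top _) u hu) (fun c hc => ?_)
    change H914.proj (W.isInternal X) i (rep G X s c) ∈ C
    rw [proj_act]
    exact hCs s (Subgroup.mem_top _) _ hc
  intro Z hZ u hu
  obtain ⟨A, hA, r, rfl⟩ := mem_galp.1 hZ
  rw [LinearMap.add_apply, LinearMap.smul_apply]
  refine U.add_mem ?_ (U.smul_mem _ ?_)
  · have h3 := gal_comm hPd ⟨⊤, inferInstance, fun s _ hX x => hPr ⟨s, hX⟩ x⟩ hA
    have h4 : P u = u := Submodule.projection_apply_of_mem_left hcompl hu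
    have h5 : A u = P (A u) := by
      conv_lhs => rw [← h4]
      exact LinearMap.congr_fun h3 u
    rw [h5]
    change U.projection C' hcompl (A u) ∈ U
    rw [Submodule.projection_apply]
    exact SetLike.coe_mem _
  · rw [dn, LinearMap.sub_apply, dg_of (hU hu)]
    exact U.sub_mem (U.smul_mem _ hu) (U.smul_mem _ hu)

/-- **The Lie algebra acts semisimply.** -/
theorem galp_semi (hss : ∀ i, SemisimpleAt G X i) : Semi (galp G X) := by
  have h1 : ∀ i, SSon (galp G X : Set (Module.End W.K (W.H X))) (W.gr X i) ∧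
      Stab (galp G X : Set (Module.End W.K (W.H X))) (W.gr X i) := by
    intro i
    have h2 := stab_gal (hss i) le_rfl (gr_stab G X i)
    refine ⟨Pool.Agent.Q60.TD.clifford (G := Op (rep G X) ⊤) ?_ ?_ (gr_stab G X i)
      (fun U hU hUs => stab_gal (hss i) hU hUs) ((ssAt_iff G).1 (hss i)), h2⟩
    · rintro _ ⟨g, _, rfl⟩
      refine ⟨rep G X g⁻¹, mem_Op (Subgroup.mem_top _), ?_, ?_⟩
      · rw [← map_mul, mul_inv_cancel, map_one]
      · rw [← map_mul, inv_mul_cancel, map_one]
    · rintro _ ⟨g, _, rfl⟩ Z hZ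
      obtain ⟨A, hA, r, rfl⟩ := mem_galp.1 hZ
      have h3 := gal_conj g⁻¹ hA
      rw [inv_inv] at h3
      refine ⟨rep G X g⁻¹ * A * rep G X g + r • dn W X, mem_galp.2 ⟨_, h3, r, rfl⟩, ?_⟩
      have h4 : rep G X g * (rep G X g⁻¹ * A * rep G X g) = A * rep G X g := by
        rw [← mul_assoc, ← mul_assoc, ← map_mul, mul_inv_cancel, map_one, one_mul]
      have h5 : dn W X * rep G X g = rep G X g * dn W X := by
        refine LinearMap.ext fun x => ?_
        have h6 := act_dg (G := G) g.2 x
        change dg W X (rep G X g x) - (X.dim : W.K) • rep G X g x =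
          rep G X g (dg W X x - (X.dim : W.K) • x)
        rw [map_sub, map_smul]
        congr 1
        exact h6.symm
      rw [add_mul, mul_add, h4, smul_mul_assoc, h5, mul_smul_comm]
  have h2 := (SSon.finset_sup (Finset.range (2 * X.dim + 1)) (F := fun i => W.gr X i)
    (fun i _ => (h1 i).1) (fun i _ => (h1 i).2)).1
  have h3 : (Finset.range (2 * X.dim + 1)).sup (fun i => W.gr X i) = ⊤ := by
    rw [eq_top_iff]
    intro x _
    refine dg_ind (p := fun x => x ∈ (Finset.range (2 * X.dim + 1)).sup (fun i => W.gr X i))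
      ?_ ?_ x
    · intro i x hx
      by_cases hi : i ∈ Finset.range (2 * X.dim + 1)
      · exact (Finset.le_sup (f := fun i => W.gr X i) hi) hx
      · rw [Finset.mem_range] at hi
        rw [W.gr_eq_bot X i (by omega), Submodule.mem_bot] at hx
        rw [hx]
        exact Submodule.zero_mem _
    · intro a b ha hb
      exact Submodule.add_mem _ ha hb
  rw [h3] at h2
  intro U hU
  obtain ⟨C, _, hC, h4, h5⟩ := h2 U le_top hU
  exact ⟨C, hC, ⟨disjoint_iff.2 h4, codisjoint_iff.2 h5⟩⟩

end Pool.Agent.Q50.FP
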