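import Pool.Agent.Q50.FP.Frm
import Pool.Agent.Q50.FP.Core
import Pool.Agent.Q60.TD.GSS
import Pool.Agent.Q60.TD.Defs

/-!
# The Lie algebra which kills all Tate forms
-/

open CategoryTheory AlgebraicGeometry TensorProduct

universe u w

set_option linter.unusedSectionVars false

namespace Pool.Agent.Q50.FP

open Module Pool.Agent.H204R3.SP Pool.Agent.W516.KC
open Pool.Agent.H914 Pool.Agent.H914.VarClass Pool.Agent.H914.VarClass.Obj
  Pool.Agent.H914.WeilCohomology
open Pool.Agent.Y133.Half
open Pool.Agent.Q55 (GaloisAction SubAction Virtually TateConj)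
open Pool.Agent.Q60.TD (SemisimpleAt rep rep_apply exists_good)

variable {k : Type u} [Field k] {𝒱 : VarClass k} {ops : CycleOps 𝒱}
  {W : WeilCohomology.{u, 0} ops} {X : 𝒱.Obj} {n : ℕ} {Γ : Type w} [Group Γ]
  (G : GaloisAction W Γ)

/-- A form on `H(X)` which is homogeneous of degree `2 M` and on which a subgroup of finite index
acts by `χ ^ M`. -/
def TForm (X : 𝒱.Obj) {κ : Type} [Fintype κ] [DecidableEq κ] (M : ℕ)
    (φ : MultilinearMap W.K (fun _ : κ => W.H X) W.K) : Prop :=
  (∀ v, ∑ j, φ (Function.update v j (dg W X (v j))) = 2 * M * φ v) ∧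
    ∃ Δ : Subgroup Γ, Δ.FiniteIndex ∧ ∀ s ∈ Δ, s ∈ (G.ρ X).dom → ∀ v,
      φ (fun j => (G.ρ X).act s (v j)) = (G.χ s : W.K) ^ M * φ v

/-- The Lie algebra which kills all Tate forms. -/
def gal (X : 𝒱.Obj) : Submodule W.K (Module.End W.K (W.H X)) where
  carrier := {Z | ∀ (n M : ℕ) (φ : MultilinearMap W.K (fun _ : Fin (n + 1) => W.H X) W.K),
    TForm G X M φ → Kills Z φ}
  zero_mem' := by
    intro n M φ _ v
    refine Finset.sum_eq_zero fun k _ => ?_
    rw [LinearMap.zero_apply]
    exact φ.map_coord_zero k (Function.update_self _ _ _)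
  add_mem' := by
    intro A B hA hB n M φ hφ v
    have h1 := hA n M φ hφ v
    have h2 := hB n M φ hφ v
    have h3 := congrArg₂ (fun x y : W.K => x + y) h1 h2
    simp only [add_zero] at h3
    rw [← h3, ← Finset.sum_add_distrib]
    refine Finset.sum_congr rfl fun k _ => ?_
    rw [LinearMap.add_apply, MultilinearMap.map_update_add]
  smul_mem' := by
    intro c A hA n M φ hφ v
    have h1 := hA n M φ hφ v
    rw [← mul_zero c, ← h1, Finset.mul_sum]
    refine Finset.sum_congr rfl fun k _ => ?_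
    rw [LinearMap.smul_apply, MultilinearMap.map_update_smul, smul_eq_mul]

variable {G}

theorem mem_gal {Z : Module.End W.K (W.H X)} : Z ∈ gal G X ↔
    ∀ (n M : ℕ) (φ : MultilinearMap W.K (fun _ : Fin (n + 1) => W.H X) W.K),
      TForm G X M φ → Kills Z φ := Iff.rfl

theorem gal_br : ∀ A ∈ gal G X, ∀ B ∈ gal G X, A * B - B * A ∈ gal G X :=
  fun _ hA _ hB n M φ hφ => kills_bracket (hA n M φ hφ) (hB n M φ hφ)

/-! ### Classes and forms -/

section act

/-- The elements of the good subgroup act compatibly on the products. -/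
theorem act_mpr {s : Γ} (hX : s ∈ (G.ρ X).dom) (hY : s ∈ (G.ρ (pw X n)).dom)
    (hc : ∀ i, (G.ρ (pw X n)).Commutes (G.ρ X) (W.map (prj X n i)) s) (v : Fin (n + 1) → W.H X) :
    (G.ρ (pw X n)).act s (mpr W X n v) = mpr W X n (fun j => (G.ρ X).act s (v j)) := by
  rw [mpr_apply, mpr_apply, map_list_prod, List.map_ofFn]
  congr 2
  funext i
  exact (hc i hY hX (v i)).symm

theorem act_frm {s : Γ} (hX : s ∈ (G.ρ X).dom) (hY : s ∈ (G.ρ (pw X n)).dom)
    (hc : ∀ i, (G.ρ (pw X n)).Commutes (G.ρ X) (W.map (prj X n i)) s) (c : W.H (pw X n))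
    (v : Fin (n + 1) → W.H X) :
    frm W X n ((G.ρ (pw X n)).act s c) (fun j => (G.ρ X).act s (v j)) =
      (G.χ s : W.K) ^ (pw X n).dim * frm W X n c v := by
  rw [frm_apply, ← act_mpr hX hY hc, ← map_mul, (G.isGalois (pw X n)).tr_act s hY, frm_apply]

end act

theorem frm_dg_iff {c : W.H (pw X n)} {j M : ℕ} (h : M + j = (pw X n).dim) :
    (∀ v, ∑ i, frm W X n c (Function.update v i (dg W X (v i))) = 2 * M * frm W X n c v) ↔
      c ∈ W.gr (pw X n) (2 * j) := by
  rw [mem_gr_iff]
  have h1 : ((pw X n).dim : W.K) = M + j := by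
    rw [← Nat.cast_add, h]
  constructor
  · intro h2
    apply frm_injective
    rw [frm_smul]
    ext v
    have h3 := dg_drv.frm c v
    rw [h2, h1] at h3
    rw [smul_apply, smul_eq_mul]
    push_cast
    linear_combination h3
  · intro h2 v
    rw [dg_drv.frm, h2, frm_smul, smul_apply, smul_eq_mul, h1]
    push_cast
    ring

/-- The form of a Tate class is a Tate form. -/
theorem tform_of_tate {c : W.H (pw X n)} {j M : ℕ} (h : M + j = (pw X n).dim)
    (hc : Pool.Agent.Q55.IsTate G (pw X n) j c) : TForm G X M (frm W X n c) := by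
  obtain ⟨hgr, Δ, hΔ, hc⟩ := hc
  obtain ⟨Δ', hΔ', h'⟩ := exists_good G X n
  refine ⟨(frm_dg_iff h).2 hgr, Δ ⊓ Δ', inferInstance, fun s hs _ v => ?_⟩
  obtain ⟨h1, h2, h3⟩ := h' s hs.2
  have h4 := act_frm h1 h2 h3 c v
  rw [hc s hs.1 h2, frm_smul, smul_apply, smul_eq_mul, ← h, pow_add, mul_comm (_ ^ M), mul_assoc]
    at h4
  exact mul_left_cancel₀ (pow_ne_zero _ (Units.ne_zero _)) h4

/-- The class of a Tate form is a Tate class. -/
theorem tate_of_tform {c : W.H (pw X n)} {j M : ℕ} (h : M + j = (pw X n).dim)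
    (hc : TForm G X M (frm W X n c)) : Pool.Agent.Q55.IsTate G (pw X n) j c := by
  obtain ⟨hgr, Δ, hΔ, hc⟩ := hc
  obtain ⟨Δ', hΔ', h'⟩ := exists_good G X n
  refine ⟨(frm_dg_iff h).1 hgr, Δ ⊓ Δ', inferInstance, fun s hs _ => ?_⟩
  obtain ⟨h1, h2, h3⟩ := h' s hs.2
  apply frm_injective
  rw [frm_smul]
  ext v
  obtain ⟨v, rfl⟩ : ∃ v', (fun j => (G.ρ X).act s (v' j)) = v :=
    ⟨fun j => ((G.ρ X).act s).symm (v j), by
      funext j
      exact ((G.ρ X).act s).apply_symm_apply (v j)⟩
  rw [act_frm h1 h2 h3, smul_apply, smul_eq_mul, hc s hs.1 h1, ← h, pow_add]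
  ring

/-- The degree of a nonzero form is bounded. -/
theorem tform_le {c : W.H (pw X n)} {M : ℕ} (hc : TForm G X M (frm W X n c)) :
    M ≤ (pw X n).dim ∨ c = 0 := by
  by_contra hcon
  push Not at hcon
  obtain ⟨hM, h0⟩ := hcon
  apply h0
  -- the class is an eigenvector of the degree operator with a negative eigenvalue
  have h1 : dg W (pw X n) c = (2 * (pw X n).dim - 2 * M : W.K) • c := by
    apply frm_injective
    rw [frm_smul]
    ext v
    have h3 := dg_drv.frm c v
    rw [hc.1] at h3
    rw [smul_apply, smul_eq_mul]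
    linear_combination h3
  refine eq_zero_of_dg h1 fun i hi => ?_
  have h5 : ((2 * (pw X n).dim : ℕ) : W.K) = ((2 * M + i : ℕ) : W.K) := by
    push_cast
    rw [hi]
    ring
  have h6 := Nat.cast_injective h5
  omega

/-! ### Forms in other index sets -/

theorem tform_reindex {κ κ' : Type} [Fintype κ] [DecidableEq κ] [Fintype κ'] [DecidableEq κ']
    (e : κ ≃ κ') {M : ℕ} {φ : MultilinearMap W.K (fun _ : κ => W.H X) W.K}
    (h : TForm G X M φ) : TForm G X M (φ.domDomCongr e) := by
  obtain ⟨h1, Δ, hΔ, h2⟩ := h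
  refine ⟨fun v => ?_, Δ, hΔ, fun s hs hX v => ?_⟩
  · rw [MultilinearMap.domDomCongr_apply, ← h1, ← e.sum_comp]
    refine Finset.sum_congr rfl fun j _ => ?_
    rw [MultilinearMap.domDomCongr_apply]
    congr 1
    funext i
    by_cases hi : i = j
    · subst hi
      rw [Function.update_self, Function.update_self]
    · rw [Function.update_of_ne hi, Function.update_of_ne fun h => hi (e.injective h)]
  · rw [MultilinearMap.domDomCongr_apply, MultilinearMap.domDomCongr_apply]
    exact h2 s hs hX _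

theorem kills_reindex {K V : Type*} [Field K] [AddCommGroup V] [Module K V] {κ κ' : Type*}
    [Fintype κ] [DecidableEq κ] [Fintype κ'] [DecidableEq κ']
    (e : κ ≃ κ') {φ : MultilinearMap K (fun _ : κ => V) K} {Z : Module.End K V} :
    Kills Z (φ.domDomCongr e) ↔ Kills Z φ := by
  constructor
  · intro h v
    rw [← h (fun j => v (e.symm j)), ← e.sum_comp]
    refine Finset.sum_congr rfl fun j _ => ?_
    rw [MultilinearMap.domDomCongr_apply]
    congr 1
    funext i
    by_cases hi : i = j
    · subst hi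
      rw [Function.update_self, Function.update_self, Equiv.symm_apply_apply]
    · rw [Function.update_of_ne hi, Function.update_of_ne fun h => hi (e.injective h),
        Equiv.symm_apply_apply]
  · intro h v
    rw [← h (fun j => v (e j)), ← e.sum_comp]
    refine Finset.sum_congr rfl fun j _ => ?_
    rw [MultilinearMap.domDomCongr_apply]
    congr 1
    funext i
    by_cases hi : i = j
    · subst hi
      rw [Function.update_self, Function.update_self]
    · rw [Function.update_of_ne hi, Function.update_of_ne fun h => hi (e.injective h)]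

/-- The elements of the Lie algebra kill the Tate forms with any index set. -/
theorem gal_kills {κ : Type} [Fintype κ] [DecidableEq κ] {M : ℕ}
    {φ : MultilinearMap W.K (fun _ : κ => W.H X) W.K} (hφ : TForm G X M φ)
    {Z : Module.End W.K (W.H X)} (hZ : Z ∈ gal G X) : Kills Z φ := by
  rcases isEmpty_or_nonempty κ with h | h
  · intro v
    rw [Finset.univ_eq_empty, Finset.sum_empty]
  · obtain ⟨n, hn⟩ : ∃ n, Fintype.card κ = n + 1 :=
      ⟨Fintype.card κ - 1, by have := Fintype.card_pos (α := κ); omega⟩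
    let e : κ ≃ Fin (n + 1) := Fintype.equivFinOfCardEq hn
    exact (kills_reindex e).1 (hZ n M _ (tform_reindex e hφ))

end Pool.Agent.Q50.FP
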