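import Pool.Agent.Q50.FP.Gal
import Pool.Agent.Q50.FP.Base

/-!
# The Lie algebra which kills all Tate forms: properties
-/

open CategoryTheory AlgebraicGeometry TensorProduct

universe u w

set_option linter.unusedSectionVars false

namespace Pool.Agent.Q50.FP

open Module Pool.Agent.H204R3.SP Pool.Agent.W516.KC
open Pool.Agent.H914 Pool.Agent.H914.VarClass Pool.Agent.H914.VarClass.Obj
  Pool.Agent.H914.WeilCohomology
open Pool.Agent.Y133.Half
open Pool.Agent.Q55 (GaloisAction SubAction Virtually TateConj)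
open Pool.Agent.Q60.TD (SemisimpleAt rep rep_apply exists_good act_one)

section two

variable {K V : Type*} [Field K] [AddCommGroup V] [Module K V]

theorem sum_two (B : V →ₗ[K] V →ₗ[K] K) (Z : Module.End K V) (v : Fin 2 → V) :
    ∑ j, two B (Function.update v j (Z (v j))) = B (Z (v 0)) (v 1) + B (v 0) (Z (v 1)) := by
  rw [Fin.sum_univ_two]
  simp only [two_apply]
  simp

theorem kills_two (B : V →ₗ[K] V →ₗ[K] K) (Z : Module.End K V) :
    Kills Z (two B) ↔ ∀ u v, B (Z u) v + B u (Z v) = 0 := by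
  constructor
  · intro h u v
    have h1 := h ![u, v]
    rw [sum_two] at h1
    exact h1
  · intro h v
    rw [sum_two]
    exact h _ _

/-- Composition with a linear map. -/
theorem kills_comp {K' V' : Type*} [Field K'] [AddCommGroup V'] [Module K' V'] {κ : Type*}
    [Fintype κ] [DecidableEq κ] {V : Type*} [AddCommGroup V] [Module K' V]
    {φ : MultilinearMap K' (fun _ : κ => V) K'} (U : V' →ₗ[K'] V) {Z : Module.End K' V}
    {Z' : Module.End K' V'} (h : ∀ x, Z (U x) = U (Z' x)) (hφ : Kills Z φ) :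
    Kills Z' (φ.compLinearMap fun _ => U) := by
  intro v
  rw [← hφ fun j => U (v j)]
  refine Finset.sum_congr rfl fun j _ => ?_
  rw [MultilinearMap.compLinearMap_apply]
  congr 1
  funext i
  by_cases hi : i = j
  · subst hi
    rw [Function.update_self, Function.update_self, h]
  · rw [Function.update_of_ne hi, Function.update_of_ne hi]

end two

variable {k : Type u} [Field k] {𝒱 : VarClass k} {ops : CycleOps 𝒱}
  {W : WeilCohomology.{u, 0} ops} {X : 𝒱.Obj} {n : ℕ} {Γ : Type w} [Group Γ]
  {G : GaloisAction W Γ}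

/-! ### The duality form -/

theorem prg_act {s : Γ} (hs : s ∈ (G.ρ X).dom) (a b : W.H X) :
    prg W X ((G.ρ X).act s a) ((G.ρ X).act s b) = (G.χ s : W.K) ^ X.dim * prg W X a b := by
  rw [prg_apply, ← map_mul, (G.isGalois X).tr_act s hs, prg_apply]

theorem prg_dg (a b : W.H X) : prg W X (dg W X a) b + prg W X a (dg W X b) =
    2 * X.dim * prg W X a b := by
  have h1 := dg_drv.tr X (a * b)
  rw [dg_drv.mul, map_add] at h1
  exact h1

theorem act_dg {s : Γ} (hs : s ∈ (G.ρ X).dom) (x : W.H X) :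
    (G.ρ X).act s (dg W X x) = dg W X ((G.ρ X).act s x) := by
  refine dg_ind (p := fun x => (G.ρ X).act s (dg W X x) = dg W X ((G.ρ X).act s x)) ?_ ?_ x
  · intro i x hx
    rw [dg_of hx, dg_of ((G.isGalois X).gr_mem s hs i x hx), map_smul]
  · intro a b ha hb
    rw [map_add, map_add, ha, hb, map_add, map_add]

/-- The form `tr (P a b)` for an endomorphism `P` which commutes with the degree operator and the
group is a Tate form. -/
theorem tform_end {P : Module.End W.K (W.H X)} (h1 : ∀ x, dg W X (P x) = P (dg W X x))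
    (h2 : ∃ Δ : Subgroup Γ, Δ.FiniteIndex ∧ ∀ s ∈ Δ, s ∈ (G.ρ X).dom → ∀ x,
      (G.ρ X).act s (P x) = P ((G.ρ X).act s x)) : TForm G X X.dim (two ((prg W X).comp P)) := by
  obtain ⟨Δ, hΔ, h2⟩ := h2
  refine ⟨fun v => ?_, Δ, hΔ, fun s hs hX v => ?_⟩
  · rw [sum_two, two_apply, LinearMap.comp_apply, LinearMap.comp_apply, ← h1, prg_dg]
  · rw [two_apply, two_apply, LinearMap.comp_apply, LinearMap.comp_apply, ← h2 s hs hX,
      prg_act hX]

theorem tform_prg : TForm G X X.dim (two (prg W X)) := by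
  have h := tform_end (G := G) (X := X) (P := 1) (fun x => rfl)
    ⟨⊤, inferInstance, fun _ _ _ _ => rfl⟩
  exact h

theorem gal_skew {Z : Module.End W.K (W.H X)} (hZ : Z ∈ gal G X) : IsSkew (prg W X) Z :=
  (kills_two _ _).1 (gal_kills tform_prg hZ)

/-- The Lie algebra commutes with the endomorphisms which commute with the degree operator and the
group. -/
theorem gal_comm {P : Module.End W.K (W.H X)} (h1 : ∀ x, dg W X (P x) = P (dg W X x))
    (h2 : ∃ Δ : Subgroup Γ, Δ.FiniteIndex ∧ ∀ s ∈ Δ, s ∈ (G.ρ X).dom → ∀ x,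
      (G.ρ X).act s (P x) = P ((G.ρ X).act s x)) {Z : Module.End W.K (W.H X)}
    (hZ : Z ∈ gal G X) : Z * P = P * Z := by
  have h3 := (kills_two _ _).1 (gal_kills (tform_end h1 h2) hZ)
  refine LinearMap.ext fun x => ?_
  rw [← sub_eq_zero, ← LinearMap.sub_apply]
  apply prg_nondeg
  intro v
  have h4 := h3 x v
  have h5 := gal_skew hZ (P x) v
  rw [LinearMap.comp_apply, LinearMap.comp_apply] at h4
  rw [LinearMap.sub_apply, map_sub, LinearMap.sub_apply, Module.End.mul_apply,
    Module.End.mul_apply]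
  linear_combination h5 - h4

theorem gal_dg {Z : Module.End W.K (W.H X)} (hZ : Z ∈ gal G X) : Z * dg W X = dg W X * Z :=
  gal_comm (fun _ => rfl) ⟨⊤, inferInstance, fun _ _ hX x => act_dg hX x⟩ hZ

/-! ### Conjugation -/

theorem rep_inv (g : (G.ρ X).dom) (x : W.H X) : rep G X g (rep G X g⁻¹ x) = x := by
  rw [← Module.End.mul_apply, ← map_mul, mul_inv_cancel, map_one]
  rfl

theorem rep_inv' (g : (G.ρ X).dom) (x : W.H X) : rep G X g⁻¹ (rep G X g x) = x := by
  rw [← Module.End.mul_apply, ← map_mul, inv_mul_cancel, map_one]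
  rfl

theorem tform_conj (g : (G.ρ X).dom) {κ : Type} [Fintype κ] [DecidableEq κ] {M : ℕ}
    {φ : MultilinearMap W.K (fun _ : κ => W.H X) W.K} (h : TForm G X M φ) :
    TForm G X M (φ.compLinearMap fun _ => rep G X g) := by
  obtain ⟨h1, Δ, hΔ, h2⟩ := h
  refine ⟨fun v => ?_, Δ.comap (MulAut.conj (g : Γ)).toMonoidHom, ⟨by
      rw [Subgroup.index_comap_of_surjective _ (MulAut.conj (g : Γ)).surjective]
      exact hΔ.index_ne_zero⟩, fun s hs hX v => ?_⟩
  · rw [MultilinearMap.compLinearMap_apply, ← h1]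
    refine Finset.sum_congr rfl fun j _ => ?_
    rw [MultilinearMap.compLinearMap_apply]
    congr 1
    funext i
    by_cases hi : i = j
    · subst hi
      rw [Function.update_self, Function.update_self]
      exact act_dg g.2 _
    · rw [Function.update_of_ne hi, Function.update_of_ne hi]
  · have h3 : (g : Γ) * s * (g : Γ)⁻¹ ∈ Δ := hs
    have h4 : (g : Γ) * s * (g : Γ)⁻¹ ∈ (G.ρ X).dom :=
      mul_mem (mul_mem g.2 hX) (inv_mem g.2)
    have h5 := h2 _ h3 h4 (fun j => rep G X g (v j))
    rw [MultilinearMap.compLinearMap_apply, MultilinearMap.compLinearMap_apply]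
    have h6 : (G.χ ((g : Γ) * s * (g : Γ)⁻¹) : W.K) = G.χ s := by
      rw [map_mul, map_mul, map_inv, mul_comm (G.χ g), mul_assoc, mul_inv_cancel, mul_one]
    rw [h6] at h5
    rw [← h5]
    congr 1
    funext j
    have h7 : (rep G X (g * ⟨s, hX⟩ * g⁻¹)) (rep G X g (v j)) =
        rep G X g (rep G X ⟨s, hX⟩ (v j)) := by
      rw [map_mul, map_mul, Module.End.mul_apply, Module.End.mul_apply, rep_inv']
    exact h7.symm

theorem gal_conj (g : (G.ρ X).dom) {Z : Module.End W.K (W.H X)} (hZ : Z ∈ gal G X) :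
    rep G X g * Z * rep G X g⁻¹ ∈ gal G X := by
  intro n M φ hφ
  have h1 := gal_kills (tform_conj g hφ) hZ
  have h2 := kills_comp (rep G X g⁻¹) (Z := Z) (Z' := rep G X g * Z * rep G X g⁻¹)
    (fun x => by
      rw [Module.End.mul_apply, Module.End.mul_apply, rep_inv']) h1
  have h3 : (φ.compLinearMap fun _ => rep G X g).compLinearMap (fun _ => rep G X g⁻¹) = φ := by
    ext v
    rw [MultilinearMap.compLinearMap_apply, MultilinearMap.compLinearMap_apply]
    congr 1
    funext j
    exact rep_inv g _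
  rwa [h3] at h2

/-! ### The extension by the degree operator -/

/-- The normalised degree operator. -/
noncomputable def dn (W : WeilCohomology.{u, 0} ops) (X : 𝒱.Obj) : Module.End W.K (W.H X) :=
  dg W X - (X.dim : W.K) • 1

theorem dn_skew : IsSkew (prg W X) (dn W X) := by
  intro a b
  have h := prg_dg (W := W) (X := X) a b
  have h1 : dn W X a = dg W X a - (X.dim : W.K) • a := rfl
  have h2 : dn W X b = dg W X b - (X.dim : W.K) • b := rfl
  rw [h1, h2, map_sub, map_sub, LinearMap.sub_apply, map_smul, map_smul, LinearMap.smul_apply,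
    smul_eq_mul]
  linear_combination h

theorem gal_dn {Z : Module.End W.K (W.H X)} (hZ : Z ∈ gal G X) : Z * dn W X = dn W X * Z := by
  rw [dn, mul_sub, sub_mul, gal_dg hZ, mul_smul_comm, smul_mul_assoc, mul_one, one_mul]

/-- The Lie algebra, extended by the degree operator. -/
noncomputable def galp (G : GaloisAction W Γ) (X : 𝒱.Obj) :
    Submodule W.K (Module.End W.K (W.H X)) := gal G X ⊔ Submodule.span W.K {dn W X}

theorem mem_galp {Z : Module.End W.K (W.H X)} :
    Z ∈ galp G X ↔ ∃ A ∈ gal G X, ∃ r : W.K, Z = A + r • dn W X := by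
  rw [galp, Submodule.mem_sup]
  constructor
  · rintro ⟨A, hA, B, hB, rfl⟩
    obtain ⟨r, rfl⟩ := Submodule.mem_span_singleton.1 hB
    exact ⟨A, hA, r, rfl⟩
  · rintro ⟨A, hA, r, rfl⟩
    exact ⟨A, hA, _, Submodule.smul_mem _ _ (Submodule.mem_span_singleton_self _), rfl⟩

theorem gal_le : gal G X ≤ galp G X := le_sup_left

theorem dn_mem : dn W X ∈ galp G X :=
  Submodule.mem_sup_right (Submodule.mem_span_singleton_self _)

theorem galp_br : ∀ A ∈ galp G X, ∀ B ∈ galp G X, A * B - B * A ∈ galp G X := by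
  intro A hA B hB
  obtain ⟨A, hA', r, rfl⟩ := mem_galp.1 hA
  obtain ⟨B, hB', t, rfl⟩ := mem_galp.1 hB
  have h1 : (A + r • dn W X) * (B + t • dn W X) - (B + t • dn W X) * (A + r • dn W X) =
      A * B - B * A := by
    have h2 := gal_dn hA'
    have h3 := gal_dn hB'
    simp only [add_mul, mul_add, mul_smul_comm, smul_mul_assoc, h2, h3, smul_add, smul_smul,
      mul_comm t r]
    abel
  rw [h1]
  exact gal_le (gal_br A hA' B hB')

theorem galp_skew {Z : Module.End W.K (W.H X)} (hZ : Z ∈ galp G X) : IsSkew (prg W X) Z := by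
  obtain ⟨A, hA, r, rfl⟩ := mem_galp.1 hZ
  intro u v
  have h1 := gal_skew hA u v
  have h2 := dn_skew (W := W) (X := X) u v
  simp only [LinearMap.add_apply, LinearMap.smul_apply, map_add, map_smul, smul_eq_mul]
  linear_combination h1 + r * h2

theorem comm_dg_of_dn {P : Module.End W.K (W.H X)} (h : dn W X * P = P * dn W X) (x : W.H X) :
    dg W X (P x) = P (dg W X x) := by
  have h1 := LinearMap.congr_fun h x
  rw [dn, sub_mul, mul_sub, smul_mul_assoc, mul_smul_comm, one_mul, mul_one] at h1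
  simp only [LinearMap.sub_apply, Module.End.mul_apply] at h1
  exact sub_left_injective h1

end Pool.Agent.Q50.FP
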