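import Pool.Agent.Q50.FP.Pad

/-!
# The logarithm of an `ℓ`-adic operator and multilinear forms: the main lemma
-/

set_option linter.unusedSectionVars false

namespace Pool.Agent.Q50.FP

open Filter Topology

noncomputable section

variable {ℓ : ℕ} [hℓ : Fact ℓ.Prime] {n : ℕ} {κ : Type*} [Fintype κ] [DecidableEq κ]

lemma norm_ell_pow_inv (k : ℕ) : ‖((ℓ : ℚ_[ℓ]) ^ k)⁻¹‖ * ((ℓ : ℝ)⁻¹) ^ k = 1 := by
  rw [norm_inv, norm_pow, norm_ell]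
  exact inv_mul_cancel₀ (pow_ne_zero _ ell_pos.ne')

lemma near_smul {c : ℚ_[ℓ]} (hc : ‖c - 1‖ ≤ eps ℓ) :
    NearId ℓ (c • (1 : Module.End ℚ_[ℓ] ℚ_[ℓ])) := fun x => by
  have h1 : (c • (1 : Module.End ℚ_[ℓ] ℚ_[ℓ])) x - x = (c - 1) * x := by
    rw [LinearMap.smul_apply, Module.End.one_apply, smul_eq_mul]; ring
  rw [h1, norm_mul]
  exact mul_le_mul_of_nonneg_right hc (norm_nonneg _)

lemma norm_pow_ell_num {c : ℚ_[ℓ]} (hc : ‖c - 1‖ ≤ eps ℓ) (k : ℕ) :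
    ‖c ^ (ℓ ^ k) - 1‖ = ((ℓ : ℝ)⁻¹) ^ k * ‖c - 1‖ := by
  have h1 := (near_smul hc).norm_pow_ell k 1
  have h2 : ∀ m : ℕ, ((c • (1 : Module.End ℚ_[ℓ] ℚ_[ℓ])) ^ m) 1 = c ^ m := by
    intro m
    rw [smul_pow, one_pow, LinearMap.smul_apply, Module.End.one_apply, smul_eq_mul, mul_one]
  have h3 := h2 1
  rw [pow_one, pow_one] at h3
  rwa [h2, h3] at h1

/-- The logarithms of `T` and `c` exist (in a weak sense). -/
theorem exists_log {T : Module.End ℚ_[ℓ] (Fin n → ℚ_[ℓ])} (hT : NearId ℓ T) {c : ℚ_[ℓ]}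
    (hc : ‖c - 1‖ ≤ eps ℓ) :
    ∃ (Y : Module.End ℚ_[ℓ] (Fin n → ℚ_[ℓ])) (y : ℚ_[ℓ]) (f : ℕ → ℕ), StrictMono f ∧
      (∀ v, Tendsto (fun k => ((ℓ : ℚ_[ℓ]) ^ f k)⁻¹ • ((T ^ (ℓ ^ f k)) v - v)) atTop (𝓝 (Y v))) ∧
      Tendsto (fun k => ((ℓ : ℚ_[ℓ]) ^ f k)⁻¹ * (c ^ (ℓ ^ f k) - 1)) atTop (𝓝 y) := by
  let a : ℕ → (Fin n → Fin n → ℚ_[ℓ]) × ℚ_[ℓ] := fun k =>
    (fun j => ((ℓ : ℚ_[ℓ]) ^ k)⁻¹ • ((T ^ (ℓ ^ k)) (sb ℓ j) - sb ℓ j),
      ((ℓ : ℚ_[ℓ]) ^ k)⁻¹ * (c ^ (ℓ ^ k) - 1))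
  have hsb : ∀ j : Fin n, ‖sb ℓ j‖ ≤ 1 := by
    intro j
    rw [pi_norm_le_iff_of_nonneg zero_le_one]
    intro i
    rw [sb_apply]
    split_ifs <;> simp
  have ha : ∀ k, a k ∈ Metric.closedBall (0 : (Fin n → Fin n → ℚ_[ℓ]) × ℚ_[ℓ]) 1 := by
    intro k
    rw [mem_closedBall_zero_iff, Prod.norm_def]
    refine max_le ?_ ?_
    · rw [pi_norm_le_iff_of_nonneg zero_le_one]
      intro j
      change ‖((ℓ : ℚ_[ℓ]) ^ k)⁻¹ • ((T ^ (ℓ ^ k)) (sb ℓ j) - sb ℓ j)‖ ≤ 1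
      rw [norm_smul, hT.norm_pow_ell, ← mul_assoc, norm_ell_pow_inv, one_mul]
      exact (hT.le _).trans (hsb j)
    · change ‖((ℓ : ℚ_[ℓ]) ^ k)⁻¹ * (c ^ (ℓ ^ k) - 1)‖ ≤ 1
      rw [norm_mul, norm_pow_ell_num hc, ← mul_assoc, norm_ell_pow_inv, one_mul]
      exact hc.trans eps_lt_one.le
  obtain ⟨b, -, f, hf, hlim⟩ := tendsto_subseq_of_bounded Metric.isBounded_closedBall ha
  let Y : Module.End ℚ_[ℓ] (Fin n → ℚ_[ℓ]) := (Pi.basisFun ℚ_[ℓ] (Fin n)).constr ℚ_[ℓ] b.1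
  have hY : ∀ v, Y v = ∑ j, v j • b.1 j := by
    intro v
    rw [Module.Basis.constr_apply_fintype]
    rfl
  refine ⟨Y, b.2, f, hf, fun v => ?_, ?_⟩
  · have h1 : Tendsto (fun k => ∑ j, v j • (a (f k)).1 j) atTop (𝓝 (∑ j, v j • b.1 j)) := by
      refine tendsto_finsetSum _ fun j _ => ?_
      refine Tendsto.const_smul ?_ _
      have h2 : Tendsto (fun k => (a (f k)).1) atTop (𝓝 b.1) :=
        (continuous_fst.tendsto b).comp hlim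
      exact (tendsto_pi_nhds.1 h2) j
    rw [hY]
    refine h1.congr fun k => ?_
    have h3 : v = ∑ j, v j • sb ℓ j := sb_sum v
    calc ∑ j, v j • (a (f k)).1 j = ((ℓ : ℚ_[ℓ]) ^ f k)⁻¹ • ∑ j, v j •
          ((T ^ (ℓ ^ f k)) (sb ℓ j) - sb ℓ j) := by
          rw [Finset.smul_sum]
          exact Finset.sum_congr rfl fun j _ => smul_comm _ _ _
      _ = _ := by
          congr 1
          conv_rhs => rw [h3, map_sum]
          rw [← Finset.sum_sub_distrib]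
          exact Finset.sum_congr rfl fun j _ => by rw [map_smul, smul_sub]
  · exact (continuous_snd.tendsto b).comp hlim

lemma continuous_form (φ : Fm ℓ n κ) : Continuous φ := by
  have h1 : (φ : (κ → Fin n → ℚ_[ℓ]) → ℚ_[ℓ]) = fun v =>
      ∑ r : κ → Fin n, (∏ j, v j (r j)) * φ (fun j => sb ℓ (r j)) := funext fun v =>
    form_expand φ v
  rw [h1]
  fun_prop

/-- The derivative of a form along a sequence. -/
lemma deriv_form (φ : Fm ℓ n κ) {T : Module.End ℚ_[ℓ] (Fin n → ℚ_[ℓ])}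
    {Y : Module.End ℚ_[ℓ] (Fin n → ℚ_[ℓ])} {f : ℕ → ℕ} (hf : StrictMono f)
    (hY : ∀ v, Tendsto (fun k => ((ℓ : ℚ_[ℓ]) ^ f k)⁻¹ • ((T ^ (ℓ ^ f k)) v - v)) atTop (𝓝 (Y v)))
    (v : κ → Fin n → ℚ_[ℓ]) :
    Tendsto (fun k => ((ℓ : ℚ_[ℓ]) ^ f k)⁻¹ * (φ (fun j => (T ^ (ℓ ^ f k)) (v j)) - φ v)) atTop
      (𝓝 (∑ j, φ (Function.update v j (Y (v j))))) := by
  let φc : ContinuousMultilinearMap ℚ_[ℓ] (fun _ : κ => Fin n → ℚ_[ℓ]) ℚ_[ℓ] :=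
    { φ with cont := continuous_form φ }
  have hd : HasFDerivWithinAt φc (φc.linearDeriv v) Set.univ v :=
    (φc.hasFDerivAt (x := v)).hasFDerivWithinAt
  have hzero : Tendsto (fun k => ((ℓ : ℚ_[ℓ]) ^ f k)) atTop (𝓝 0) := by
    have h1 : Tendsto (fun k : ℕ => (ℓ : ℚ_[ℓ]) ^ k) atTop (𝓝 0) := by
      apply tendsto_pow_atTop_nhds_zero_of_norm_lt_one
      rw [norm_ell]
      exact ell_lt_one
    exact h1.comp hf.tendsto_atTop
  have hlim2 : Tendsto (fun k => fun j => ((ℓ : ℚ_[ℓ]) ^ f k)⁻¹ • ((T ^ (ℓ ^ f k)) (v j) - v j))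
      atTop (𝓝 (fun j => Y (v j))) := tendsto_pi_nhds.2 fun j => hY (v j)
  have hne : ∀ k, ((ℓ : ℚ_[ℓ]) ^ f k) ≠ 0 := fun k =>
    pow_ne_zero _ (by exact_mod_cast hℓ.out.ne_zero)
  have h1 := hd.lim (l := atTop) (c := fun k => ((ℓ : ℚ_[ℓ]) ^ f k)⁻¹)
    (d := fun k => fun j => (T ^ (ℓ ^ f k)) (v j) - v j) (v := fun j => Y (v j))
    (by
      have h2 := hzero.smul hlim2
      rw [zero_smul] at h2
      refine h2.congr fun k => ?_
      funext j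
      rw [Pi.smul_apply, smul_smul, mul_inv_cancel₀ (hne k), one_smul])
    (Eventually.of_forall fun _ => Set.mem_univ _) hlim2
  have h3 : (φc.linearDeriv v) (fun j => Y (v j)) = ∑ j, φ (Function.update v j (Y (v j))) := by
    rw [ContinuousMultilinearMap.linearDeriv_apply]
    rfl
  rw [h3] at h1
  refine h1.congr fun k => ?_
  rw [smul_eq_mul]
  congr 2
  change φ _ = φ _
  congr 1
  funext j
  rw [Pi.add_apply]
  abel

/-- The derivative of a power. -/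
lemma deriv_pow {c y : ℚ_[ℓ]} {f : ℕ → ℕ} (hf : StrictMono f)
    (hy : Tendsto (fun k => ((ℓ : ℚ_[ℓ]) ^ f k)⁻¹ * (c ^ (ℓ ^ f k) - 1)) atTop (𝓝 y)) (M : ℕ) :
    Tendsto (fun k => ((ℓ : ℚ_[ℓ]) ^ f k)⁻¹ * ((c ^ M) ^ (ℓ ^ f k) - 1)) atTop (𝓝 (M * y)) := by
  have hzero : Tendsto (fun k => ((ℓ : ℚ_[ℓ]) ^ f k)) atTop (𝓝 0) := by
    have h1 : Tendsto (fun k : ℕ => (ℓ : ℚ_[ℓ]) ^ k) atTop (𝓝 0) := by
      apply tendsto_pow_atTop_nhds_zero_of_norm_lt_one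
      rw [norm_ell]
      exact ell_lt_one
    exact h1.comp hf.tendsto_atTop
  have hne : ∀ k, ((ℓ : ℚ_[ℓ]) ^ f k) ≠ 0 := fun k =>
    pow_ne_zero _ (by exact_mod_cast hℓ.out.ne_zero)
  have hone : Tendsto (fun k => c ^ (ℓ ^ f k)) atTop (𝓝 1) := by
    have h1 := (hzero.mul hy).add_const 1
    rw [zero_mul, zero_add] at h1
    refine h1.congr fun k => ?_
    rw [← mul_assoc, mul_inv_cancel₀ (hne k), one_mul]
    ring
  have h2 : Tendsto (fun k => ∑ i ∈ Finset.range M, (c ^ (ℓ ^ f k)) ^ i) atTop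
      (𝓝 (∑ i ∈ Finset.range M, (1 : ℚ_[ℓ]) ^ i)) :=
    tendsto_finsetSum _ fun i _ => hone.pow i
  have h3 : ∑ i ∈ Finset.range M, (1 : ℚ_[ℓ]) ^ i = M := by simp
  rw [h3] at h2
  refine (h2.mul hy).congr fun k => ?_
  rw [mul_left_comm]
  congr 1
  rw [geom_sum_mul, ← pow_mul, ← pow_mul, mul_comm]

/-- **The main lemma.** Forms which are invariant under `T` (up to the power `M` of `c`) are the
forms which are killed by the logarithm. -/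
theorem log_forms {T : Module.End ℚ_[ℓ] (Fin n → ℚ_[ℓ])} (hT : NearId ℓ T) {c : ℚ_[ℓ]}
    (hc : ‖c - 1‖ ≤ eps ℓ) :
    ∃ (Y : Module.End ℚ_[ℓ] (Fin n → ℚ_[ℓ])) (y : ℚ_[ℓ]),
      ∀ (κ : Type) [Fintype κ] [DecidableEq κ] (φ : Fm ℓ n κ) (M : ℕ),
        ((∃ N, 0 < N ∧ ∀ v, (c ^ M) ^ N * φ (fun j => (T ^ N) (v j)) = φ v) →
          ∀ v, ∑ j, φ (Function.update v j (Y (v j))) + M * y * φ v = 0) ∧
        ((∀ v, ∑ j, φ (Function.update v j (Y (v j))) + M * y * φ v = 0) →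
          ∀ v, c ^ M * φ (fun j => T (v j)) = φ v) := by
  obtain ⟨Y, y, f, hf, hY, hy⟩ := exists_log hT hc
  refine ⟨Y, y, fun κ _ _ φ M => ?_⟩
  have hcM : ∀ M : ℕ, ‖c ^ M - 1‖ ≤ eps ℓ := by
    intro M
    have h1 := (near_smul hc).pow M 1
    have h2 : ((c • (1 : Module.End ℚ_[ℓ] ℚ_[ℓ])) ^ M) 1 = c ^ M := by
      rw [smul_pow, one_pow, LinearMap.smul_apply, Module.End.one_apply, smul_eq_mul, mul_one]
    rw [h2, norm_one, mul_one] at h1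
    exact h1
  have hne : ∀ k, ((ℓ : ℚ_[ℓ]) ^ f k) ≠ 0 := fun k =>
    pow_ne_zero _ (by exact_mod_cast hℓ.out.ne_zero)
  have hzero : Tendsto (fun k => ((ℓ : ℚ_[ℓ]) ^ f k)) atTop (𝓝 0) := by
    have h1 : Tendsto (fun k : ℕ => (ℓ : ℚ_[ℓ]) ^ k) atTop (𝓝 0) := by
      apply tendsto_pow_atTop_nhds_zero_of_norm_lt_one
      rw [norm_ell]
      exact ell_lt_one
    exact h1.comp hf.tendsto_atTop
  -- the derivative
  have hder : ∀ v, Tendsto (fun k => ((ℓ : ℚ_[ℓ]) ^ f k)⁻¹ *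
      (act (T ^ (ℓ ^ f k)) ((c ^ M) ^ (ℓ ^ f k)) φ - φ) v) atTop
      (𝓝 (∑ j, φ (Function.update v j (Y (v j))) + M * y * φ v)) := by
    intro v
    have h1 := deriv_form φ hf hY v
    have h2 := deriv_pow hf hy M
    have h3 : Tendsto (fun k => (c ^ M) ^ (ℓ ^ f k)) atTop (𝓝 1) := by
      have h1 := (hzero.mul h2).add_const 1
      rw [zero_mul, zero_add] at h1
      refine h1.congr fun k => ?_
      rw [← mul_assoc, mul_inv_cancel₀ (hne k), one_mul]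
      ring
    have h4 := (h3.mul h1).add (h2.mul_const (φ v))
    rw [one_mul] at h4
    refine h4.congr fun k => ?_
    change _ = ((ℓ : ℚ_[ℓ]) ^ f k)⁻¹ * (act (T ^ (ℓ ^ f k)) ((c ^ M) ^ (ℓ ^ f k)) φ v - φ v)
    rw [act_apply]
    ring
  constructor
  · rintro ⟨N, hN, h⟩
    have h1 : act T (c ^ M) φ = φ := by
      refine act_of_pow hT (hcM M) hN (MultilinearMap.ext fun v => ?_)
      rw [act_apply]
      exact h v
    intro v
    refine tendsto_nhds_unique (hder v) ?_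
    have h2 : ∀ k, act (T ^ k) ((c ^ M) ^ k) φ = φ := by
      intro k
      rw [← act_pow]
      induction k with
      | zero => rw [pow_zero]; rfl
      | succ k ih => rw [pow_succ, Module.End.mul_apply, h1, ih]
    refine tendsto_const_nhds.congr fun k => ?_
    rw [h2, sub_self]
    simp
  · intro h
    have h1 : Tendsto (fun k => ((ℓ : ℚ_[ℓ]) ^ f k)⁻¹ •
        co (act (T ^ (ℓ ^ f k)) ((c ^ M) ^ (ℓ ^ f k)) φ - φ)) atTop (𝓝 0) := by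
      rw [tendsto_pi_nhds]
      intro r
      have h2 := hder (fun j => sb ℓ (r j))
      rw [h] at h2
      exact h2
    have h2 := h1.norm
    have h3 : ∀ k, ‖((ℓ : ℚ_[ℓ]) ^ f k)⁻¹ •
        co (act (T ^ (ℓ ^ f k)) ((c ^ M) ^ (ℓ ^ f k)) φ - φ)‖ = ‖co (act T (c ^ M) φ - φ)‖ := by
      intro k
      rw [norm_smul, norm_act_pow hT (hcM M), ← mul_assoc, norm_ell_pow_inv, one_mul]
    simp only [h3, norm_zero] at h2
    have h4 := tendsto_nhds_unique h2 tendsto_const_nhds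
    have h5 : act T (c ^ M) φ = φ := by
      have h6 := norm_eq_zero.1 h4.symm
      rw [map_sub, sub_eq_zero] at h6
      exact co_inj h6
    intro v
    rw [← act_apply, h5]

end

end Pool.Agent.Q50.FP
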