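import Pool.Agent.Q50.FP.Ultra

/-!
# The logarithm of an `ℓ`-adic operator and multilinear forms

Let `T` be an operator on `ℚ_ℓ ^ n` which is close to the identity and let `c` be a number close to
one. There are an operator `Y` and a number `y` (the logarithms of `T` and `c`) such that a
multilinear form `φ` satisfies `φ (T v) = c ^ M φ v` if and only if `Y φ = M y φ`, where `Y` acts as a
derivation, and if and only if a similar formula holds for some power of `T`.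
-/

set_option linter.unusedSectionVars false

namespace Pool.Agent.Q50.FP

open Filter Topology

noncomputable section

variable {ℓ : ℕ} [hℓ : Fact ℓ.Prime] {n : ℕ} {κ : Type*} [Fintype κ] [DecidableEq κ]

/-- Multilinear forms on `ℚ_ℓ ^ n`. -/
abbrev Fm (ℓ : ℕ) [Fact ℓ.Prime] (n : ℕ) (κ : Type*) : Type _ :=
  MultilinearMap ℚ_[ℓ] (fun _ : κ => Fin n → ℚ_[ℓ]) ℚ_[ℓ]

/-- The standard basis. -/
def sb (ℓ : ℕ) [Fact ℓ.Prime] {n : ℕ} (i : Fin n) : Fin n → ℚ_[ℓ] := Pi.single i 1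

lemma sb_sum (v : Fin n → ℚ_[ℓ]) : v = ∑ i, v i • sb ℓ i := by
  conv_lhs => rw [pi_eq_sum_univ' v]
  rfl

lemma sb_apply (i j : Fin n) : sb ℓ i j = if j = i then 1 else 0 := by
  rw [sb, Pi.single_apply]

lemma form_expand (φ : Fm ℓ n κ) (v : κ → Fin n → ℚ_[ℓ]) :
    φ v = ∑ r : κ → Fin n, (∏ j, v j (r j)) * φ (fun j => sb ℓ (r j)) := by
  have h1 : v = fun j => ∑ i, v j i • sb ℓ i := funext fun j => sb_sum (v j)
  conv_lhs => rw [h1, φ.map_sum]
  refine Finset.sum_congr rfl fun r _ => ?_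
  rw [φ.map_smul_univ (fun j => v j (r j)) (fun j => sb ℓ (r j)), smul_eq_mul]

/-- The coordinates of a form. -/
def co : Fm ℓ n κ →ₗ[ℚ_[ℓ]] ((κ → Fin n) → ℚ_[ℓ]) where
  toFun φ r := φ (fun j => sb ℓ (r j))
  map_add' _ _ := rfl
  map_smul' _ _ := rfl

lemma co_apply (φ : Fm ℓ n κ) (r : κ → Fin n) : co φ r = φ (fun j => sb ℓ (r j)) := rfl

lemma co_inj {φ ψ : Fm ℓ n κ} (h : co φ = co ψ) : φ = ψ := by
  refine MultilinearMap.ext fun v => ?_
  rw [form_expand φ v, form_expand ψ v]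
  refine Finset.sum_congr rfl fun r _ => ?_
  rw [← co_apply, ← co_apply, h]

/-- The form with given coordinates. -/
def fo : ((κ → Fin n) → ℚ_[ℓ]) →ₗ[ℚ_[ℓ]] Fm ℓ n κ where
  toFun f := ∑ r, f r • (MultilinearMap.mkPiAlgebra ℚ_[ℓ] κ ℚ_[ℓ]).compLinearMap
    (fun j => LinearMap.proj (r j))
  map_add' f g := by
    rw [← Finset.sum_add_distrib]
    exact Finset.sum_congr rfl fun r _ => by rw [Pi.add_apply, add_smul]
  map_smul' c f := by
    rw [RingHom.id_apply, Finset.smul_sum]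
    exact Finset.sum_congr rfl fun r _ => by rw [Pi.smul_apply, smul_assoc]

lemma fo_apply (f : (κ → Fin n) → ℚ_[ℓ]) (v : κ → Fin n → ℚ_[ℓ]) :
    fo f v = ∑ r, f r * ∏ j, v j (r j) := by
  change (∑ r, f r • (MultilinearMap.mkPiAlgebra ℚ_[ℓ] κ ℚ_[ℓ]).compLinearMap
    (fun j => LinearMap.proj (r j))) v = _
  rw [sum_apply]
  rfl

lemma co_fo (f : (κ → Fin n) → ℚ_[ℓ]) : co (fo f) = f := by
  funext r
  rw [co_apply, fo_apply, Finset.sum_eq_single r]
  · rw [Finset.prod_eq_one, mul_one]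
    intro j _
    rw [sb_apply, if_pos rfl]
  · intro r' _ h
    obtain ⟨j, hj⟩ := Function.ne_iff.1 h
    rw [Finset.prod_eq_zero (Finset.mem_univ j), mul_zero]
    rw [sb_apply, if_neg hj]
  · intro h
    exact absurd (Finset.mem_univ _) h

lemma fo_co (φ : Fm ℓ n κ) : fo (co φ) = φ := co_inj (co_fo _)

/-- The operator `φ ↦ c φ ∘ T`. -/
def act (T : Module.End ℚ_[ℓ] (Fin n → ℚ_[ℓ])) (c : ℚ_[ℓ]) : Module.End ℚ_[ℓ] (Fm ℓ n κ) where
  toFun φ := c • φ.compLinearMap (fun _ => T)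
  map_add' φ ψ := by
    ext v
    simp [mul_add]
  map_smul' a φ := by
    ext v
    simp
    ring

lemma act_apply (T : Module.End ℚ_[ℓ] (Fin n → ℚ_[ℓ])) (c : ℚ_[ℓ]) (φ : Fm ℓ n κ)
    (v : κ → Fin n → ℚ_[ℓ]) : act T c φ v = c * φ (fun j => T (v j)) := rfl

lemma act_pow (T : Module.End ℚ_[ℓ] (Fin n → ℚ_[ℓ])) (c : ℚ_[ℓ]) (k : ℕ) :
    (act T c : Module.End ℚ_[ℓ] (Fm ℓ n κ)) ^ k = act (T ^ k) (c ^ k) := by
  induction k with
  | zero =>
    refine LinearMap.ext fun φ => MultilinearMap.ext fun v => ?_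
    rw [pow_zero, pow_zero, pow_zero, act_apply, one_mul]
    rfl
  | succ k ih =>
    refine LinearMap.ext fun φ => MultilinearMap.ext fun v => ?_
    rw [pow_succ', ih, Module.End.mul_apply, act_apply, act_apply, act_apply, pow_succ, pow_succ]
    simp only [Module.End.mul_apply]
    ring

/-- The operator `act` on coordinates. -/
def uop (T : Module.End ℚ_[ℓ] (Fin n → ℚ_[ℓ])) (c : ℚ_[ℓ]) :
    Module.End ℚ_[ℓ] ((κ → Fin n) → ℚ_[ℓ]) := co ∘ₗ act T c ∘ₗ fo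

lemma uop_co (T : Module.End ℚ_[ℓ] (Fin n → ℚ_[ℓ])) (c : ℚ_[ℓ]) (φ : Fm ℓ n κ) :
    uop T c (co φ) = co (act T c φ) := by
  change co (act T c (fo (co φ))) = _
  rw [fo_co]

lemma uop_pow_co (T : Module.End ℚ_[ℓ] (Fin n → ℚ_[ℓ])) (c : ℚ_[ℓ]) (k : ℕ) (φ : Fm ℓ n κ) :
    (uop T c ^ k) (co φ) = co (act (T ^ k) (c ^ k) φ) := by
  rw [← act_pow]
  induction k generalizing φ with
  | zero => rw [pow_zero, pow_zero]; rfl
  | succ k ih =>
    rw [pow_succ, Module.End.mul_apply, uop_co, ih, pow_succ, Module.End.mul_apply]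

/-- The entries of an operator. -/
lemma near_entry {T : Module.End ℚ_[ℓ] (Fin n → ℚ_[ℓ])} (hT : NearId ℓ T) (i j : Fin n) :
    ‖T (sb ℓ j) i - if i = j then 1 else 0‖ ≤ eps ℓ := by
  have h1 := (norm_le_pi_norm (T (sb ℓ j) - sb ℓ j) i).trans (hT (sb ℓ j))
  rw [Pi.sub_apply, sb_apply] at h1
  refine h1.trans (mul_le_of_le_one_right eps_pos.le ?_)
  rw [pi_norm_le_iff_of_nonneg zero_le_one]
  intro a
  rw [sb_apply]
  split_ifs <;> simp

lemma prod_sub_le {ι : Type*} (s : Finset ι) (a b : ι → ℚ_[ℓ]) {ε : ℝ} (hε : 0 ≤ ε)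
    (ha : ∀ i, ‖a i‖ ≤ 1) (hb : ∀ i, ‖b i‖ ≤ 1) (hab : ∀ i, ‖a i - b i‖ ≤ ε) :
    ‖∏ i ∈ s, a i - ∏ i ∈ s, b i‖ ≤ ε := by
  classical
  induction s using Finset.induction_on with
  | empty => simpa using hε
  | insert i s hi ih =>
    rw [Finset.prod_insert hi, Finset.prod_insert hi]
    have h1 : a i * ∏ i ∈ s, a i - b i * ∏ i ∈ s, b i =
        a i * (∏ i ∈ s, a i - ∏ i ∈ s, b i) + (a i - b i) * ∏ i ∈ s, b i := by ring
    rw [h1]
    refine (IsUltrametricDist.norm_add_le_max _ _).trans (max_le ?_ ?_)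
    · rw [norm_mul]
      exact (mul_le_of_le_one_left (norm_nonneg _) (ha i)).trans ih
    · rw [norm_mul]
      refine (mul_le_of_le_one_right (norm_nonneg _) ?_).trans (hab i)
      rw [norm_prod]
      exact Finset.prod_le_one (fun _ _ => norm_nonneg _) fun i _ => hb i

lemma uop_near {T : Module.End ℚ_[ℓ] (Fin n → ℚ_[ℓ])} (hT : NearId ℓ T) {c : ℚ_[ℓ]}
    (hc : ‖c - 1‖ ≤ eps ℓ) : NearId ℓ (uop (κ := κ) T c) := by
  have hle : ∀ i j : Fin n, ‖T (sb ℓ j) i‖ ≤ 1 := by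
    intro i j
    have h1 : T (sb ℓ j) i = (T (sb ℓ j) i - if i = j then 1 else 0) + if i = j then 1 else 0 := by
      ring
    rw [h1]
    refine (IsUltrametricDist.norm_add_le_max _ _).trans
      (max_le ((near_entry hT i j).trans eps_lt_one.le) ?_)
    split_ifs <;> simp
  have hc1 : ‖c‖ ≤ 1 := by
    have h1 : c = (c - 1) + 1 := by ring
    rw [h1]
    exact (IsUltrametricDist.norm_add_le_max _ _).trans
      (max_le (hc.trans eps_lt_one.le) (by simp))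
  intro f
  rw [pi_norm_le_iff_of_nonneg (mul_nonneg eps_pos.le (norm_nonneg _))]
  intro r
  have h1 : (uop T c f - f) r = ∑ r', (c * (∏ j, T (sb ℓ (r j)) (r' j)) -
      (∏ j, if r' j = r j then (1 : ℚ_[ℓ]) else 0)) * f r' := by
    have h2 : uop T c f r = c * ∑ r', f r' * ∏ j, T (sb ℓ (r j)) (r' j) := by
      change act T c (fo f) (fun j => sb ℓ (r j)) = _
      rw [act_apply, fo_apply]
    have h3 : f r = ∑ r', (∏ j, if r' j = r j then (1 : ℚ_[ℓ]) else 0) * f r' := by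
      conv_lhs => rw [← co_fo f, co_apply, fo_apply]
      refine Finset.sum_congr rfl fun r' _ => ?_
      rw [mul_comm]
      congr 1
      exact Finset.prod_congr rfl fun j _ => sb_apply _ _
    rw [Pi.sub_apply, h2, h3, Finset.mul_sum, ← Finset.sum_sub_distrib]
    refine Finset.sum_congr rfl fun r' _ => ?_
    ring
  rw [h1]
  refine IsUltrametricDist.norm_sum_le_of_forall_le_of_nonneg
    (mul_nonneg eps_pos.le (norm_nonneg _)) fun r' _ => ?_
  rw [norm_mul]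
  refine mul_le_mul ?_ (norm_le_pi_norm f r') (norm_nonneg _) eps_pos.le
  have h4 : c * (∏ j, T (sb ℓ (r j)) (r' j)) - (∏ j, if r' j = r j then (1 : ℚ_[ℓ]) else 0) =
      (c - 1) * (∏ j, T (sb ℓ (r j)) (r' j)) +
      ((∏ j, T (sb ℓ (r j)) (r' j)) - (∏ j, if r' j = r j then (1 : ℚ_[ℓ]) else 0)) := by ring
  rw [h4]
  refine (IsUltrametricDist.norm_add_le_max _ _).trans (max_le ?_ ?_)
  · rw [norm_mul]
    refine (mul_le_of_le_one_right (norm_nonneg _) ?_).trans hc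
    rw [norm_prod]
    exact Finset.prod_le_one (fun _ _ => norm_nonneg _) fun i _ => hle _ _
  · refine prod_sub_le _ _ _ eps_pos.le (fun j => hle _ _) (fun j => ?_) fun j => ?_
    · split_ifs <;> simp
    · exact near_entry hT (r' j) (r j)

/-- The norms of the differences. -/
lemma norm_act_pow {T : Module.End ℚ_[ℓ] (Fin n → ℚ_[ℓ])} (hT : NearId ℓ T) {c : ℚ_[ℓ]}
    (hc : ‖c - 1‖ ≤ eps ℓ) (k : ℕ) (φ : Fm ℓ n κ) :
    ‖co (act (T ^ (ℓ ^ k)) (c ^ (ℓ ^ k)) φ - φ)‖ = ((ℓ : ℝ)⁻¹) ^ k * ‖co (act T c φ - φ)‖ := by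
  rw [map_sub, map_sub, ← uop_pow_co, ← uop_co]
  exact (uop_near hT hc).norm_pow_ell k (co φ)

/-- A form which is invariant under a power is invariant. -/
lemma act_of_pow {T : Module.End ℚ_[ℓ] (Fin n → ℚ_[ℓ])} (hT : NearId ℓ T) {c : ℚ_[ℓ]}
    (hc : ‖c - 1‖ ≤ eps ℓ) {N : ℕ} (hN : 0 < N) {φ : Fm ℓ n κ}
    (h : act (T ^ N) (c ^ N) φ = φ) : act T c φ = φ := by
  apply co_inj
  rw [← uop_co]
  refine (uop_near hT hc).fixed_of_pow N hN (co φ) ?_
  rw [uop_pow_co, h]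

end

end Pool.Agent.Q50.FP
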