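import Mathlib

/-!
# Operators close to the identity on ultrametric spaces over the `ℓ`-adic numbers
-/

namespace Pool.Agent.Q50.FP

open Filter Topology

variable {ℓ : ℕ} [hℓ : Fact ℓ.Prime]

/-- The number `ℓ⁻²`. -/
noncomputable def eps (ℓ : ℕ) : ℝ := ((ℓ : ℝ)⁻¹) ^ 2

lemma ell_pos : (0 : ℝ) < (ℓ : ℝ)⁻¹ := by
  have := hℓ.out.pos
  positivity

lemma ell_lt_one : (ℓ : ℝ)⁻¹ < 1 := by
  have h1 : (1 : ℝ) < ℓ := by exact_mod_cast hℓ.out.one_lt
  exact inv_lt_one_of_one_lt₀ h1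

lemma eps_pos : 0 < eps ℓ := pow_pos ell_pos 2

lemma eps_lt : eps ℓ < (ℓ : ℝ)⁻¹ := by
  rw [eps, sq]
  calc (ℓ : ℝ)⁻¹ * (ℓ : ℝ)⁻¹ < (ℓ : ℝ)⁻¹ * 1 := mul_lt_mul_of_pos_left ell_lt_one ell_pos
    _ = (ℓ : ℝ)⁻¹ := mul_one _

lemma eps_lt_one : eps ℓ < 1 := lt_trans eps_lt ell_lt_one

variable {E : Type*} [NormedAddCommGroup E] [NormedSpace ℚ_[ℓ] E] [IsUltrametricDist E]

/-- The operator is close to the identity. -/
def NearId (ℓ : ℕ) [Fact ℓ.Prime] {E : Type*} [NormedAddCommGroup E] [NormedSpace ℚ_[ℓ] E]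
    (U : Module.End ℚ_[ℓ] E) : Prop := ∀ x, ‖U x - x‖ ≤ eps ℓ * ‖x‖

omit [IsUltrametricDist E] in
lemma NearId.le {U : Module.End ℚ_[ℓ] E} (hU : NearId ℓ U) (x : E) : ‖U x - x‖ ≤ ‖x‖ :=
  (hU x).trans (mul_le_of_le_one_left (norm_nonneg _) eps_lt_one.le)

lemma NearId.norm_le {U : Module.End ℚ_[ℓ] E} (hU : NearId ℓ U) (x : E) : ‖U x‖ ≤ ‖x‖ := by
  have h1 : U x = (U x - x) + x := by abel
  rw [h1]
  exact (IsUltrametricDist.norm_add_le_max _ _).trans (max_le (hU.le x) le_rfl)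

omit [IsUltrametricDist E] in
lemma NearId.one : NearId ℓ (1 : Module.End ℚ_[ℓ] E) := fun x => by
  rw [Module.End.one_apply, sub_self, norm_zero]
  exact mul_nonneg eps_pos.le (norm_nonneg _)

lemma NearId.mul {U V : Module.End ℚ_[ℓ] E} (hU : NearId ℓ U) (hV : NearId ℓ V) :
    NearId ℓ (U * V) := fun x => by
  have h1 : (U * V) x - x = (U (V x) - V x) + (V x - x) := by
    rw [Module.End.mul_apply]; abel
  rw [h1]
  refine (IsUltrametricDist.norm_add_le_max _ _).trans (max_le ?_ (hV x))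
  exact (hU _).trans (mul_le_mul_of_nonneg_left (hV.norm_le x) eps_pos.le)

lemma NearId.pow {U : Module.End ℚ_[ℓ] E} (hU : NearId ℓ U) (n : ℕ) : NearId ℓ (U ^ n) := by
  induction n with
  | zero => rw [pow_zero]; exact NearId.one
  | succ n ih => rw [pow_succ]; exact ih.mul hU

omit [IsUltrametricDist E] in
lemma pow_sub_one_apply (U : Module.End ℚ_[ℓ] E) (n : ℕ) (x : E) :
    (U ^ n) x - x = ∑ i ∈ Finset.range n, (U ^ i) (U x - x) := by
  have h1 : (∑ i ∈ Finset.range n, U ^ i) * (U - 1) = U ^ n - 1 := geom_sum_mul U n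
  have h2 := congrArg (fun f : Module.End ℚ_[ℓ] E => f x) h1
  simp only [Module.End.mul_apply, LinearMap.sub_apply, Module.End.one_apply,
    LinearMap.sum_apply] at h2
  exact h2.symm

/-- The sum of the first `n` powers is close to the multiplication by `n`. -/
lemma NearId.sum_sub {U : Module.End ℚ_[ℓ] E} (hU : NearId ℓ U) (n : ℕ) (g : E) :
    ‖(∑ i ∈ Finset.range n, (U ^ i) g) - (n : ℚ_[ℓ]) • g‖ ≤ eps ℓ * ‖g‖ := by
  have h1 : (∑ i ∈ Finset.range n, (U ^ i) g) - (n : ℚ_[ℓ]) • g =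
      ∑ i ∈ Finset.range n, ((U ^ i) g - g) := by
    rw [Finset.sum_sub_distrib, Finset.sum_const, Finset.card_range, Nat.cast_smul_eq_nsmul]
  rw [h1]
  exact IsUltrametricDist.norm_sum_le_of_forall_le_of_nonneg
    (mul_nonneg eps_pos.le (norm_nonneg _)) fun i _ => (hU.pow i) g

/-- If `ε ‖g‖ < ‖n‖ ‖g‖`, the norm of `U ^ n x - x` is `‖n‖` times the norm of `U x - x`. -/
lemma NearId.norm_pow_sub {U : Module.End ℚ_[ℓ] E} (hU : NearId ℓ U) (n : ℕ)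
    (hn : eps ℓ < ‖(n : ℚ_[ℓ])‖) (x : E) :
    ‖(U ^ n) x - x‖ = ‖(n : ℚ_[ℓ])‖ * ‖U x - x‖ := by
  rw [pow_sub_one_apply]
  set g := U x - x with hg
  by_cases h0 : g = 0
  · rw [h0]
    simp
  have h1 := hU.sum_sub n g
  have h2 : ‖(n : ℚ_[ℓ]) • g‖ = ‖(n : ℚ_[ℓ])‖ * ‖g‖ := norm_smul _ _
  have h3 : ‖(∑ i ∈ Finset.range n, (U ^ i) g) - (n : ℚ_[ℓ]) • g‖ < ‖(n : ℚ_[ℓ]) • g‖ := by
    rw [h2]
    exact h1.trans_lt (mul_lt_mul_of_pos_right hn (norm_pos_iff.2 h0))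
  have h4 : (∑ i ∈ Finset.range n, (U ^ i) g) = ((∑ i ∈ Finset.range n, (U ^ i) g) -
      (n : ℚ_[ℓ]) • g) + (n : ℚ_[ℓ]) • g := by abel
  rw [h4, IsUltrametricDist.norm_add_eq_max_of_norm_ne_norm h3.ne, max_eq_right h3.le, h2]

lemma norm_ell : ‖((ℓ : ℕ) : ℚ_[ℓ])‖ = (ℓ : ℝ)⁻¹ := by
  rw [Padic.norm_p]

lemma NearId.norm_pow_ell {U : Module.End ℚ_[ℓ] E} (hU : NearId ℓ U) (k : ℕ) (x : E) :
    ‖(U ^ (ℓ ^ k)) x - x‖ = ((ℓ : ℝ)⁻¹) ^ k * ‖U x - x‖ := by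
  induction k with
  | zero => rw [pow_zero, pow_one, pow_zero, one_mul]
  | succ k ih =>
    have h1 : U ^ (ℓ ^ (k + 1)) = (U ^ (ℓ ^ k)) ^ ℓ := by rw [← pow_mul, pow_succ]
    rw [h1, (hU.pow (ℓ ^ k)).norm_pow_sub ℓ (by rw [norm_ell]; exact eps_lt) x, ih, norm_ell,
      pow_succ]
    ring

/-- An element fixed by a power is fixed. -/
lemma NearId.fixed_of_pow : ∀ (N : ℕ), 0 < N → ∀ {U : Module.End ℚ_[ℓ] E}, NearId ℓ U → ∀ (x : E),
    (U ^ N) x = x → U x = x := by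
  intro N
  induction N using Nat.strong_induction_on with
  | _ N ih =>
    intro hN U hU x hx
    by_cases hd : ℓ ∣ N
    · obtain ⟨M, rfl⟩ := hd
      have hM : 0 < M := Nat.pos_of_mul_pos_right hN |> fun h => by
        rcases Nat.eq_zero_or_pos M with h0 | h0
        · rw [h0, mul_zero] at hN; exact absurd hN (lt_irrefl _)
        · exact h0
      have hlt : M < ℓ * M := by
        have := hℓ.out.one_lt
        nlinarith
      refine ih M hlt hM hU x ?_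
      have h1 : U ^ (ℓ * M) = (U ^ M) ^ ℓ := by rw [← pow_mul, mul_comm]
      have h2 := (hU.pow M).norm_pow_sub ℓ (by rw [norm_ell]; exact eps_lt) x
      rw [← h1, hx, sub_self, norm_zero, norm_ell] at h2
      have h3 : ‖(U ^ M) x - x‖ = 0 := by
        rcases mul_eq_zero.1 h2.symm with h | h
        · exact absurd h ell_pos.ne'
        · exact h
      exact sub_eq_zero.1 (norm_eq_zero.1 h3)
    · have h1 : ‖(N : ℚ_[ℓ])‖ = 1 := by
        have h2 : ¬ ‖((N : ℤ) : ℚ_[ℓ])‖ < 1 := by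
          rw [Padic.norm_intCast_lt_one_iff]
          exact fun h => hd (Int.natCast_dvd_natCast.1 h)
        have h3 := Padic.norm_int_le_one (p := ℓ) (N : ℤ)
        rw [Int.cast_natCast] at h2 h3
        exact le_antisymm h3 (not_lt.1 h2)
      have h2 := hU.norm_pow_sub N (by rw [h1]; exact eps_lt_one) x
      rw [hx, sub_self, norm_zero, h1, one_mul] at h2
      exact sub_eq_zero.1 (norm_eq_zero.1 h2.symm)

end Pool.Agent.Q50.FP
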